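import Pool.Agent.XB.StmtsB

set_option autoImplicit false

noncomputable section

namespace Pool.Agent.XB

open scoped Classical
open MvPolynomial Pool.Agent.FRM Pool.Agent.XV Pool.Agent.GML

namespace BSX_

/-- a maximal independent subfamily of the generators of a torsion free module -/
theorem core {A B : Type} [CommRing A] [CommRing B] (S : Subring B) (D : AddSubgroup B)
    (hD : ∀ s ∈ S, ∀ b ∈ D, s * b ∈ D) (f : A →+* B) (hf : ∀ a, f a ∈ S) (I : Ideal A)
    (hI : ∀ a, f a ∈ D ↔ a ∈ I) (h1 : (1 : B) ∉ D)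
    (hnz : ∀ a, a ∉ I → ∀ b ∈ S, f a * b ∈ D → b ∈ D) (m : ℕ) (b : Fin m → B)
    (hb : ∀ i, b i ∈ S)
    (hgen : ∀ y ∈ S, ∃ q : Fin m → A, y - ∑ i, f (q i) * b i ∈ D) :
    ∃ (n : ℕ) (b' : Fin n → B) (r : A), 0 < n ∧ (∀ i, b' i ∈ S) ∧ r ∉ I ∧
      (∀ q : Fin n → A, (∑ i, f (q i) * b' i) ∈ D → ∀ i, q i ∈ I) ∧
      ∀ y ∈ S, ∃ q : Fin n → A, f r * y - ∑ i, f (q i) * b' i ∈ D := by
  have hmul : ∀ a a' : A, a ∉ I → a' ∉ I → a * a' ∉ I := by
    intro a a' ha ha' hcon
    rw [← hI, map_mul] at hcon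
    exact ha' ((hI a').mp (hnz a ha _ (hf a') hcon))
  have hone : (1 : A) ∉ I := by
    intro hcon
    rw [← hI, map_one] at hcon
    exact h1 hcon
  let Ind : Finset (Fin m) → Prop := fun T =>
    ∀ q : Fin m → A, (∑ i ∈ T, f (q i) * b i) ∈ D → ∀ i ∈ T, q i ∈ I
  have hex : (Finset.univ.powerset.filter Ind).Nonempty :=
    ⟨∅, Finset.mem_filter.mpr ⟨Finset.mem_powerset.mpr (Finset.empty_subset _),
      fun _ _ i hi => absurd hi (Finset.notMem_empty i)⟩⟩
  obtain ⟨T, hT, hmax⟩ := Finset.exists_max_image _ (fun T : Finset (Fin m) => T.card) hex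
  have hTI : Ind T := (Finset.mem_filter.mp hT).2
  -- every generator is torsion modulo `T`
  have htor : ∀ j : Fin m, ∃ (rj : A) (q : Fin m → A), rj ∉ I ∧
      f rj * b j - ∑ i ∈ T, f (q i) * b i ∈ D := by
    intro j
    by_cases hj : j ∈ T
    · refine ⟨1, fun i => if i = j then 1 else 0, hone, ?_⟩
      have : ∑ i ∈ T, f (if i = j then (1 : A) else 0) * b i = b j := by
        rw [Finset.sum_eq_single j]
        · rw [if_pos rfl, map_one, one_mul]
        · intro i _ hij
          rw [if_neg hij, map_zero, zero_mul]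
        · intro h; exact absurd hj h
      rw [this, map_one, one_mul, sub_self]
      exact D.zero_mem
    · have hnot : ¬ Ind (insert j T) := by
        intro hcon
        have h2 := hmax (insert j T) (Finset.mem_filter.mpr
          ⟨Finset.mem_powerset.mpr (Finset.subset_univ _), hcon⟩)
        rw [Finset.card_insert_of_notMem hj] at h2
        omega
      simp only [Ind, not_forall] at hnot
      obtain ⟨q, hq, i, hi, hqi⟩ := hnot
      rw [Finset.sum_insert hj] at hq
      have hqj : q j ∉ I := by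
        intro hqj
        have h3 : f (q j) * b j ∈ D := by
          rw [mul_comm]
          exact hD _ (hb j) _ ((hI _).mpr hqj)
        have h4 : (∑ i ∈ T, f (q i) * b i) ∈ D := by
          have := D.sub_mem hq h3
          rwa [add_sub_cancel_left] at this
        rcases Finset.mem_insert.mp hi with h5 | h5
        · rw [h5] at hqi; exact hqi hqj
        · exact hqi (hTI q h4 i h5)
      refine ⟨q j, fun i => - q i, hqj, ?_⟩
      have h3 : ∑ i ∈ T, f (- q i) * b i = - ∑ i ∈ T, f (q i) * b i := by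
        rw [← Finset.sum_neg_distrib]
        apply Finset.sum_congr rfl
        intro i _
        rw [map_neg, neg_mul]
      rw [h3, sub_neg_eq_add]
      exact hq
  choose rj q hrj hq using htor
  -- the common denominator
  have hr : (∏ j, rj j) ∉ I := by
    have : ∀ U : Finset (Fin m), (∏ j ∈ U, rj j) ∉ I := by
      intro U
      induction U using Finset.induction_on with
      | empty => simpa using hone
      | insert i U hi ih => rw [Finset.prod_insert hi]; exact hmul _ _ (hrj i) ih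
    exact this _
  have hsumS : ∀ (c : Fin m → A), (∑ i ∈ T, f (c i) * b i) ∈ S := fun c =>
    S.sum_mem (fun i _ => S.mul_mem (hf _) (hb i))
  -- generation over `Fin m` functions supported on `T`
  have hgen' : ∀ y ∈ S, ∃ c : Fin m → A,
      f (∏ j, rj j) * y - ∑ i ∈ T, f (c i) * b i ∈ D := by
    intro y hy
    obtain ⟨p, hp⟩ := hgen y hy
    refine ⟨fun i => ∑ j, (∏ l ∈ Finset.univ.erase j, rj l) * p j * q j i, ?_⟩
    have e1 : f (∏ j, rj j) * y - ∑ i ∈ T, f (∑ j, (∏ l ∈ Finset.univ.erase j, rj l) * p j * q j i) * b i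
        = f (∏ j, rj j) * (y - ∑ i, f (p i) * b i) +
          ∑ j, f ((∏ l ∈ Finset.univ.erase j, rj l) * p j) *
            (f (rj j) * b j - ∑ i ∈ T, f (q j i) * b i) := by
      have e2 : ∑ i ∈ T, f (∑ j, (∏ l ∈ Finset.univ.erase j, rj l) * p j * q j i) * b i =
          ∑ j, f ((∏ l ∈ Finset.univ.erase j, rj l) * p j) * ∑ i ∈ T, f (q j i) * b i := by
        simp only [map_sum, Finset.sum_mul, Finset.mul_sum]
        rw [Finset.sum_comm]
        apply Finset.sum_congr rfl
        intro j _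
        apply Finset.sum_congr rfl
        intro i _
        rw [map_mul f _ (q j i)]
        ring
      have e3 : f (∏ j, rj j) * ∑ i, f (p i) * b i =
          ∑ j, f ((∏ l ∈ Finset.univ.erase j, rj l) * p j) * (f (rj j) * b j) := by
        rw [Finset.mul_sum]
        apply Finset.sum_congr rfl
        intro j _
        rw [← Finset.mul_prod_erase _ _ (Finset.mem_univ j), map_mul, map_mul]
        ring
      rw [e2, mul_sub, e3]
      simp only [mul_sub, Finset.sum_sub_distrib]
      ring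
    rw [e1]
    refine D.add_mem (hD _ (hf _) _ hp) (D.sum_mem (fun j _ => hD _ (hf _) _ (hq j)))
  -- reindex
  have e := T.equivFin
  have hsum : ∀ c : Fin m → A, ∑ i : Fin T.card, f (c ((e.symm i : T) : Fin m)) *
      b ((e.symm i : T) : Fin m) = ∑ i ∈ T, f (c i) * b i := by
    intro c
    rw [← Finset.sum_coe_sort T (fun i => f (c i) * b i)]
    exact Equiv.sum_comp e.symm (fun i : T => f (c i) * b i)
  refine ⟨T.card, fun i => b (e.symm i : T), ∏ j, rj j, ?_, fun i => hb _, hr, ?_, ?_⟩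
  · by_contra hcon
    have hT0 : T = ∅ := Finset.card_eq_zero.mp (by omega)
    obtain ⟨c, hc⟩ := hgen' 1 S.one_mem
    rw [hT0, Finset.sum_empty, sub_zero] at hc
    exact h1 (hnz _ hr 1 S.one_mem hc)
  · intro c hc i
    let c' : Fin m → A := fun j => if h : j ∈ T then c (e ⟨j, h⟩) else 0
    have hcc : ∀ i : Fin T.card, c' ((e.symm i : T) : Fin m) = c i := by
      intro i
      show (if h : ((e.symm i : T) : Fin m) ∈ T then c (e ⟨_, h⟩) else 0) = c i
      rw [dif_pos (e.symm i).2]
      congr 1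
      exact e.apply_symm_apply i
    have h2 : (∑ i ∈ T, f (c' i) * b i) ∈ D := by
      rw [← hsum c']
      simp only [hcc]
      exact hc
    have h3 := hTI c' h2 _ (e.symm i).2
    rw [hcc] at h3
    exact h3
  · intro y hy
    obtain ⟨c, hc⟩ := hgen' y hy
    refine ⟨fun i => c ((e.symm i : T) : Fin m), ?_⟩
    rw [hsum c]
    exact hc

end BSX_

open BSX_ in
theorem BSX_proof (hFID : Stmt_Fid) (hNZD : Stmt_Nzd) (hLFK : Stmt_Lfk) (hGSS : Stmt_Gss) :
    Stmt_Bsx := by
  intro p J E K _ V F _ c σ t ϖ P z B _ _ φ ℬ _ hsu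
  have hb := hsu.base
  have := hsu.dom
  -- the additive group of multiples
  let D : AddSubgroup B :=
    { carrier := {b | Dvb V φ ϖ b}
      zero_mem' := ⟨0, zero_mem _, by simp⟩
      add_mem' := by
        rintro _ _ ⟨b, hb, rfl⟩ ⟨b', hb', rfl⟩
        exact ⟨b + b', add_mem hb hb', by ring⟩
      neg_mem' := by
        rintro _ ⟨b, hb, rfl⟩
        exact ⟨-b, neg_mem hb, by ring⟩ }
  have hgss := (hGSS K V ϖ hb.irr hb.dvr P ?_ z hb.close.z_int B φ hsu.ker hsu.intB).2.1
  · obtain ⟨-, ⟨m, g, hg1, hg2⟩, -⟩ := hFID p J E K V F c σ t ϖ P z B φ ℬ hsu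
    have hlf : ∀ a, lfb V φ c a ∈ (Sb V φ).toSubring := by
      intro a
      show (vB V φ).IsIntegralElem _
      exact RingHom.isIntegralElem_map _
    obtain ⟨n, b', r, h1, h2, h3, h4, h5⟩ := core (Sb V φ).toSubring D
      (by
        rintro s hs _ ⟨b, hb, rfl⟩
        exact ⟨s * b, mul_mem hs hb, by ring⟩)
      (lfb V φ c) hlf (I F) (fun a => hLFK p J E K V F c σ t ϖ P z B φ ℬ hsu a) hgss
      (fun a ha b hb' h => hNZD p J E K V F c σ t ϖ P z B φ ℬ hsu a ha b hb' h) m g hg1
      (fun y hy => by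
        obtain ⟨q, hq⟩ := hg2 y hy
        exact ⟨fun i => aeval (fun j => MvPolynomial.map σ (z j)) (q i), hq⟩)
    exact ⟨n, b', r, h1, h2, h3, h4, h5⟩
  · exact hb.close.dim

end Pool.Agent.XB
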