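import Pool.Agent.XB.Stmts

/-!
# XB / DMG: polynomials in the linear forms are nonzero on the surface
-/

set_option autoImplicit false

noncomputable section

namespace Pool.Agent.XB

open scoped Classical
open MvPolynomial Pool.Agent.FRM Pool.Agent.XV Pool.Agent.GML

namespace DMG_

lemma core {F : Type} [Field F] {n : ℕ} {L : Type} [Field L] [Algebra F L]
    (θ : MvPolynomial (Fin n) F →ₐ[F] L) (h : Fin 3 → MvPolynomial (Fin n) F)
    (T : Finset (MvPolynomial (Fin n) F))
    (hT : ∀ G, ∃ q : MvPolynomial (Fin n) F → MvPolynomial (Fin 3) F,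
      θ (G - ∑ m ∈ T, aeval h (q m) * m) = 0)
    (Y : Fin 3 → L) (hY : AlgebraicIndependent F Y)
    (hgen : ∀ x : L, ∃ a b : MvPolynomial (Fin 3) F, aeval Y b ≠ 0 ∧ x = aeval Y a / aeval Y b)
    (hY' : ∀ i, ∃ s r : MvPolynomial (Fin n) F, θ s ≠ 0 ∧ θ s * Y i = θ r) :
    AlgebraicIndependent F fun i => θ (h i) := by
  set a : Fin 3 → L := fun i => θ (h i) with ha
  have hθa : ∀ q : MvPolynomial (Fin 3) F, θ (aeval h q) = aeval a q := by
    intro q
    have : (θ.comp (aeval h)) = aeval a := by
      apply MvPolynomial.algHom_ext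
      intro i
      simp [ha]
    exact DFunLike.congr_fun this q
  let A0 := Algebra.adjoin F (Set.range a)
  have haq : ∀ q : MvPolynomial (Fin 3) F, aeval a q ∈ A0 := by
    intro q
    have : aeval a q ∈ (aeval a : MvPolynomial (Fin 3) F →ₐ[F] L).range := ⟨q, rfl⟩
    rw [← Algebra.adjoin_range_eq_range_aeval] at this
    exact this
  -- the image as an algebra over A0
  let S : Subalgebra A0 L :=
    { carrier := {x | ∃ r, θ r = x}
      mul_mem' := by
        rintro _ _ ⟨r, rfl⟩ ⟨s, rfl⟩
        exact ⟨r * s, map_mul _ _ _⟩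
      add_mem' := by
        rintro _ _ ⟨r, rfl⟩ ⟨s, rfl⟩
        exact ⟨r + s, map_add _ _ _⟩
      algebraMap_mem' := by
        rintro ⟨x, hx⟩
        change ∃ r, θ r = x
        have hx' : x ∈ (aeval a : MvPolynomial (Fin 3) F →ₐ[F] L).range := by
          rw [← Algebra.adjoin_range_eq_range_aeval]
          exact hx
        obtain ⟨q, rfl⟩ := hx'
        exact ⟨aeval h q, hθa q⟩ }
  have hfg : S.toSubmodule.FG := by
    refine ⟨T.image θ, le_antisymm ?_ ?_⟩
    · rw [Submodule.span_le]
      intro x hx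
      rw [Finset.coe_image] at hx
      obtain ⟨m, -, rfl⟩ := hx
      exact ⟨m, rfl⟩
    · rintro x ⟨G, rfl⟩
      obtain ⟨q, hq⟩ := hT G
      rw [map_sub, sub_eq_zero] at hq
      rw [hq, map_sum]
      refine Submodule.sum_mem _ fun m hm => ?_
      rw [map_mul, hθa]
      exact Submodule.smul_mem _ (⟨aeval a (q m), haq _⟩ : A0)
        (Submodule.subset_span (Finset.mem_coe.2 (Finset.mem_image_of_mem _ hm)))
  have halgθ : ∀ r, IsAlgebraic A0 (θ r) := fun r =>
    (IsIntegral.of_mem_of_fg S hfg (θ r) ⟨r, rfl⟩).isAlgebraic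
  have halgY : ∀ i, IsAlgebraic A0 (Y i) := by
    intro i
    obtain ⟨s, r, hs, hsr⟩ := hY' i
    apply IsAlgebraic.of_mul (mem_nonZeroDivisors_of_ne_zero hs) (halgθ s)
    rw [hsr]
    exact halgθ r
  have halgP : ∀ q : MvPolynomial (Fin 3) F, IsAlgebraic A0 (aeval Y q) := by
    intro q
    induction q using MvPolynomial.induction_on with
    | C c =>
      have h1 : aeval Y (C c : MvPolynomial (Fin 3) F) = algebraMap A0 L (algebraMap F A0 c) := by
        rw [MvPolynomial.aeval_C]
        rfl
      rw [h1]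
      exact isAlgebraic_algebraMap _
    | add p q hp hq => rw [map_add]; exact hp.add hq
    | mul_X p i hp => rw [map_mul, aeval_X]; exact hp.mul (halgY i)
  have halg : Algebra.IsAlgebraic A0 L := by
    refine ⟨fun x => ?_⟩
    obtain ⟨p, q, hq, rfl⟩ := hgen x
    apply IsAlgebraic.of_mul (mem_nonZeroDivisors_of_ne_zero hq) (halgP q)
    rw [mul_div_cancel₀ _ hq]
    exact halgP p
  have hle : Cardinal.mk (Fin 3) ≤ Algebra.trdeg F L := hY.cardinalMk_le_trdeg
  exact (Algebra.IsAlgebraic.isTranscendenceBasis_of_le_trdeg_of_finite F a hle).1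

/-- The numbering of the two remaining variables. -/
def el2 (l l' : Fin 3) : Fin 3 := if l' < l then l' + 1 else l'

lemma el2_surj : ∀ l i : Fin 3, i = 0 ∨ ∃ l', l' ≠ l ∧ el2 l l' = i := by decide

/-- The specialisation of the variables. -/
def vv (F : Type) [Field F] (l : Fin 3) : Fin 4 → MvPolynomial (Fin 3) F :=
  Fin.cons (X 0) fun l' => if l' = l then 0 else X (el2 l l')

lemma rx_pos : ∀ σ : Fin 6, ∃ l, rx σ l ≠ 0 := by decide

lemma ry_pos : ∀ σ : Fin 6, ∃ l, ry σ l ≠ 0 := by decide

lemma hx_zero {B : Type} [CommRing B] (σ : Fin 6) : hx σ (fun _ => (0 : B)) = 0 := by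
  obtain ⟨l, hl⟩ := rx_pos σ
  unfold hx
  exact Finset.prod_eq_zero (Finset.mem_univ l) (zero_pow hl)

lemma hy_zero {B : Type} [CommRing B] (σ : Fin 6) : hy σ (fun _ => (0 : B)) = 0 := by
  obtain ⟨l, hl⟩ := ry_pos σ
  unfold hy
  exact Finset.prod_eq_zero (Finset.mem_univ l) (zero_pow hl)

lemma map_hx {B C : Type} [CommRing B] [CommRing C] (f : B →+* C) (σ : Fin 6) (x : Fin 3 → B) :
    f (hx σ x) = hx σ fun l => f (x l) := by
  unfold hx
  rw [map_prod]
  simp only [map_pow]

lemma map_hy {B C : Type} [CommRing B] [CommRing C] (f : B →+* C) (σ : Fin 6) (x : Fin 3 → B) :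
    f (hy σ x) = hy σ fun l => f (x l) := by
  unfold hy
  rw [map_prod]
  simp only [map_pow]

lemma gA_ne (F : Type) [Field F] (σ : Fin 6) (l : Fin 3) :
    aeval (vv F l) (gA F σ) ≠ 0 := by
  set e : MvPolynomial (Fin 4) F →+* MvPolynomial (Fin 3) F :=
    ((aeval (vv F l) : MvPolynomial (Fin 4) F →ₐ[F] MvPolynomial (Fin 3) F) :
      MvPolynomial (Fin 4) F →+* MvPolynomial (Fin 3) F) with he
  change e (gA F σ) ≠ 0
  -- evaluation at zero after killing the variables
  let ev : MvPolynomial (Fin 3) F →+* F := eval (fun _ => (0 : F))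
  have hev : ∀ l' : Fin 3, ev (e (X l'.succ)) = 0 := by
    intro l'
    have h1 : e (X l'.succ) = vv F l l'.succ := by
      rw [he]; exact aeval_X _ _
    rw [h1]
    unfold vv
    rw [Fin.cons_succ]
    split_ifs
    · exact map_zero _
    · exact eval_X _
  have h0 : e (X 0) = X 0 := by
    rw [he]; exact aeval_X _ _
  have key : ∀ p : MvPolynomial (Fin 4) F, ev (e p) = 1 → e p ≠ 0 := by
    intro p hp h
    rw [h, map_zero] at hp
    exact zero_ne_one hp
  unfold gA
  rw [map_mul, map_mul, map_mul, h0]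
  refine mul_ne_zero (mul_ne_zero (mul_ne_zero (X_ne_zero _) (key _ ?_)) (key _ ?_)) (key _ ?_)
  · rw [map_add, map_add, map_one, map_one, map_hx, map_hx]
    simp only [hev]
    rw [hx_zero, add_zero]
  · rw [map_add, map_add, map_one, map_one, map_hy, map_hy]
    simp only [hev]
    rw [hy_zero, add_zero]
  · rw [map_sub, map_sub, map_one, map_one, map_mul, map_mul, map_hx, map_hx, map_hy, map_hy]
    simp only [hev]
    rw [hy_zero, mul_zero, sub_zero]

lemma sgn_sq (π : Equiv.Perm (Fin 5)) (c : Pt) : sgn π c * sgn π c = 1 := by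
  unfold sgn
  rw [← Finset.prod_mul_distrib]
  refine Finset.prod_eq_one fun k _ => ?_
  rw [← mul_pow]
  have : sg π k * sg π k = 1 := by
    unfold sg
    split_ifs <;> rfl
  rw [this, one_pow]

lemma act_act (π : Equiv.Perm (Fin 5)) (c : Pt) : act π (act π⁻¹ c) = c := by
  ext k
  · rfl
  · change c.e (pe (π⁻¹)⁻¹ (pe π⁻¹ k)) = c.e k
    rw [inv_inv, ← pe_mul, mul_inv_cancel, pe_one]

lemma xc_eq (F : Type) [Field F] (π : Equiv.Perm (Fin 5)) (c : Pt) :
    xc F c = (sgn π (act π⁻¹ c) : MvPolynomial (Fin (N + 1)) F) *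
      tws π (xc F) (act π⁻¹ c) := by
  unfold tws
  rw [act_act, ← mul_assoc]
  have h1 : ((sgn π (act π⁻¹ c) : ℤ) : MvPolynomial (Fin (N + 1)) F) * (sgn π (act π⁻¹ c) : ℤ) =
      ((sgn π (act π⁻¹ c) * sgn π (act π⁻¹ c) : ℤ) : MvPolynomial (Fin (N + 1)) F) := by
    push_cast
    rfl
  rw [h1, sgn_sq]
  simp

lemma mul_hom_comp {F : Type} [Field F] {n : ℕ} {d : ℕ} {x : MvPolynomial (Fin n) F}
    (hx : x.IsHomogeneous d) (a : MvPolynomial (Fin n) F) (m : ℕ) :
    homogeneousComponent m (a * x) = (if d ≤ m then homogeneousComponent (m - d) a * x else 0) := by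
  have ha : a = ∑ i ∈ Finset.range (a.totalDegree + 1), homogeneousComponent i a :=
    (sum_homogeneousComponent a).symm
  have h1 : homogeneousComponent m (a * x) =
      ∑ i ∈ Finset.range (a.totalDegree + 1), homogeneousComponent m
        (homogeneousComponent i a * x) := by
    conv_lhs => rw [ha, Finset.sum_mul]
    rw [map_sum]
  rw [h1]
  have h2 : ∀ i, homogeneousComponent m (homogeneousComponent i a * x) =
      if m = i + d then homogeneousComponent i a * x else 0 := by
    intro i
    exact homogeneousComponent_of_mem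
      ((mem_homogeneousSubmodule _ _).2 ((homogeneousComponent_isHomogeneous i a).mul hx))
  simp only [h2]
  split_ifs with hd
  · by_cases hm : m - d ∈ Finset.range (a.totalDegree + 1)
    · rw [Finset.sum_eq_single (m - d)]
      · rw [if_pos (by omega)]
      · intro b _ hb
        rw [if_neg]
        intro h; apply hb; omega
      · intro h; exact absurd hm h
    · rw [Finset.mem_range, not_lt] at hm
      rw [homogeneousComponent_eq_zero (m - d) a (by omega), zero_mul]
      refine Finset.sum_eq_zero fun i hi => ?_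
      rw [Finset.mem_range] at hi
      rw [if_neg (by omega)]
  · refine Finset.sum_eq_zero fun i _ => ?_
    rw [if_neg (by omega)]

lemma JI_hom (hPRI : XV.Stmt_Pri) (F : Type) [Field F] (g : Option (Fin 10)) :
    ∀ G ∈ JI F g, ∀ m, homogeneousComponent m G ∈ JI F g := by
  intro G hG m
  unfold JI at hG
  obtain ⟨a, ha, b, hb, rfl⟩ := Submodule.mem_sup.1 hG
  rw [map_add]
  refine Ideal.add_mem _ ?_ ((le_sup_right : I F ≤ JI F g) ((hPRI F).2 b hb m))
  apply (le_sup_left : Jg F g ≤ JI F g)
  unfold Jg at ha ⊢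
  have key : ∀ r m, homogeneousComponent m (r * a) ∈
      Ideal.span {r | ∃ c, 0 < ordG g c ∧ r = xc F c} := by
    refine Submodule.span_induction (p := fun a _ => ∀ r m, homogeneousComponent m (r * a) ∈
      Ideal.span {r | ∃ c, 0 < ordG g c ∧ r = xc F c}) ?_ ?_ ?_ ?_ ha
    · rintro _ ⟨c, hc, rfl⟩ r m
      have h1 : (xc F c).IsHomogeneous 1 := isHomogeneous_X _ _
      rw [mul_hom_comp h1]
      split_ifs
      · exact Ideal.mul_mem_left _ _ (Ideal.subset_span ⟨c, hc, rfl⟩)
      · exact zero_mem _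
    · intro r m
      rw [mul_zero, map_zero]; exact zero_mem _
    · intro x y _ _ hx hy r m
      rw [mul_add, map_add]
      exact add_mem (hx r m) (hy r m)
    · intro r x _ hx r' m
      rw [smul_eq_mul, ← mul_assoc]
      exact hx _ m
  have := key 1 m
  rwa [one_mul] at this

end DMG_

open DMG_ in
theorem DMG_proof (hUCH : Stmt_Uch) (hFNH : Stmt_Fnh) (hRAY : Stmt_Ray) (hPRI : XV.Stmt_Pri) :
    Stmt_Dmg := by
  intro F _ g π σ l hg h hh hX q hq n hmem
  obtain ⟨φ, hker, hunit, hsurj, hZ, hche, hc⟩ := hUCH F π σ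
  let L := FractionRing (MvPolynomial (Fin 3) F)
  let g0 : MvPolynomial (Fin 4) F →ₐ[F] L :=
    (IsScalarTower.toAlgHom F (MvPolynomial (Fin 3) F) L).comp (aeval (vv F l))
  have hinj : Function.Injective (algebraMap (MvPolynomial (Fin 3) F) L) :=
    IsFractionRing.injective _ _
  have hg0 : ∀ y : Submonoid.powers (gA F σ), IsUnit (g0 y) := by
    rintro ⟨_, m, rfl⟩
    change IsUnit (g0 (gA F σ ^ m))
    rw [map_pow]
    apply IsUnit.pow
    rw [isUnit_iff_ne_zero]
    intro h0
    exact gA_ne F σ l (hinj (by rw [map_zero]; exact h0))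
  let ψ : Au F σ →ₐ[F] L := IsLocalization.liftAlgHom (M := Submonoid.powers (gA F σ)) hg0
  have hψ : ∀ r, ψ (algebraMap _ (Au F σ) r) = g0 r := by
    intro r
    exact IsLocalization.lift_eq _ r
  let θ : MvPolynomial (Fin (N + 1)) F →ₐ[F] L := ψ.comp φ
  have hψX : ψ (Xa F σ l) = 0 := by
    unfold Xa
    rw [hψ]
    change algebraMap (MvPolynomial (Fin 3) F) L (aeval (vv F l) (X l.succ)) = 0
    rw [aeval_X]
    unfold vv
    rw [Fin.cons_succ, if_pos rfl, map_zero]
  have hθI : ∀ r ∈ I F, θ r = 0 := by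
    intro r hr
    rw [← hker, RingHom.mem_ker] at hr
    change ψ (φ r) = 0
    rw [hr, map_zero]
  have hθche : θ (che F π σ l) = 0 := by
    change ψ (φ (che F π σ l)) = 0
    rw [hche, map_mul, hψX, mul_zero]
  have hθchf : θ (chf F π σ) ≠ 0 := by
    have := hunit.map ψ
    exact this.ne_zero
  have hθJ : ∀ r ∈ JI F g, θ r = 0 := by
    have hle : JI F g ≤ RingHom.ker θ := by
      unfold JI
      refine sup_le ?_ (fun r hr => (RingHom.mem_ker).2 (hθI r hr))
      unfold Jg
      rw [Ideal.span_le]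
      rintro _ ⟨c, hc0, rfl⟩
      rw [SetLike.mem_coe, RingHom.mem_ker]
      change ψ (φ (xc F c)) = 0
      rw [xc_eq F π c, map_mul]
      obtain ⟨w, -, hw⟩ := hc (act π⁻¹ c)
      rw [hw, map_mul, map_mul, map_prod]
      have h1 := (hRAY.1 g π σ l hg).1 c
      have h2 : ψ (Xa F σ l ^ elc σ l (act π⁻¹ c)) = 0 := by
        rw [map_pow, hψX, h1]
        exact zero_pow hc0.ne'
      rw [Finset.prod_eq_zero (Finset.mem_univ l) h2, mul_zero, mul_zero]
    exact fun r hr => hle hr
  obtain ⟨T, hT⟩ := hFNH F (N + 1) 3 (JI F g) (JI_hom hPRI F g) h hh hX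
  have hind : AlgebraicIndependent F fun i => θ (h i) := by
    refine core θ h T (fun G => ?_) (fun i => algebraMap (MvPolynomial (Fin 3) F) L (X i))
      ?_ ?_ ?_
    · obtain ⟨q, hq⟩ := hT G
      exact ⟨q, hθJ _ hq⟩
    · have h1 : AlgebraicIndependent F (X : Fin 3 → MvPolynomial (Fin 3) F) :=
        algebraicIndependent_X _ _
      exact h1.map' (f := IsScalarTower.toAlgHom F (MvPolynomial (Fin 3) F) L) hinj
    · intro x
      obtain ⟨a, b, hb, rfl⟩ := IsFractionRing.div_surjective (A := MvPolynomial (Fin 3) F) x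
      have h1 : ∀ p : MvPolynomial (Fin 3) F,
          aeval (fun i => algebraMap (MvPolynomial (Fin 3) F) L (X i)) p =
            algebraMap (MvPolynomial (Fin 3) F) L p := by
        intro p
        have : aeval (fun i => algebraMap (MvPolynomial (Fin 3) F) L (X i)) =
            IsScalarTower.toAlgHom F (MvPolynomial (Fin 3) F) L := by
          apply MvPolynomial.algHom_ext
          intro i
          rw [aeval_X]
          rfl
        rw [this]
        rfl
      refine ⟨a, b, ?_, ?_⟩
      · rw [h1]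
        intro h0
        exact nonZeroDivisors.ne_zero hb (hinj (by rw [h0, map_zero]))
      · rw [h1, h1]
    · intro i
      have h1 : ∃ y : Au F σ, ψ y = algebraMap (MvPolynomial (Fin 3) F) L (X i) := by
        rcases el2_surj l i with rfl | ⟨l', hl', hi⟩
        · refine ⟨Za F σ, ?_⟩
          unfold Za
          rw [hψ]
          change algebraMap (MvPolynomial (Fin 3) F) L (aeval (vv F l) (X 0)) = _
          rw [aeval_X]
          rfl
        · refine ⟨Xa F σ l', ?_⟩
          unfold Xa
          rw [hψ]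
          change algebraMap (MvPolynomial (Fin 3) F) L (aeval (vv F l) (X l'.succ)) = _
          rw [aeval_X]
          unfold vv
          rw [Fin.cons_succ, if_neg hl', hi]
      obtain ⟨y, hy⟩ := h1
      obtain ⟨m, r, hr⟩ := hsurj y
      refine ⟨chf F π σ ^ m, r, ?_, ?_⟩
      · rw [map_pow]
        exact pow_ne_zero _ hθchf
      · change ψ (φ (chf F π σ ^ m)) * _ = ψ (φ r)
        rw [← hr, map_mul, hy, map_pow]
  -- the relation
  have h0 : θ (chf F π σ ^ n * aeval h q) = 0 := by
    have hle : Ideal.span {che F π σ l} ⊔ I F ≤ RingHom.ker θ := by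
      refine sup_le ?_ (fun r hr => (RingHom.mem_ker).2 (hθI r hr))
      rw [Ideal.span_le, Set.singleton_subset_iff, SetLike.mem_coe, RingHom.mem_ker]
      exact hθche
    exact hle hmem
  rw [map_mul, map_pow] at h0
  have h1 := (mul_eq_zero.1 h0).resolve_left (pow_ne_zero _ hθchf)
  have h2 : θ (aeval h q) = aeval (fun i => θ (h i)) q := by
    have : (θ.comp (aeval h)) = aeval (fun i => θ (h i)) := by
      apply MvPolynomial.algHom_ext
      intro i
      simp
    exact DFunLike.congr_fun this q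
  rw [h2] at h1
  exact hq ((injective_iff_map_eq_zero _).1 hind q h1)

end Pool.Agent.XB
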