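import Pool.Agent.XB.StmtsB

/-!
Module FID of squad XB: finiteness of the integral model modulo `ϖ`.
-/

set_option autoImplicit false

noncomputable section

namespace Pool.Agent.XB

open scoped Classical
open MvPolynomial Pool.Agent.FRM Pool.Agent.XV Pool.Agent.GML

namespace FID_

section
variable {K : Type} [Field K] (V : ValuationSubring K) {B : Type} [CommRing B] [Algebra K B]
  (φ : MvPolynomial (Fin (N + 1)) K →ₐ[K] B)

lemma vB_mem (w : MvPolynomial (Fin (N + 1)) V) : vB V φ w ∈ Sb V φ :=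
  RingHom.isIntegralElem_map _

lemma vB_C (v : V) : vB V φ (C v) = algebraMap V B v := by
  have h2 : φ (C (v : K)) = algebraMap K B v := φ.commutes _
  simp only [vB, RingHom.comp_apply, map_C]
  exact h2

/-- reduction of the coefficients -/
lemma red {F : Type} [Field F] (c : F →+* V) (σ : V →+* F) (ϖ : V) (sec : ∀ x, σ (c x) = x)
    (ker : RingHom.ker σ = Ideal.span {ϖ}) (w : MvPolynomial (Fin (N + 1)) V) :
    Dvb V φ ϖ (vB V φ w - lfb V φ c (MvPolynomial.map σ w)) := by
  have h1 : C ϖ ∣ w - MvPolynomial.map c (MvPolynomial.map σ w) := by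
    rw [MvPolynomial.C_dvd_iff_dvd_coeff]
    intro m
    rw [coeff_sub, coeff_map, coeff_map]
    have h2 : coeff m w - c (σ (coeff m w)) ∈ RingHom.ker σ := by
      rw [RingHom.mem_ker, map_sub, sec, sub_self]
    rw [ker, Ideal.mem_span_singleton] at h2
    exact h2
  obtain ⟨w', hw'⟩ := h1
  refine ⟨vB V φ w', vB_mem V φ w', ?_⟩
  have h3 : lfb V φ c (MvPolynomial.map σ w) = vB V φ (MvPolynomial.map c (MvPolynomial.map σ w)) := rfl
  rw [h3, ← map_sub, hw', map_mul, vB_C]

lemma dvb_add {ϖ : V} {a b : B} (ha : Dvb V φ ϖ a) (hb : Dvb V φ ϖ b) : Dvb V φ ϖ (a + b) := by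
  obtain ⟨a', ha', rfl⟩ := ha
  obtain ⟨b', hb', rfl⟩ := hb
  exact ⟨a' + b', (Sb V φ).add_mem ha' hb', by ring⟩

lemma dvb_mul {ϖ : V} {a b : B} (ha : Dvb V φ ϖ a) (hb : b ∈ Sb V φ) : Dvb V φ ϖ (a * b) := by
  obtain ⟨a', ha', rfl⟩ := ha
  exact ⟨a' * b, (Sb V φ).mul_mem ha' hb, by ring⟩

lemma dvb_zero {ϖ : V} : Dvb V φ ϖ 0 := ⟨0, (Sb V φ).zero_mem, by ring⟩

lemma dvb_sum {ϖ : V} {ι : Type} (s : Finset ι) (f : ι → B) (h : ∀ i ∈ s, Dvb V φ ϖ (f i)) :
    Dvb V φ ϖ (∑ i ∈ s, f i) := by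
  induction s using Finset.induction_on with
  | empty => simpa using dvb_zero V φ
  | insert a s ha ih =>
    rw [Finset.sum_insert ha]
    exact dvb_add V φ (h a (Finset.mem_insert_self a s))
      (ih fun i hi => h i (Finset.mem_insert_of_mem hi))

end

end FID_

open FID_ in
theorem FID_proof (_hFINA : FRM.Stmt_FinA) : Stmt_Fid := by
  intro p J E K _ V F _ c σ t ϖ P z B _ _ φ ℬ _ h
  have hred := red V φ c σ ϖ h.base.sec h.base.ker
  have hmap : ∀ q : MvPolynomial (Fin 4) V,
      aeval (fun j => MvPolynomial.map σ (z j)) (MvPolynomial.map σ q) =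
        MvPolynomial.map σ (aeval z q) := by
    intro q
    induction q using MvPolynomial.induction_on with
    | C a => simp
    | add p q hp hq => rw [map_add, map_add, hp, hq, map_add, map_add]
    | mul_X p i hp => rw [map_mul, map_mul, hp, map_X, aeval_X, map_mul, map_mul, aeval_X]
  have h1 : ∀ q : MvPolynomial (Fin 4) V, Dvb V φ ϖ (vB V φ (aeval z q) -
      lfb V φ c (aeval (fun j => MvPolynomial.map σ (z j)) (MvPolynomial.map σ q))) := by
    intro q
    rw [hmap]
    exact hred _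
  refine ⟨h1, ?_, ?_⟩
  · obtain ⟨m, b, hb, hgen⟩ := h.finS
    refine ⟨m, b, hb, fun y hy => ?_⟩
    obtain ⟨q, hq⟩ := hgen y hy
    refine ⟨fun i => MvPolynomial.map σ (q i), ?_⟩
    have h2 : y - ∑ i, lfb V φ c (aeval (fun j => MvPolynomial.map σ (z j))
        (MvPolynomial.map σ (q i))) * b i = ∑ i, (vB V φ (aeval z (q i)) -
          lfb V φ c (aeval (fun j => MvPolynomial.map σ (z j)) (MvPolynomial.map σ (q i)))) * b i := by
      rw [hq, ← Finset.sum_sub_distrib]
      exact Finset.sum_congr rfl fun i _ => by ring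
    rw [h2]
    exact dvb_sum V φ _ _ fun i _ => dvb_mul V φ (h1 (q i)) (hb i)
  · obtain ⟨m, b, hb, hgen⟩ := h.finS
    have hdvr : IsDiscreteValuationRing V := h.base.dvr
    let ψ : MvPolynomial (Fin 4) V →+* Sb V φ :=
      ((vB V φ).comp (aeval z : MvPolynomial (Fin 4) V →ₐ[V] _).toRingHom).codRestrict (Sb V φ)
        fun q => vB_mem V φ _
    let _ : Algebra (MvPolynomial (Fin 4) V) (Sb V φ) := ψ.toAlgebra
    have hfin : Module.Finite (MvPolynomial (Fin 4) V) (Sb V φ) := by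
      refine Module.Finite.of_surjective
        (Fintype.linearCombination (MvPolynomial (Fin 4) V) (fun i => (⟨b i, hb i⟩ : Sb V φ))) ?_
      intro y
      obtain ⟨q, hq⟩ := hgen y y.2
      refine ⟨q, Subtype.ext ?_⟩
      rw [Fintype.linearCombination_apply, hq]
      have h3 : ((∑ i, q i • (⟨b i, hb i⟩ : Sb V φ) : Sb V φ) : B) =
          ∑ i, (((q i • (⟨b i, hb i⟩ : Sb V φ)) : Sb V φ) : B) := by
        rw [AddSubmonoidClass.coe_finset_sum]
      rw [h3]
      rfl
    have h4 : IsNoetherian (MvPolynomial (Fin 4) V) (Sb V φ) :=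
      isNoetherian_of_isNoetherianRing_of_finite _ _
    exact isNoetherian_of_tower (MvPolynomial (Fin 4) V) h4

end Pool.Agent.XB
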