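import Pool.Agent.XB.Stmts

/-!
# XB, module FNH: quotients by homogeneous ideals which are finite over polynomial rings
-/

set_option autoImplicit false

noncomputable section

namespace Pool.Agent.XB

open scoped Classical
open MvPolynomial Pool.Agent.FRM Pool.Agent.XV Pool.Agent.GML

namespace FNH_

variable {F : Type} [Field F] {n r : ℕ}

theorem hc_mul_gen (a h : MvPolynomial (Fin n) F) (hh : h.IsHomogeneous 1) (d : ℕ) :
    homogeneousComponent d (a * h) =
      ∑ i ∈ Finset.range (a.totalDegree + 1),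
        if d = i + 1 then homogeneousComponent i a * h else 0 := by
  conv_lhs => rw [← sum_homogeneousComponent a, Finset.sum_mul, map_sum]
  refine Finset.sum_congr rfl fun i _ => ?_
  have h2 : (homogeneousComponent i a * h).IsHomogeneous (i + 1) :=
    (homogeneousComponent_isHomogeneous i a).mul hh
  rw [homogeneousComponent_of_mem h2]

theorem hc_mul (a h : MvPolynomial (Fin n) F) (hh : h.IsHomogeneous 1) (d : ℕ) :
    homogeneousComponent (d + 1) (a * h) = homogeneousComponent d a * h := by
  rw [hc_mul_gen a h hh]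
  by_cases hd : d ∈ Finset.range (a.totalDegree + 1)
  · rw [Finset.sum_eq_single d]
    · rw [if_pos rfl]
    · intro b _ hb
      rw [if_neg (fun h' => hb (Nat.succ_injective h').symm)]
    · intro h'; exact absurd hd h'
  · rw [Finset.sum_eq_zero]
    · rw [Finset.mem_range, not_lt] at hd
      rw [homogeneousComponent_eq_zero _ _ (by omega), zero_mul]
    · intro i hi
      rw [if_neg]
      intro h'
      have h3 : d = i := Nat.succ_injective h'
      rw [h3] at hd
      exact hd hi

theorem hc_mul0 (a h : MvPolynomial (Fin n) F) (hh : h.IsHomogeneous 1) :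
    homogeneousComponent 0 (a * h) = 0 := by
  rw [hc_mul_gen a h hh]
  refine Finset.sum_eq_zero fun i _ => ?_
  rw [if_neg (by omega)]

variable (J : Ideal (MvPolynomial (Fin n) F)) (h : Fin r → MvPolynomial (Fin n) F)
  (T : Finset (MvPolynomial (Fin n) F))

/-- the property -/
def Pg (G : MvPolynomial (Fin n) F) : Prop :=
  ∃ q : MvPolynomial (Fin n) F → MvPolynomial (Fin r) F, G - ∑ m ∈ T, aeval h (q m) * m ∈ J

variable {J h T}

theorem Pg.add {G G' : MvPolynomial (Fin n) F} (h1 : Pg J h T G) (h2 : Pg J h T G') :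
    Pg J h T (G + G') := by
  obtain ⟨q, hq⟩ := h1
  obtain ⟨q', hq'⟩ := h2
  refine ⟨fun m => q m + q' m, ?_⟩
  have e : G + G' - ∑ m ∈ T, aeval h (q m + q' m) * m =
      (G - ∑ m ∈ T, aeval h (q m) * m) + (G' - ∑ m ∈ T, aeval h (q' m) * m) := by
    simp only [map_add, add_mul, Finset.sum_add_distrib]
    ring
  rw [e]
  exact J.add_mem hq hq'

theorem Pg.of_mem {G : MvPolynomial (Fin n) F} (hG : G ∈ J) : Pg J h T G :=
  ⟨fun _ => 0, by simpa using hG⟩

theorem Pg.sum {ι : Type} (s : Finset ι) (G : ι → MvPolynomial (Fin n) F)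
    (hG : ∀ i ∈ s, Pg J h T (G i)) : Pg J h T (∑ i ∈ s, G i) := by
  induction s using Finset.induction_on with
  | empty => rw [Finset.sum_empty]; exact Pg.of_mem J.zero_mem
  | insert a s ha ih =>
    rw [Finset.sum_insert ha]
    exact (hG a (Finset.mem_insert_self a s)).add
      (ih fun i hi => hG i (Finset.mem_insert_of_mem hi))

theorem Pg.mul {G : MvPolynomial (Fin n) F} (h1 : Pg J h T G) (p : MvPolynomial (Fin r) F) :
    Pg J h T (G * aeval h p) := by
  obtain ⟨q, hq⟩ := h1
  refine ⟨fun m => q m * p, ?_⟩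
  have e : G * aeval h p - ∑ m ∈ T, aeval h (q m * p) * m =
      aeval h p * (G - ∑ m ∈ T, aeval h (q m) * m) := by
    rw [mul_sub, Finset.mul_sum]
    congr 1
    · ring
    · refine Finset.sum_congr rfl fun m _ => ?_
      rw [map_mul]; ring
  rw [e]
  exact J.mul_mem_left _ hq

theorem Pg.of_mem_T {G : MvPolynomial (Fin n) F} (hG : G ∈ T) : Pg J h T G := by
  refine ⟨fun m => if m = G then 1 else 0, ?_⟩
  have e : ∑ m ∈ T, aeval h (if m = G then (1 : MvPolynomial (Fin r) F) else 0) * m = G := by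
    rw [Finset.sum_eq_single G]
    · rw [if_pos rfl, map_one, one_mul]
    · intro b _ hb
      rw [if_neg hb, map_zero, zero_mul]
    · intro h'; exact absurd hG h'
  rw [e, sub_self]
  exact J.zero_mem

theorem mono_eq (α : Fin n →₀ ℕ) :
    (monomial α 1 : MvPolynomial (Fin n) F) = ∏ j, X j ^ α j := by
  rw [monomial_eq, C_1, one_mul, Finsupp.prod_fintype]
  intro i
  rw [pow_zero]

theorem step (M : ℕ) (hM : ∀ j, (X j : MvPolynomial (Fin n) F) ^ M ∈ Ideal.span (Set.range h) ⊔ J)
    (α : Fin n →₀ ℕ) (j : Fin n) (hj : M ≤ α j) :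
    ∃ (b : Fin r → MvPolynomial (Fin n) F) (g : MvPolynomial (Fin n) F), g ∈ J ∧
      (monomial α 1 : MvPolynomial (Fin n) F) = ∑ i, b i * h i + g := by
  obtain ⟨a, ha, g, hg, hag⟩ := Submodule.mem_sup.mp (hM j)
  obtain ⟨c, hc⟩ := (Ideal.mem_span_range_iff_exists_fun).mp ha
  refine ⟨fun i => monomial (α - Finsupp.single j M) 1 * c i,
    monomial (α - Finsupp.single j M) 1 * g, J.mul_mem_left _ hg, ?_⟩
  have h1 : (monomial α 1 : MvPolynomial (Fin n) F) =
      monomial (α - Finsupp.single j M) 1 * X j ^ M := by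
    rw [X_pow_eq_monomial, monomial_mul, one_mul]
    congr 1
    rw [tsub_add_cancel_of_le]
    rw [Finsupp.single_le_iff]
    exact hj
  rw [h1, ← hag, ← hc, mul_add, Finset.mul_sum]
  congr 1
  exact Finset.sum_congr rfl fun i _ => by ring

theorem step' (hJ : ∀ G ∈ J, ∀ m, homogeneousComponent m G ∈ J)
    (hh : ∀ i, (h i).IsHomogeneous 1) (M : ℕ)
    (hM : ∀ j, (X j : MvPolynomial (Fin n) F) ^ M ∈ Ideal.span (Set.range h) ⊔ J)
    (hT : ∀ α : Fin n →₀ ℕ, (∀ j, α j < M) → (monomial α 1 : MvPolynomial (Fin n) F) ∈ T)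
    (d : ℕ) (ih : ∀ d', d' + 1 = d → ∀ G : MvPolynomial (Fin n) F, G.IsHomogeneous d' → Pg J h T G)
    (G : MvPolynomial (Fin n) F) (hG : G.IsHomogeneous d) : Pg J h T G := by
  rw [G.as_sum]
  apply Pg.sum
  intro α hα
  have hdeg : (monomial α 1 : MvPolynomial (Fin n) F).IsHomogeneous d := by
    apply isHomogeneous_monomial
    have h1 := hG (mem_support_iff.mp hα)
    rw [← h1]
    simp [Finsupp.weight_apply, Finsupp.sum, Finsupp.degree]
  have h2 : (monomial α (coeff α G) : MvPolynomial (Fin n) F) =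
      monomial α 1 * aeval h (C (coeff α G) : MvPolynomial (Fin r) F) := by
    rw [aeval_C]
    change _ = monomial α 1 * C (coeff α G)
    rw [mul_comm, C_mul_monomial, mul_one]
  rw [h2]
  apply Pg.mul
  by_cases hA : ∀ j, α j < M
  · exact Pg.of_mem_T (hT α hA)
  · push Not at hA
    obtain ⟨j, hj⟩ := hA
    obtain ⟨b, g, hg, hbg⟩ := step (J := J) (h := h) M hM α j hj
    have h3 : (monomial α 1 : MvPolynomial (Fin n) F) =
        ∑ i, homogeneousComponent d (b i * h i) + homogeneousComponent d g := by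
      have h4 := congrArg (homogeneousComponent d) hbg
      rw [map_add, map_sum, homogeneousComponent_of_mem hdeg, if_pos rfl] at h4
      exact h4
    rw [h3]
    refine Pg.add (Pg.sum _ _ fun i _ => ?_) (Pg.of_mem (hJ g hg d))
    cases d with
    | zero => rw [hc_mul0 _ _ (hh i)]; exact Pg.of_mem J.zero_mem
    | succ d =>
      rw [hc_mul _ _ (hh i)]
      have h5 : h i = aeval h (X i : MvPolynomial (Fin r) F) := (aeval_X h i).symm
      rw [h5]
      exact (ih d rfl _ (homogeneousComponent_isHomogeneous d (b i))).mul _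

end FNH_

open FNH_ in
theorem FNH_proof : Stmt_Fnh := by
  intro F _ n r J hJ h hh hm
  choose m hm using hm
  set M : ℕ := (∑ j, m j) + 1 with hM
  have hMj : ∀ j, (X j : MvPolynomial (Fin n) F) ^ M ∈ Ideal.span (Set.range h) ⊔ J := by
    intro j
    have h1 : m j ≤ M := by
      rw [hM]
      exact (Finset.single_le_sum (fun i _ => Nat.zero_le (m i)) (Finset.mem_univ j)).trans
        (Nat.le_succ _)
    rw [← Nat.sub_add_cancel h1, pow_add]
    exact Ideal.mul_mem_left _ _ (hm j)
  let T : Finset (MvPolynomial (Fin n) F) :=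
    Finset.image (fun d : Fin n → Fin M => ∏ j, (X j : MvPolynomial (Fin n) F) ^ (d j : ℕ))
      Finset.univ
  refine ⟨T, ?_⟩
  have hT : ∀ α : Fin n →₀ ℕ, (∀ j, α j < M) → (monomial α 1 : MvPolynomial (Fin n) F) ∈ T := by
    intro α hα
    rw [mono_eq]
    exact Finset.mem_image.mpr ⟨fun j => ⟨α j, hα j⟩, Finset.mem_univ _, rfl⟩
  have hcomp : ∀ (d : ℕ) (G : MvPolynomial (Fin n) F), G.IsHomogeneous d → Pg J h T G := by
    intro d
    induction d with
    | zero =>
      intro G hG
      exact step' hJ hh M hMj hT 0 (fun d' hd' => absurd hd' (by omega)) G hG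
    | succ d ih =>
      intro G hG
      refine step' hJ hh M hMj hT (d + 1) (fun d' hd' => ?_) G hG
      have h1 : d' = d := by omega
      rw [h1]
      exact ih
  intro G
  have h1 := Pg.sum (J := J) (h := h) (T := T) (Finset.range (G.totalDegree + 1))
    (fun i => homogeneousComponent i G) (fun i _ => hcomp i _ (homogeneousComponent_isHomogeneous i G))
  rw [sum_homogeneousComponent] at h1
  exact h1

end Pool.Agent.XB
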