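import Pool.Agent.XB.LNF

/-!
# GLU: the sections `G`
-/

set_option autoImplicit false

noncomputable section

namespace Pool.Agent.XB.GLU_

open scoped Classical
open MvPolynomial Pool.Agent.FRM Pool.Agent.XV Pool.Agent.GML Pool.Agent.XB

variable {F : Type} [Field F]

theorem tws_hom (π : Equiv.Perm (Fin 5)) (c : Pt) : (tws π (xc F) c).IsHomogeneous 1 := by
  unfold tws xc
  rw [← map_intCast (C : F →+* MvPolynomial (Fin (N + 1)) F)]
  have h := (isHomogeneous_C (Fin (N + 1)) ((sgn π c : ℤ) : F)).mul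
    (isHomogeneous_X F (pt.symm (act π c)))
  simpa using h

theorem chf_hom (π : Equiv.Perm (Fin 5)) (σ : Fin 6) : (chf F π σ).IsHomogeneous 4 := by
  have h := ((tws_hom (F := F) π (tp σ 0)).mul (tws_hom π (tp σ 7))).mul (tws_hom π (tp σ 8))
  exact h.mul (tws_hom π (tp σ 9))

theorem che_hom (π : Equiv.Perm (Fin 5)) (σ : Fin 6) (l : Fin 3) :
    (che F π σ l).IsHomogeneous 1 := tws_hom _ _

theorem xc_hom (c : Pt) : (xc F c).IsHomogeneous 1 := isHomogeneous_X _ _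

theorem hc_homog (p : MvPolynomial (Fin (N + 1)) F) (n m : ℕ) (hp : p.IsHomogeneous n) :
    homogeneousComponent m p = if m = n then p else 0 :=
  homogeneousComponent_of_mem ((mem_homogeneousSubmodule n p).mpr hp)

theorem hc_mul (h a : MvPolynomial (Fin (N + 1)) F) (s : ℕ) (hh : h.IsHomogeneous s) (d : ℕ) :
    homogeneousComponent (d + s) (h * a) = h * homogeneousComponent d a := by
  conv_lhs => rw [← sum_homogeneousComponent a]
  rw [Finset.mul_sum, map_sum]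
  have h1 : ∀ e, homogeneousComponent (d + s) (h * homogeneousComponent e a) =
      if e = d then h * homogeneousComponent d a else 0 := by
    intro e
    rw [hc_homog _ (s + e) _ (hh.mul (homogeneousComponent_isHomogeneous e a))]
    by_cases he : e = d
    · subst he
      rw [if_pos (by omega), if_pos rfl]
    · rw [if_neg (by omega), if_neg he]
  rw [Finset.sum_congr rfl (fun e _ => h1 e), Finset.sum_ite_eq']
  split_ifs with h2
  · rfl
  · rw [homogeneousComponent_eq_zero, mul_zero]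
    rw [Finset.mem_range] at h2
    omega

theorem hc_mul_lt (h a : MvPolynomial (Fin (N + 1)) F) (s : ℕ) (hh : h.IsHomogeneous s) (d : ℕ)
    (hd : d < s) : homogeneousComponent d (h * a) = 0 := by
  conv_lhs => rw [← sum_homogeneousComponent a]
  rw [Finset.mul_sum, map_sum]
  apply Finset.sum_eq_zero
  intro e _
  rw [hc_homog _ (s + e) _ (hh.mul (homogeneousComponent_isHomogeneous e a)), if_neg (by omega)]

/-- Homogeneous ideals. -/
def HI (J : Ideal (MvPolynomial (Fin (N + 1)) F)) : Prop :=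
  ∀ G ∈ J, ∀ m, homogeneousComponent m G ∈ J

theorem hc_mul_mem {J : Ideal (MvPolynomial (Fin (N + 1)) F)} {h : MvPolynomial (Fin (N + 1)) F}
    {s : ℕ} (hh : h.IsHomogeneous s) (hJ : h ∈ J) (a : MvPolynomial (Fin (N + 1)) F) (m : ℕ) :
    homogeneousComponent m (h * a) ∈ J := by
  by_cases hm : m < s
  · rw [hc_mul_lt _ _ _ hh _ hm]
    exact J.zero_mem
  · obtain ⟨d, rfl⟩ := Nat.exists_eq_add_of_le (not_lt.mp hm)
    have h1 : s + d = d + s := add_comm _ _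
    rw [h1, hc_mul _ _ _ hh]
    exact J.mul_mem_right _ hJ

theorem hi_span {s : Set (MvPolynomial (Fin (N + 1)) F)} (h : ∀ x ∈ s, ∃ d, x.IsHomogeneous d) :
    HI (Ideal.span s) := by
  have key : ∀ G ∈ Ideal.span s, ∀ (a : MvPolynomial (Fin (N + 1)) F) (m : ℕ),
      homogeneousComponent m (a * G) ∈ Ideal.span s := by
    intro G hG
    induction hG using Submodule.span_induction with
    | mem x hx =>
      intro a m
      obtain ⟨d, hd⟩ := h x hx
      rw [mul_comm]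
      exact hc_mul_mem hd (Ideal.subset_span hx) a m
    | zero =>
      intro a m
      simp
    | add x y _ _ h1 h2 =>
      intro a m
      rw [mul_add, map_add]
      exact Ideal.add_mem _ (h1 a m) (h2 a m)
    | smul b x _ h1 =>
      intro a m
      rw [smul_eq_mul, ← mul_assoc]
      exact h1 _ m
  intro G hG m
  have := key G hG 1 m
  rwa [one_mul] at this

theorem hi_mul {J J' : Ideal (MvPolynomial (Fin (N + 1)) F)} (hJ : HI J) (hJ' : HI J') :
    HI (J * J') := by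
  intro G hG
  refine Submodule.mul_induction_on hG ?_ ?_
  · intro f hf g hg m
    rw [← sum_homogeneousComponent f, Finset.sum_mul, map_sum]
    refine Ideal.sum_mem _ fun i _ => ?_
    by_cases hm : m < i
    · rw [hc_mul_lt _ _ _ (homogeneousComponent_isHomogeneous i f) _ hm]
      exact Ideal.zero_mem _
    · obtain ⟨d, rfl⟩ := Nat.exists_eq_add_of_le (not_lt.mp hm)
      have h1 : i + d = d + i := add_comm _ _
      rw [h1, hc_mul _ _ _ (homogeneousComponent_isHomogeneous i f)]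
      exact Ideal.mul_mem_mul (hJ f hf i) (hJ' g hg d)
  · intro x y hx hy m
    rw [map_add]
    exact Ideal.add_mem _ (hx m) (hy m)

theorem hi_pow {J : Ideal (MvPolynomial (Fin (N + 1)) F)} (hJ : HI J) (a : ℕ) : HI (J ^ a) := by
  induction a with
  | zero =>
    intro G _ m
    rw [pow_zero, Ideal.one_eq_top]
    trivial
  | succ a ih =>
    rw [pow_succ]
    exact hi_mul ih hJ

theorem hi_Jg (g : Option (Fin 10)) : HI (Jg F g) := by
  refine hi_span ?_
  rintro x ⟨c, _, rfl⟩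
  exact ⟨1, xc_hom c⟩

theorem ex_pe : ∀ k : Fin 10, ∃ π : Equiv.Perm (Fin 5), pe π 0 = k := by decide +kernel

theorem ex_ray (g : Option (Fin 10)) : ∃ π σ l, RayOf g π σ l := by
  cases g with
  | none => exact ⟨1, 0, 2, Or.inl ⟨rfl, rfl, rfl⟩⟩
  | some k =>
    obtain ⟨π, hπ⟩ := ex_pe k
    exact ⟨π, 0, 0, Or.inr ⟨k, rfl, Or.inl ⟨rfl, Or.inl rfl, hπ⟩⟩⟩

theorem xc_notin (c : Pt) : xc F c ∉ I F := by
  exact LNF_.xc_notMem F c

theorem fin_SS (g : Option (Fin 10)) :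
    {s : MvPolynomial (Fin (N + 1)) F × MvPolynomial (Fin (N + 1)) F |
      ∃ π σ l, RayOf g π σ l ∧ s = (chf F π σ, che F π σ l)}.Finite := by
  refine (Set.finite_range fun p : Equiv.Perm (Fin 5) × Fin 6 × Fin 3 =>
    (chf F p.1 p.2.1, che F p.1 p.2.1 p.2.2)).subset ?_
  rintro _ ⟨π, σ, l, _, rfl⟩
  exact ⟨(π, σ, l), rfl⟩

/-- The set of the charts. -/
def SS (F : Type) [Field F] (g : Option (Fin 10)) :
    Finset (MvPolynomial (Fin (N + 1)) F × MvPolynomial (Fin (N + 1)) F) :=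
  (fin_SS (F := F) g).toFinset

theorem mem_SS {g : Option (Fin 10)}
    {s : MvPolynomial (Fin (N + 1)) F × MvPolynomial (Fin (N + 1)) F} :
    s ∈ SS F g ↔ ∃ π σ l, RayOf g π σ l ∧ s = (chf F π σ, che F π σ l) := by
  unfold SS
  rw [Set.Finite.mem_toFinset]
  rfl

theorem hom_mem {J : Ideal (MvPolynomial (Fin (N + 1)) F)} (hX : ∀ i, X i ∈ J)
    {h : MvPolynomial (Fin (N + 1)) F} (hh : h.IsHomogeneous 1) : h ∈ J := by
  have h1 : h ∈ Ideal.span ((X : Fin (N + 1) → MvPolynomial (Fin (N + 1)) F) '' Set.univ) := by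
    rw [mem_ideal_span_X_image]
    intro m hm
    have h2 := hh (mem_support_iff.mp hm)
    by_contra h3
    push Not at h3
    have h4 : m = 0 := by
      ext i
      exact h3 i (Set.mem_univ i)
    rw [h4] at h2
    simp at h2
  refine (Ideal.span_le.mpr ?_) h1
  rintro _ ⟨i, _, rfl⟩
  exact hX i

/-- The covering with powers. -/
theorem cover [IsAlgClosed F] (hCVG : Stmt_Cvg) (g : Option (Fin 10))
    (n : MvPolynomial (Fin (N + 1)) F × MvPolynomial (Fin (N + 1)) F → ℕ)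
    {h : MvPolynomial (Fin (N + 1)) F} (hh : h.IsHomogeneous 1) : ∃ M : ℕ, ∀ M' ≥ M,
    ∃ b : MvPolynomial (Fin (N + 1)) F × MvPolynomial (Fin (N + 1)) F →
      MvPolynomial (Fin (N + 1)) F, h ^ M' - ∑ s ∈ SS F g, b s * s.1 ^ n s ∈ JI F g := by
  set L : Ideal (MvPolynomial (Fin (N + 1)) F) :=
    Ideal.span ((fun s : MvPolynomial (Fin (N + 1)) F × MvPolynomial (Fin (N + 1)) F =>
      s.1 ^ n s) '' (SS F g : Set _)) ⊔ JI F g with hL
  have h1 : ∀ i, X i ∈ L.radical := by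
    intro i
    obtain ⟨k, hk⟩ := hCVG F g i
    refine Ideal.mem_radical_of_pow_mem (m := k) ?_
    have h2 : Ideal.span {f | ∃ π σ l, RayOf g π σ l ∧ f = chf F π σ} ⊔ JI F g ≤ L.radical := by
      refine sup_le (Ideal.span_le.mpr ?_) (le_trans le_sup_right Ideal.le_radical)
      rintro f ⟨π, σ, l, hr, rfl⟩
      refine ⟨n (chf F π σ, che F π σ l), ?_⟩
      refine Ideal.mem_sup_left (Ideal.subset_span ?_)
      exact ⟨(chf F π σ, che F π σ l), mem_SS.mpr ⟨π, σ, l, hr, rfl⟩, rfl⟩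
    exact h2 hk
  obtain ⟨M, hM⟩ := hom_mem h1 hh
  refine ⟨M, fun M' hM' => ?_⟩
  have h2 : h ^ M' ∈ L := Ideal.pow_mem_of_pow_mem _ hM hM'
  obtain ⟨y, hy, z, hz, hyz⟩ := Submodule.mem_sup.mp h2
  obtain ⟨b, hb⟩ := (Submodule.mem_span_image_finset_iff_exists_fun _).mp hy
  refine ⟨fun s => if hs : s ∈ SS F g then b ⟨s, hs⟩ else 0, ?_⟩
  have h3 : ∑ s ∈ SS F g, (if hs : s ∈ SS F g then b ⟨s, hs⟩ else 0) * s.1 ^ n s = y := by
    rw [← hb, ← Finset.sum_coe_sort]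
    refine Finset.sum_congr rfl fun s _ => ?_
    rw [dif_pos s.2, smul_eq_mul]
  have h4 : h ^ M' - y = z := by rw [← hyz]; ring
  rw [h3, h4]
  exact hz

theorem loc_mem {g : Option (Fin 10)} {f e : MvPolynomial (Fin (N + 1)) F}
    (h : ∀ c, 0 < ordG g c → ∃ (n : ℕ) (b : MvPolynomial (Fin (N + 1)) F),
      f ^ n * xc F c - b * e ∈ I F) :
    ∀ q ∈ Jg F g, ∃ (m : ℕ) (b : MvPolynomial (Fin (N + 1)) F), f ^ m * q - b * e ∈ I F := by
  intro q hq
  unfold Jg at hq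
  induction hq using Submodule.span_induction with
  | mem x hx =>
    obtain ⟨c, hc, rfl⟩ := hx
    exact h c hc
  | zero =>
    refine ⟨0, 0, ?_⟩
    simp
  | add x y _ _ h1 h2 =>
    obtain ⟨m1, b1, h1⟩ := h1
    obtain ⟨m2, b2, h2⟩ := h2
    refine ⟨m1 + m2, f ^ m2 * b1 + f ^ m1 * b2, ?_⟩
    have h3 := Ideal.add_mem _ ((I F).mul_mem_left (f ^ m2) h1) ((I F).mul_mem_left (f ^ m1) h2)
    refine (congrArg (· ∈ I F) ?_).mp h3
    ring
  | smul a x _ h1 =>
    obtain ⟨m1, b1, h1⟩ := h1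
    refine ⟨m1, a * b1, ?_⟩
    have h3 := (I F).mul_mem_left a h1
    refine (congrArg (· ∈ I F) ?_).mp h3
    rw [smul_eq_mul]
    ring

theorem sections [IsAlgClosed F] (hCVG : Stmt_Cvg) (hPRI : XV.Stmt_Pri) (g : Option (Fin 10))
    {h : MvPolynomial (Fin (N + 1)) F} (hh : h.IsHomogeneous 1)
    (n : MvPolynomial (Fin (N + 1)) F × MvPolynomial (Fin (N + 1)) F → ℕ)
    (u : MvPolynomial (Fin (N + 1)) F × MvPolynomial (Fin (N + 1)) F →
      MvPolynomial (Fin (N + 1)) F)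
    (he : ∀ s ∈ SS F g, s.2 ∈ Jg F g)
    (hu : ∀ s ∈ SS F g,
      s.1 ^ n s * xc F (cG g) - u s * s.2 ^ aG g * xc F cO ^ 2 ∈ I F) :
    ∃ M₀ : ℕ, ∀ M ≥ M₀, 0 < M → ∃ G ∈ Jg F g ^ aG g, G.IsHomogeneous (M - 1) ∧
      ∃ q ∈ Jg F g, xc F cO ^ 2 * G - xc F (cG g) * (h ^ M - q) ∈ I F := by
  obtain ⟨M₀, hM₀⟩ := cover hCVG g n hh
  refine ⟨M₀, fun M hM hM1 => ?_⟩
  obtain ⟨b, hb⟩ := hM₀ M hM
  obtain ⟨y, hy, z, hz, hyz⟩ := Submodule.mem_sup.mp hb
  set G' := ∑ s ∈ SS F g, b s * (u s * s.2 ^ aG g) with hG'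
  have h1 : xc F cO ^ 2 * G' - xc F (cG g) * (h ^ M - y) ∈ I F := by
    have h2 : ∑ s ∈ SS F g,
        b s * (s.1 ^ n s * xc F (cG g) - u s * s.2 ^ aG g * xc F cO ^ 2) ∈ I F :=
      Ideal.sum_mem _ fun s hs => (I F).mul_mem_left _ (hu s hs)
    have h3 := (I F).neg_mem (Ideal.add_mem _ h2 ((I F).mul_mem_left (xc F (cG g)) hz))
    refine (congrArg (· ∈ I F) ?_).mp h3
    have h4 : ∑ s ∈ SS F g,
        b s * (s.1 ^ n s * xc F (cG g) - u s * s.2 ^ aG g * xc F cO ^ 2) =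
        (∑ s ∈ SS F g, b s * s.1 ^ n s) * xc F (cG g) - xc F cO ^ 2 * G' := by
      rw [hG', Finset.sum_mul, Finset.mul_sum, ← Finset.sum_sub_distrib]
      exact Finset.sum_congr rfl fun s _ => by ring
    rw [h4]
    have h5 : h ^ M = ∑ s ∈ SS F g, b s * s.1 ^ n s + y + z := by
      rw [add_assoc, hyz]
      ring
    rw [h5]
    ring
  have h2 := (hPRI F).2 _ h1 (M - 1 + 2)
  rw [map_sub, hc_mul _ _ 2 ((xc_hom cO).pow 2)] at h2
  have h3 : M - 1 + 2 = M + 1 := by omega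
  rw [h3, hc_mul _ _ 1 (xc_hom (cG g)), map_sub] at h2
  have h4 : homogeneousComponent M (h ^ M) = h ^ M := by
    rw [hc_homog _ M M, if_pos rfl]
    simpa using hh.pow M
  rw [h4] at h2
  refine ⟨homogeneousComponent (M - 1) G', ?_, homogeneousComponent_isHomogeneous _ _,
    homogeneousComponent M y, hi_Jg g y hy M, h2⟩
  refine hi_pow (hi_Jg g) _ _ ?_ _
  refine Ideal.sum_mem _ fun s hs => ?_
  exact Ideal.mul_mem_left _ _ (Ideal.mul_mem_left _ _ (Ideal.pow_mem_pow (he s hs) _))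

end Pool.Agent.XB.GLU_

namespace Pool.Agent.XB

open scoped Classical
open MvPolynomial Pool.Agent.FRM Pool.Agent.XV Pool.Agent.GML GLU_

theorem GLU_proof (hCVG : Stmt_Cvg) (hLCG : Stmt_Lcg) (hPRI : XV.Stmt_Pri) : Stmt_Glu := by
  intro F _ _ g h hh
  haveI := (hPRI F).1
  have hL : ∀ s ∈ SS F g, ∃ π σ l, RayOf g π σ l ∧ s = (chf F π σ, che F π σ l) :=
    fun s hs => mem_SS.mp hs
  have hD : ∀ s ∈ SS F g, ∃ (n : ℕ) (u v : MvPolynomial (Fin (N + 1)) F),
      u * v - s.1 ^ n ∈ I F ∧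
      s.1 ^ n * xc F (cG g) - u * s.2 ^ aG g * xc F cO ^ 2 ∈ I F := by
    intro s hs
    obtain ⟨π, σ, l, hr, rfl⟩ := hL s hs
    exact (hLCG F g π σ l hr).2.2.2.1
  have hlc : ∀ s ∈ SS F g, ∀ c, 0 < ordG g c →
      ∃ (n : ℕ) (b : MvPolynomial (Fin (N + 1)) F), s.1 ^ n * xc F c - b * s.2 ∈ I F := by
    intro s hs
    obtain ⟨π, σ, l, hr, rfl⟩ := hL s hs
    exact (hLCG F g π σ l hr).2.2.1
  have he : ∀ s ∈ SS F g, s.2 ∈ Jg F g := by
    intro s hs
    obtain ⟨π, σ, l, hr, rfl⟩ := hL s hs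
    exact (hLCG F g π σ l hr).1
  let n : MvPolynomial (Fin (N + 1)) F × MvPolynomial (Fin (N + 1)) F → ℕ :=
    fun s => if hs : s ∈ SS F g then (hD s hs).choose else 0
  let u : MvPolynomial (Fin (N + 1)) F × MvPolynomial (Fin (N + 1)) F →
      MvPolynomial (Fin (N + 1)) F :=
    fun s => if hs : s ∈ SS F g then (hD s hs).choose_spec.choose else 0
  have hnu : ∀ s ∈ SS F g, (∃ v, u s * v - s.1 ^ n s ∈ I F) ∧
      s.1 ^ n s * xc F (cG g) - u s * s.2 ^ aG g * xc F cO ^ 2 ∈ I F := by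
    intro s hs
    obtain ⟨v, hv⟩ := (hD s hs).choose_spec.choose_spec
    have h1 : n s = (hD s hs).choose := dif_pos hs
    have h2 : u s = (hD s hs).choose_spec.choose := dif_pos hs
    rw [h1, h2]
    exact ⟨⟨v, hv.1⟩, hv.2⟩
  have hsec := fun i => sections hCVG hPRI g (hh i) n u he fun s hs => (hnu s hs).2
  choose M₀ hM₀ using hsec
  obtain ⟨M, hM, hM1⟩ : ∃ M, (∀ i, M₀ i ≤ M) ∧ 0 < M :=
    ⟨M₀ 0 + M₀ 1 + M₀ 2 + 1, by intro i; fin_cases i <;> simp <;> omega, by omega⟩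
  choose G hG1 hG2 q hq hG3 using fun i => hM₀ i M (hM i) hM1
  have hne : (SS F g).Nonempty := by
    obtain ⟨π, σ, l, hr⟩ := ex_ray g
    exact ⟨_, mem_SS.mpr ⟨π, σ, l, hr, rfl⟩⟩
  refine ⟨M, G, SS F g, ?_, hL⟩
  refine ⟨hne, hM1, ?_, he, ?_, hlc, hG1, hG2, ?_, ?_, ?_, ?_⟩
  · intro s hs
    obtain ⟨π, σ, l, hr, rfl⟩ := hL s hs
    exact ⟨4, chf_hom π σ⟩
  · intro s hs
    obtain ⟨π, σ, l, hr, rfl⟩ := hL s hs
    exact che_hom π σ l
  · intro s hs
    obtain ⟨⟨v, hv⟩, hu⟩ := hnu s hs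
    have h1 : ∀ i, ∃ (m : ℕ) (b : MvPolynomial (Fin (N + 1)) F),
        s.1 ^ m * q i - b * s.2 ∈ I F := fun i => loc_mem (hlc s hs) (q i) (hq i)
    choose m b hb using h1
    obtain ⟨k, hk⟩ : ∃ k, ∀ i, m i ≤ k :=
      ⟨m 0 + m 1 + m 2, by intro i; fin_cases i <;> simp <;> omega⟩
    refine ⟨s.1 ^ k * u s, v, k + n s, ?_, ?_⟩
    · have h2 := (I F).mul_mem_left (s.1 ^ k) hv
      refine (congrArg (· ∈ I F) ?_).mp h2
      ring
    · intro i
      refine ⟨- (u s * s.1 ^ (k - m i) * b i), ?_⟩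
      have h2 : xc F cO ^ 2 * (s.1 ^ n s * G i - u s * s.2 ^ aG g * (h i ^ M - q i)) ∈ I F := by
        have h3 := Ideal.add_mem _ ((I F).mul_mem_left (s.1 ^ n s) (hG3 i))
          ((I F).mul_mem_left (h i ^ M - q i) hu)
        refine (congrArg (· ∈ I F) ?_).mp h3
        ring
      have h3 : s.1 ^ n s * G i - u s * s.2 ^ aG g * (h i ^ M - q i) ∈ I F := by
        rcases (hPRI F).1.mem_or_mem h2 with h4 | h4
        · exact absurd ((hPRI F).1.mem_of_pow_mem _ h4) (xc_notin cO)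
        · exact h4
      have h4 := Ideal.sub_mem _ ((I F).mul_mem_left (s.1 ^ k) h3)
        ((I F).mul_mem_left (u s * s.2 ^ aG g * s.1 ^ (k - m i)) (hb i))
      refine (congrArg (· ∈ I F) ?_).mp h4
      have h5 : s.1 ^ k = s.1 ^ (k - m i) * s.1 ^ m i := by
        rw [← pow_add]
        congr 1
        have := hk i
        omega
      rw [pow_add, h5]
      ring
  · intro i
    obtain ⟨M', hM'⟩ := cover hCVG g (fun _ => 1) (hh i)
    obtain ⟨b, hb⟩ := hM' M' le_rfl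
    refine ⟨M', b, ?_⟩
    simpa only [pow_one] using hb
  · intro s hs
    obtain ⟨π, σ, l, hr, rfl⟩ := hL s hs
    exact (hLCG F g π σ l hr).2.2.2.2.1
  · intro s hs s' hs'
    obtain ⟨π, σ, l, hr, rfl⟩ := hL s hs
    obtain ⟨π', σ', l', hr', rfl⟩ := hL s' hs'
    exact (hLCG F g π σ l hr).2.2.2.2.2 π' σ' l' hr'

end Pool.Agent.XB
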