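import Pool.Agent.XB.StmtsB

/-!
# GRV: the grading over the valuation ring
-/

set_option autoImplicit false

noncomputable section

namespace Pool.Agent.XB

open scoped Classical
open MvPolynomial

namespace GRV_

variable {K : Type} [Field K] (V : ValuationSubring K) {B : Type} [CommRing B] [Algebra K B]
  (ℬ : ℕ → Submodule K B)

/-- The comparison map of direct sums. -/
def cmpRes : (DirectSum ℕ fun n => ℬ n) →+
    DirectSum ℕ fun n => ((ℬ n).restrictScalars V : Submodule V B) :=
  DirectSum.map fun n => (AddMonoidHom.mk' (fun x => ⟨(x : B), x.2⟩) fun _ _ => rfl :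
    ℬ n →+ ((ℬ n).restrictScalars V : Submodule V B))

end GRV_

open GRV_

theorem GRV_proof : Stmt_Grv := by
  intro K _ V B _ _ ℬ _
  have h1 : ∀ b : B, (DirectSum.coeAddMonoidHom fun n => ((ℬ n).restrictScalars V : Submodule V B))
      (cmpRes V ℬ (DirectSum.decompose ℬ b)) = b := by
    intro b
    refine DirectSum.Decomposition.inductionOn ℬ ?_ ?_ ?_ b
    · rw [DirectSum.decompose_zero, map_zero, map_zero]
    · intro i m
      rw [DirectSum.decompose_coe, cmpRes, DirectSum.map_of, DirectSum.coeAddMonoidHom_of]
      rfl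
    · intro m m' h h'
      rw [DirectSum.decompose_add, map_add, map_add, h, h']
  have h2 : ∀ x, cmpRes V ℬ (DirectSum.decompose ℬ ((DirectSum.coeAddMonoidHom fun n =>
      ((ℬ n).restrictScalars V : Submodule V B)) x)) = x := by
    intro x
    induction x using DirectSum.induction_on with
    | zero => rw [map_zero, DirectSum.decompose_zero, map_zero]
    | of i x =>
      rw [DirectSum.coeAddMonoidHom_of]
      have h := DirectSum.decompose_coe ℬ (⟨(x : B), x.2⟩ : ℬ i)
      have h2 : DirectSum.decompose ℬ (x : B) =
        DirectSum.of (fun n => ℬ n) i ⟨(x : B), x.2⟩ := h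
      rw [h2, cmpRes, DirectSum.map_of]
      rfl
    | add x y h h' => rw [map_add, DirectSum.decompose_add, map_add, h, h']
  refine ⟨{ one_mem := ?_, mul_mem := ?_, decompose' := (fun b => cmpRes V ℬ (DirectSum.decompose ℬ b)),
                    left_inv := h1, right_inv := h2 }⟩
  · exact SetLike.GradedOne.one_mem (A := ℬ)
  · intro i j a b ha hb
    exact SetLike.GradedMul.mul_mem (A := ℬ) (i := i) (j := j) ha hb

end Pool.Agent.XB
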