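import Pool.Agent.XB.StmtsB
import Pool.Agent.FRM.FINA
import Pool.Agent.FRM.BDI

/-! GSS: the Gauss lemma in the integral model. -/

set_option autoImplicit false

noncomputable section

namespace Pool.Agent.XB

open scoped Classical
open MvPolynomial Pool.Agent.FRM Pool.Agent.XV Pool.Agent.GML

namespace GSS_

/-! ### The minimal polynomial of a multiple -/

section gauss

variable {A B : Type} [CommRing A] [IsDomain A] [IsIntegrallyClosed A] [CommRing B] [IsDomain B]
  [Algebra A B] [FaithfulSMul A B]

theorem minpoly_smul (a : A) (ha : a ≠ 0) (s : B) (hs : IsIntegral A s) :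
    minpoly A (algebraMap A B a * s) = (minpoly A s).scaleRoots a := by
  have has : IsIntegral A (algebraMap A B a * s) := (isIntegral_algebraMap).mul hs
  have hmon : ((minpoly A s).scaleRoots a).Monic := (Polynomial.monic_scaleRoots_iff a).2
    (minpoly.monic hs)
  have hroot : Polynomial.aeval (algebraMap A B a * s) ((minpoly A s).scaleRoots a) = 0 :=
    Polynomial.scaleRoots_aeval_eq_zero (minpoly.aeval A s)
  have hdvd := minpoly.isIntegrallyClosed_dvd has hroot
  symm
  refine Polynomial.eq_of_monic_of_dvd_of_natDegree_le (minpoly.monic has) hmon hdvd ?_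
  rw [Polynomial.natDegree_scaleRoots]
  set p := (minpoly A (algebraMap A B a * s)).comp (Polynomial.C a * Polynomial.X) with hp
  have hp0 : Polynomial.aeval s p = 0 := by
    rw [hp, Polynomial.aeval_comp, map_mul, Polynomial.aeval_C, Polynomial.aeval_X]
    exact minpoly.aeval A _
  have hpd : p.natDegree = (minpoly A (algebraMap A B a * s)).natDegree := by
    rw [hp, Polynomial.natDegree_comp, Polynomial.natDegree_C_mul_X a ha, mul_one]
  have hpne : p ≠ 0 := by
    intro h0
    have h1 : p.leadingCoeff = 0 := by rw [h0, Polynomial.leadingCoeff_zero]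
    rw [hp, Polynomial.leadingCoeff_comp (by rw [Polynomial.natDegree_C_mul_X a ha]; exact one_ne_zero),
      (minpoly.monic has).leadingCoeff, one_mul, Polynomial.leadingCoeff_C_mul_X] at h1
    exact pow_ne_zero _ ha h1
  rw [← hpd]
  exact Polynomial.natDegree_le_of_dvd (minpoly.isIntegrallyClosed_dvd hs hp0) hpne

/-- the Gauss lemma -/
theorem gauss (π r : A) (hπ : Prime π) (hr : ¬ π ∣ r) (y : B)
    (h1 : IsIntegral A (algebraMap A B π * y)) (h2 : IsIntegral A (algebraMap A B r * y)) :
    IsIntegral A y := by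
  have hr0 : r ≠ 0 := fun h => hr (h ▸ dvd_zero π)
  have e1 := minpoly_smul r hr0 _ h1
  have e2 := minpoly_smul π hπ.ne_zero _ h2
  have e3 : algebraMap A B r * (algebraMap A B π * y) = algebraMap A B π * (algebraMap A B r * y) := by
    ring
  rw [e3, e2] at e1
  set P := minpoly A (algebraMap A B π * y) with hP
  set Q := minpoly A (algebraMap A B r * y) with hQ
  have hPm : P.Monic := minpoly.monic h1
  have hdeg : Q.natDegree = P.natDegree := by
    have h := congrArg Polynomial.natDegree e1
    rwa [Polynomial.natDegree_scaleRoots, Polynomial.natDegree_scaleRoots] at h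
  have hc : ∀ i, ∃ c, P.coeff i = π ^ (P.natDegree - i) * c := by
    intro i
    have h := congrArg (fun F : Polynomial A => F.coeff i) e1
    simp only [Polynomial.coeff_scaleRoots] at h
    rw [hdeg] at h
    have h3 : π ^ (P.natDegree - i) ∣ P.coeff i * r ^ (P.natDegree - i) := ⟨Q.coeff i, by
      rw [← h]; ring⟩
    exact hπ.pow_dvd_of_dvd_mul_right _ (fun h4 => hr (hπ.dvd_of_dvd_pow h4)) h3
  choose c hcc using hc
  -- the polynomial of `y`
  set n := P.natDegree with hn
  refine ⟨Polynomial.X ^ n + ∑ i ∈ Finset.range n, Polynomial.C (c i) * Polynomial.X ^ i, ?_, ?_⟩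
  · apply Polynomial.monic_X_pow_add
    refine Polynomial.mem_degreeLT.1 (Submodule.sum_mem _ fun i hi => Polynomial.mem_degreeLT.2 ?_)
    refine (Polynomial.degree_C_mul_X_pow_le _ _).trans_lt ?_
    exact_mod_cast Finset.mem_range.1 hi
  · have hroot : Polynomial.aeval (algebraMap A B π * y) P = 0 := minpoly.aeval A _
    have hπ0 : algebraMap A B π ≠ 0 := by
      rw [Ne, FaithfulSMul.algebraMap_eq_zero_iff]
      exact hπ.ne_zero
    rw [Polynomial.aeval_eq_sum_range, ← hn, Finset.sum_range_succ, hPm.coeff_natDegree,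
      one_smul] at hroot
    have h5 : ∀ i ∈ Finset.range n, P.coeff i • (algebraMap A B π * y) ^ i =
        algebraMap A B π ^ n * (algebraMap A B (c i) * y ^ i) := by
      intro i hi
      rw [hcc i, Algebra.smul_def, map_mul, map_pow, mul_pow]
      have h6 : algebraMap A B π ^ n = algebraMap A B π ^ (n - i) * algebraMap A B π ^ i := by
        rw [← pow_add, Nat.sub_add_cancel (Finset.mem_range.1 hi).le]
      rw [h6]
      ring
    rw [Finset.sum_congr rfl h5, ← Finset.mul_sum, mul_pow, ← mul_add] at hroot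
    have h7 := (mul_eq_zero.1 hroot).resolve_left (pow_ne_zero _ hπ0)
    rw [Polynomial.eval₂_add, Polynomial.eval₂_pow, Polynomial.eval₂_X, Polynomial.eval₂_finsetSum,
      add_comm, ← h7]
    congr 1
    refine Finset.sum_congr rfl fun i _ => ?_
    rw [Polynomial.eval₂_mul, Polynomial.eval₂_pow, Polynomial.eval₂_X, Polynomial.eval₂_C]

end gauss

/-! ### Integrality over `V[z]` and over `V[x]` -/

section trans

variable {R S B : Type} [CommRing R] [CommRing S] [CommRing B]

theorem up (g : R →+* S) (f : S →+* B) {b : B} (h : (f.comp g).IsIntegralElem b) :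
    f.IsIntegralElem b := by
  obtain ⟨p, hp, hpb⟩ := h
  refine ⟨p.map g, hp.map _, ?_⟩
  rw [Polynomial.eval₂_map]
  exact hpb

theorem not_unit (α : R →+* B) (hα : Function.Injective α) (π : R) (hπ : Prime π) (b : B)
    (hb : α.IsIntegralElem b) (h1 : α π * b = 1) : False := by
  obtain ⟨p, hp, hpb⟩ := hb
  have h2 : Polynomial.eval₂ α (α π * b) (p.scaleRoots π) = 0 := by
    exact Polynomial.scaleRoots_eval₂_eq_zero α hpb
  rw [h1, ← map_one α, Polynomial.eval₂_at_apply] at h2
  have h3 : (p.scaleRoots π).eval 1 = 0 := hα (by rw [h2, map_zero])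
  rw [Polynomial.eval_eq_sum_range, Polynomial.natDegree_scaleRoots, Finset.sum_range_succ] at h3
  simp only [Polynomial.coeff_scaleRoots, one_pow, mul_one] at h3
  rw [Nat.sub_self, pow_zero, mul_one, hp.coeff_natDegree] at h3
  apply hπ.not_isUnit
  rw [isUnit_iff_dvd_one]
  have h4 : (1 : R) = -∑ i ∈ Finset.range p.natDegree, p.coeff i * π ^ (p.natDegree - i) := by
    rw [← add_eq_zero_iff_eq_neg, add_comm]
    exact h3
  rw [h4, dvd_neg]
  refine Finset.dvd_sum fun i hi => ?_
  exact (dvd_pow_self π (Nat.sub_pos_of_lt (Finset.mem_range.1 hi)).ne').mul_left _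

theorem down (α : R →+* B) (f : S →+* B) (h : ∀ s, α.IsIntegralElem (f s)) {b : B}
    (hb : f.IsIntegralElem b) : α.IsIntegralElem b := by
  let : Algebra R B := α.toAlgebra
  have h1 : ∀ s, f s ∈ integralClosure R B := fun s => h s
  obtain ⟨p, hp, hpb⟩ := hb
  have h2 : IsIntegral (integralClosure R B) b := by
    let f' : S →+* integralClosure R B := f.codRestrict (integralClosure R B) h1
    refine ⟨p.map f', hp.map _, ?_⟩
    rw [Polynomial.eval₂_map]
    exact hpb
  exact isIntegral_trans (R := R) (A := integralClosure R B) b h2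

end trans

section main

variable {K : Type} [Field K] (V : ValuationSubring K)
  (P : Ideal (MvPolynomial (Fin (N + 1)) K)) (z : Fin 4 → MvPolynomial (Fin (N + 1)) V)
  {B : Type} [CommRing B] [Algebra K B] (φ : MvPolynomial (Fin (N + 1)) K →ₐ[K] B)

/-- the homomorphism `V[z] → B` -/
def al : MvPolynomial (Fin 4) V →+* B := (vB V φ).comp (aeval z).toRingHom

theorem al_apply (r : MvPolynomial (Fin 4) V) : al V z φ r = vB V φ (aeval z r) := rfl

/-- `K[x]/P → B` -/
def io (hker : RingHom.ker φ = P) : (MvPolynomial (Fin (N + 1)) K ⧸ P) →+* B :=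
  Ideal.Quotient.lift P (φ : MvPolynomial (Fin (N + 1)) K →+* B) (fun a ha => by
    rw [← hker] at ha
    exact ha)

theorem io_mk (hker : RingHom.ker φ = P) (a : MvPolynomial (Fin (N + 1)) K) :
    io P φ hker (Ideal.Quotient.mk P a) = φ a := rfl

theorem io_inj (hker : RingHom.ker φ = P) : Function.Injective (io P φ hker) := by
  rw [injective_iff_map_eq_zero]
  intro a ha
  obtain ⟨a, rfl⟩ := Ideal.Quotient.mk_surjective a
  rw [io_mk] at ha
  rw [Ideal.Quotient.eq_zero_iff_mem, ← hker]
  exact ha

theorem al_eq (hker : RingHom.ker φ = P) : al V z φ = (io P φ hker).comp (zmap V P z) := by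
  apply MvPolynomial.ringHom_ext
  · intro a
    simp [al, zmap, vmap, vB, io_mk]
  · intro i
    simp [al, zmap, vmap, vB, io_mk]

theorem X_int (hker : RingHom.ker φ = P)
    (hz : ∀ i, (zmap V P z).IsIntegralElem (Ideal.Quotient.mk P (X i))) (i : Fin (N + 1)) :
    (al V z φ).IsIntegralElem (φ (X i)) := by
  obtain ⟨p, hp, hpb⟩ := hz i
  refine ⟨p, hp, ?_⟩
  rw [al_eq V P z φ hker, ← io_mk P φ hker, ← Polynomial.hom_eval₂, hpb, map_zero]

theorem al_C (v : V) : al V z φ (C v) = algebraMap K B v := by
  have h2 : φ (C (v : K)) = algebraMap K B v := φ.commutes _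
  rw [← h2]
  simp [al, vB]

theorem vB_int (hker : RingHom.ker φ = P)
    (hz : ∀ i, (zmap V P z).IsIntegralElem (Ideal.Quotient.mk P (X i)))
    (q : MvPolynomial (Fin (N + 1)) V) : (al V z φ).IsIntegralElem (vB V φ q) := by
  induction q using MvPolynomial.induction_on with
  | C a =>
    have h1 : vB V φ (C a) = al V z φ (C a) := by simp [al]
    rw [h1]
    exact RingHom.isIntegralElem_map _
  | add F G hF hG => rw [map_add]; exact hF.add _ hG
  | mul_X F i hF =>
    rw [map_mul]
    refine hF.mul _ ?_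
    have h1 : vB V φ (X i) = φ (X i) := by simp [vB]
    rw [h1]
    exact X_int V P z φ hker hz i

theorem mem_Sb_iff (hker : RingHom.ker φ = P)
    (hz : ∀ i, (zmap V P z).IsIntegralElem (Ideal.Quotient.mk P (X i))) (b : B) :
    b ∈ Sb V φ ↔ (al V z φ).IsIntegralElem b := by
  constructor
  · intro h
    have h1 : (vB V φ).IsIntegralElem b := h
    exact down (al V z φ) (vB V φ) (vB_int V P z φ hker hz) h1
  · intro h
    show (vB V φ).IsIntegralElem b
    unfold al at h
    exact up _ (vB V φ) h

/-- `K[z] → K[x]/P` is injective -/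
theorem kinj (hdim : ringKrullDim (MvPolynomial (Fin (N + 1)) K ⧸ P) = 4)
    (hz : ∀ i, (zmap V P z).IsIntegralElem (Ideal.Quotient.mk P (X i))) :
    Function.Injective (kmap P fun i => MvPolynomial.map V.subtype (z i)) := by
  apply FINA_.inj 3
  · apply BDI_.kmap_int
    intro i
    have h := hz i
    rw [BDI_.zmap_eq] at h
    exact up _ _ h
  · rw [hdim]; rfl

theorem zinj (hdim : ringKrullDim (MvPolynomial (Fin (N + 1)) K ⧸ P) = 4)
    (hz : ∀ i, (zmap V P z).IsIntegralElem (Ideal.Quotient.mk P (X i))) :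
    Function.Injective (zmap V P z) := by
  rw [BDI_.zmap_eq, RingHom.coe_comp]
  exact (kinj V P z hdim hz).comp (MvPolynomial.map_injective _ Subtype.val_injective)

end main

end GSS_

open GSS_ in
theorem GSS_proof : Stmt_Gss := by
  intro K _ V ϖ hϖ hV P hdim z hz B _ _ _ φ hker hint
  have hinj : Function.Injective (al V z φ) := by
    rw [al_eq V P z φ hker, RingHom.coe_comp]
    exact (io_inj P φ hker).comp (zinj V P z hdim hz)
  have hPID : IsPrincipalIdealRing V := inferInstance
  have hUFD : UniqueFactorizationMonoid (MvPolynomial (Fin 4) V) := inferInstance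
  have hIC : IsIntegrallyClosed (MvPolynomial (Fin 4) V) := inferInstance
  let : Algebra (MvPolynomial (Fin 4) V) B := (al V z φ).toAlgebra
  have hfs : FaithfulSMul (MvPolynomial (Fin 4) V) B :=
    (faithfulSMul_iff_algebraMap_injective _ B).2 hinj
  have hprime : Prime (C ϖ : MvPolynomial (Fin 4) V) := by
    rw [MvPolynomial.prime_C_iff]
    exact hϖ.prime
  have hϖ0 : (ϖ : K) ≠ 0 := fun h => hϖ.ne_zero (Subtype.ext h)
  have hB0 : algebraMap K B ϖ ≠ 0 := by
    rw [Ne, map_eq_zero]
    exact hϖ0
  have hVB : algebraMap V B ϖ = algebraMap K B ϖ := rfl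
  refine ⟨fun r hr => hinj (by rw [map_zero]; exact hr), ?_, ?_⟩
  · rintro ⟨b', hb', hb1⟩
    -- `ϖ⁻¹` is integral over `V`
    rw [mem_Sb_iff V P z φ hker hz] at hb'
    refine not_unit (al V z φ) hinj (C ϖ) hprime b' hb' ?_
    rw [al_C, ← hVB, ← hb1]
  · intro r b hr hb hd
    obtain ⟨b'', hb'', hbe⟩ := hd
    have hy : b = algebraMap V B ϖ * (algebraMap K B (ϖ : K)⁻¹ * b) := by
      rw [hVB, ← mul_assoc, ← map_mul, mul_inv_cancel₀ hϖ0, map_one, one_mul]
    refine ⟨algebraMap K B (ϖ : K)⁻¹ * b, ?_, hy⟩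
    rw [mem_Sb_iff V P z φ hker hz] at hb hb'' ⊢
    refine gauss (C ϖ) r hprime ?_ (algebraMap K B (ϖ : K)⁻¹ * b) ?_ ?_
    · intro h
      exact hr (Ideal.mem_span_singleton.2 h)
    · have h1 : algebraMap (MvPolynomial (Fin 4) V) B (C ϖ) = algebraMap V B ϖ := by
        rw [hVB]
        exact al_C V z φ ϖ
      rw [h1, ← hy]
      exact hb
    · have h1 : algebraMap (MvPolynomial (Fin 4) V) B r * (algebraMap K B (ϖ : K)⁻¹ * b) = b'' := by
        apply mul_left_cancel₀ hB0
        rw [← hVB, ← hbe, mul_left_comm, ← hy]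
        rfl
      rw [h1]
      exact hb''

end Pool.Agent.XB
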