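import Pool.Agent.XB.StmtsB

/-!
Module HIB of squad XB: the Hilbert function of the graded domain `B`.
-/

set_option autoImplicit false

noncomputable section

namespace Pool.Agent.XB

open scoped Classical
open MvPolynomial Pool.Agent.FRM Pool.Agent.XV Pool.Agent.GML

namespace HIB_

/-! ### ranks over domains -/

lemma finrank_of {A M : Type} [CommRing A] [IsDomain A] [AddCommGroup M] [Module A M]
    {ι : Type} [Fintype ι] (u : ι → M) (hu : LinearIndependent A u) (a : A) (ha : a ≠ 0)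
    (h : ∀ x, a • x ∈ Submodule.span A (Set.range u)) :
    Module.finrank A M = Fintype.card ι := by
  have h1 := Submodule.rank_quotient_add_rank (Submodule.span A (Set.range u))
  have h2 : Module.rank A (M ⧸ Submodule.span A (Set.range u)) = 0 := by
    rw [rank_eq_zero_iff]
    intro x
    obtain ⟨y, rfl⟩ := Submodule.Quotient.mk_surjective _ x
    refine ⟨a, ha, ?_⟩
    rw [← Submodule.Quotient.mk_smul, Submodule.Quotient.mk_eq_zero]
    exact h y
  rw [h2, zero_add, rank_span hu] at h1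
  rw [Module.finrank, ← h1, Cardinal.mk_range_eq u hu.injective, Cardinal.mk_fintype,
    Cardinal.toNat_natCast]

lemma exists_rank_data (A M : Type) [CommRing A] [IsDomain A] [AddCommGroup M] [Module A M]
    [Module.Finite A M] : ∃ (d : ℕ) (u : Fin d → M) (a : A), a ≠ 0 ∧ LinearIndependent A u ∧
      ∀ x, a • x ∈ Submodule.span A (Set.range u) := by
  obtain ⟨m, b, hb⟩ := Module.Finite.exists_fin (R := A) (M := M)
  obtain ⟨s, hs, hs2⟩ := exists_maximal_linearIndepOn A b
  have h3 : ∀ i, ∃ a : A, a ≠ 0 ∧ a • b i ∈ Submodule.span A (b '' s) := by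
    intro i
    by_cases hi : i ∈ s
    · exact ⟨1, one_ne_zero, by
        rw [one_smul]
        exact Submodule.subset_span (Set.mem_image_of_mem b hi)⟩
    · exact hs2 i hi
  choose a ha ha2 using h3
  have hfs : Finite s := inferInstance
  obtain ⟨d, ⟨e⟩⟩ := Finite.exists_equiv_fin s
  refine ⟨d, fun j => b (e.symm j), ∏ i, a i, Finset.prod_ne_zero_iff.2 fun i _ => ha i, ?_, ?_⟩
  · exact (hs.linearIndependent).comp e.symm e.symm.injective
  · have h4 : Set.range (fun j => b (e.symm j)) = b '' s := by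
      ext y
      constructor
      · rintro ⟨j, rfl⟩
        exact Set.mem_image_of_mem b (e.symm j).2
      · rintro ⟨i, hi, rfl⟩
        exact ⟨e ⟨i, hi⟩, by simp⟩
    rw [h4]
    intro x
    have h5 : x ∈ Submodule.span A (Set.range b) := by rw [hb]; trivial
    induction h5 using Submodule.span_induction with
    | mem y hy =>
      obtain ⟨i, rfl⟩ := hy
      rw [← Finset.mul_prod_erase Finset.univ a (Finset.mem_univ i), mul_comm, mul_smul]
      exact Submodule.smul_mem _ _ (ha2 i)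
    | zero => rw [smul_zero]; exact Submodule.zero_mem _
    | add y y' _ _ hy hy' => rw [smul_add]; exact Submodule.add_mem _ hy hy'
    | smul r y _ hy => rw [smul_comm]; exact Submodule.smul_mem _ _ hy

/-! ### graded modules from projections -/

lemma internal_of_proj {κ M : Type} [Field κ] [AddCommGroup M] [Module κ M]
    (gr : ℤ → Submodule κ M) (q : ℤ → M →ₗ[κ] M)
    (h2 : ∀ n x, x ∈ gr n → q n x = x)
    (h3 : ∀ m n x, x ∈ gr n → m ≠ n → q m x = 0)
    (h4 : ∀ x, ∃ s : Finset ℤ, ∃ f : ℤ → M, (∀ n, f n ∈ gr n) ∧ x = ∑ n ∈ s, f n) :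
    DirectSum.IsInternal gr := by
  rw [DirectSum.isInternal_submodule_iff_iSupIndep_and_iSup_eq_top]
  constructor
  · intro i
    rw [Submodule.disjoint_def]
    intro x hx hx2
    have h5 : (⨆ j, ⨆ (_ : j ≠ i), gr j) ≤ LinearMap.ker (q i) := by
      refine iSup_le fun j => iSup_le fun hj => ?_
      intro y hy
      exact h3 i j y hy (Ne.symm hj)
    have h6 := h5 hx2
    rw [LinearMap.mem_ker, h2 i x hx] at h6
    exact h6
  · rw [eq_top_iff]
    intro x _
    obtain ⟨s, f, hf, rfl⟩ := h4 x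
    exact Submodule.sum_mem _ fun n _ => Submodule.mem_iSup_of_mem n (hf n)

/-- projections compatible with the multiplication by linear forms -/
structure PD {κ : Type} [Field κ] {R : Type} [CommRing R] (ψ : Po κ 4 →+* R) (J : Ideal R)
    (P : ℕ → R →+ R) : Prop where
  pp : ∀ m n x, P m (P n x) = if m = n then P n x else 0
  sum : ∀ x, ∃ s : Finset ℕ, x = ∑ n ∈ s, P n x
  stab : ∀ n x, x ∈ J → P n x ∈ J
  mulC : ∀ n a x, P n (ψ (C a) * x) = ψ (C a) * P n x
  mulX : ∀ n i x, P (n + 1) (ψ (X i) * x) = ψ (X i) * P n x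

section gm

variable {κ : Type} [Field κ] {R : Type} [CommRing R] (ψ : Po κ 4 →+* R) (J : Ideal R)
    (P : ℕ → R →+ R)

abbrev mdA : Module (Po κ 4) (R ⧸ J) := Module.compHom _ ((Ideal.Quotient.mk J).comp ψ)

abbrev mdV : Module κ (R ⧸ J) :=
  Module.compHom _ (((Ideal.Quotient.mk J).comp ψ).comp (C : κ →+* Po κ 4))

lemma tw : @IsScalarTower κ (Po κ 4) (R ⧸ J) _ (mdA ψ J).toSMul (mdV ψ J).toSMul := by
  let _ := mdA ψ J
  let _ := mdV ψ J
  refine ⟨fun a q x => ?_⟩
  show (Ideal.Quotient.mk J) (ψ (a • q)) * x =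
    (Ideal.Quotient.mk J) (ψ (C a)) * ((Ideal.Quotient.mk J) (ψ q) * x)
  rw [MvPolynomial.smul_eq_C_mul, map_mul, map_mul, mul_assoc]

/-- the homogeneous elements -/
def gG (n : ℕ) (h : ∀ n a x, P n (ψ (C a) * x) = ψ (C a) * P n x) :
    @Submodule κ (R ⧸ J) _ _ (mdV ψ J) :=
  let _ := mdV ψ J
  { carrier := {y | ∃ x, P n x = x ∧ Ideal.Quotient.mk J x = y}
    add_mem' := by
      rintro _ _ ⟨x, hx, rfl⟩ ⟨y, hy, rfl⟩
      exact ⟨x + y, by rw [map_add, hx, hy], by rw [map_add]⟩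
    zero_mem' := ⟨0, by rw [map_zero], by rw [map_zero]⟩
    smul_mem' := by
      rintro a _ ⟨x, hx, rfl⟩
      refine ⟨ψ (C a) * x, by rw [h, hx], ?_⟩
      rw [map_mul]
      rfl }

/-- the projections of the quotient -/
def qq (h : PD ψ J P) (n : ℕ) : let _ := mdV ψ J; (R ⧸ J) →ₗ[κ] (R ⧸ J) :=
  let _ := mdV ψ J
  { toFun := Quotient.lift (s := Submodule.quotientRel J) (fun x => Ideal.Quotient.mk J (P n x)) (by
      intro x y hxy
      have h1 : x - y ∈ J := (Submodule.quotientRel_def J).1 hxy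
      have h2 := h.stab n _ h1
      rw [map_sub] at h2
      exact Ideal.Quotient.eq.2 h2)
    map_add' := by
      intro x y
      obtain ⟨x, rfl⟩ := Ideal.Quotient.mk_surjective x
      obtain ⟨y, rfl⟩ := Ideal.Quotient.mk_surjective y
      show Ideal.Quotient.mk J (P n (x + y)) = Ideal.Quotient.mk J (P n x) + Ideal.Quotient.mk J (P n y)
      rw [map_add, map_add]
    map_smul' := by
      intro a x
      obtain ⟨x, rfl⟩ := Ideal.Quotient.mk_surjective x
      show Ideal.Quotient.mk J (P n (ψ (C a) * x)) =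
        Ideal.Quotient.mk J (ψ (C a)) * Ideal.Quotient.mk J (P n x)
      rw [h.mulC, map_mul] }

/-- the graded module -/
def gm (h : PD ψ J P) : GMod κ 4 :=
  let _ := mdA ψ J
  let _ := mdV ψ J
  let _ := tw ψ J
  { M := R ⧸ J
    gr := fun n => if 0 ≤ n then gG ψ J P n.toNat h.mulC else ⊥
    int := by
      refine internal_of_proj _ (fun n => if 0 ≤ n then qq ψ J P h n.toNat else 0) ?_ ?_ ?_
      · intro n x hx
        by_cases hn : 0 ≤ n
        · simp only [hn, if_true] at hx ⊢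
          obtain ⟨x, hx, rfl⟩ := hx
          show Ideal.Quotient.mk J (P n.toNat x) = Ideal.Quotient.mk J x
          rw [hx]
        · simp only [hn, if_false] at hx ⊢
          rw [Submodule.mem_bot] at hx
          rw [hx]
          rfl
      · intro m n x hx hmn
        by_cases hm : 0 ≤ m
        · by_cases hn : 0 ≤ n
          · simp only [hn, if_true] at hx
            obtain ⟨x, hx, rfl⟩ := hx
            simp only [hm, if_true]
            show Ideal.Quotient.mk J (P m.toNat x) = 0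
            have h2 : m.toNat ≠ n.toNat := by omega
            rw [← hx, h.pp, if_neg h2, map_zero]
          · simp only [hn, if_false] at hx
            rw [Submodule.mem_bot] at hx
            rw [hx, map_zero]
        · simp only [hm, if_false]
          rfl
      · intro x
        obtain ⟨x, rfl⟩ := Ideal.Quotient.mk_surjective x
        obtain ⟨s, hs⟩ := h.sum x
        refine ⟨s.map Nat.castEmbedding, fun n => if 0 ≤ n then Ideal.Quotient.mk J (P n.toNat x)
          else 0, ?_, ?_⟩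
        · intro n
          by_cases hn : 0 ≤ n
          · simp only [hn, if_true]
            exact ⟨P n.toNat x, by rw [h.pp, if_pos rfl], rfl⟩
          · simp only [hn, if_false]
            exact Submodule.zero_mem _
        · rw [Finset.sum_map]
          conv_lhs => rw [hs, map_sum]
          refine Finset.sum_congr rfl fun n _ => ?_
          simp
    mul_mem := by
      intro i n x hx
      by_cases hn : 0 ≤ n
      · simp only [hn, if_true] at hx
        obtain ⟨x, hx, rfl⟩ := hx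
        have hn1 : 0 ≤ n + 1 := by omega
        simp only [hn1, if_true]
        refine ⟨ψ (X i) * x, ?_, ?_⟩
        · have h3 : (n + 1).toNat = n.toNat + 1 := by omega
          rw [h3, h.mulX, hx]
        · rw [map_mul]
          rfl
      · simp only [hn, if_false] at hx
        rw [Submodule.mem_bot] at hx
        rw [hx, smul_zero]
        exact Submodule.zero_mem _ }

/-- **growth** in terms of elements of `R` -/
lemma growth (hGRO : GML.Stmt_GRO) (h : PD ψ J P)
    (hfin : ∃ (m : ℕ) (b : Fin m → R), ∀ y, ∃ q : Fin m → Po κ 4, y - ∑ i, ψ (q i) * b i ∈ J)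
    {ι : Type} [Fintype ι] (u : ι → R)
    (hind : ∀ q : ι → Po κ 4, ∑ i, ψ (q i) * u i ∈ J → ∀ i, q i = 0)
    (a : Po κ 4) (ha : a ≠ 0) (hgen : ∀ y, ∃ q : ι → Po κ 4, ψ a * y - ∑ i, ψ (q i) * u i ∈ J) :
    ∃ C : ℕ, ∀ (m k : ℕ) (e : Fin k → R), (∀ i, P m (e i) = e i) →
      (∀ c : Fin k → κ, ∑ i, ψ (MvPolynomial.C (c i)) * e i ∈ J → ∀ i, c i = 0) →
      (∀ y, P m y = y → ∃ c : Fin k → κ, y - ∑ i, ψ (MvPolynomial.C (c i)) * e i ∈ J) →
      |(k : ℤ) - Fintype.card ι * ((m + 3).choose 3 : ℕ)| ≤ C * ((m : ℤ) + 1) ^ 2 := by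
  let _ := mdA ψ J
  let _ := mdV ψ J
  let _ := tw ψ J
  have smA : ∀ (q : Po κ 4) (x : R), q • (Ideal.Quotient.mk J x) =
      Ideal.Quotient.mk J (ψ q * x) := by
    intro q x
    rw [map_mul]
    rfl
  have smV : ∀ (q : κ) (x : R), q • (Ideal.Quotient.mk J x) =
      Ideal.Quotient.mk J (ψ (C q) * x) := by
    intro q x
    rw [map_mul]
    rfl
  have hfin2 : Module.Finite (Po κ 4) (R ⧸ J) := by
    obtain ⟨m, b, hb⟩ := hfin
    refine Module.Finite.of_surjective
      (Fintype.linearCombination (Po κ 4) (fun i => Ideal.Quotient.mk J (b i))) ?_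
    intro y
    obtain ⟨y, rfl⟩ := Ideal.Quotient.mk_surjective y
    obtain ⟨q, hq⟩ := hb y
    refine ⟨q, ?_⟩
    rw [Fintype.linearCombination_apply]
    rw [Finset.sum_congr rfl fun i _ => smA (q i) (b i), ← map_sum, eq_comm]
    exact Ideal.Quotient.eq.2 hq
  have hrank : Module.finrank (Po κ 4) (R ⧸ J) = Fintype.card ι := by
    refine finrank_of (fun i => Ideal.Quotient.mk J (u i)) ?_ a ha ?_
    · rw [Fintype.linearIndependent_iff]
      intro q hq
      rw [Finset.sum_congr rfl fun i _ => smA (q i) (u i), ← map_sum] at hq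
      exact hind q (Ideal.Quotient.eq_zero_iff_mem.1 hq)
    · intro x
      obtain ⟨x, rfl⟩ := Ideal.Quotient.mk_surjective x
      obtain ⟨q, hq⟩ := hgen x
      have h1 : a • Ideal.Quotient.mk J x = ∑ i, q i • Ideal.Quotient.mk J (u i) := by
        rw [Finset.sum_congr rfl fun i _ => smA (q i) (u i), ← map_sum, smA]
        exact Ideal.Quotient.eq.2 hq
      rw [h1]
      exact Submodule.sum_mem _ fun i _ => Submodule.smul_mem _ _ (Submodule.subset_span ⟨i, rfl⟩)
  obtain ⟨-, -, C, hC⟩ := hGRO κ 2 (gm ψ J P h) hfin2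
  refine ⟨C, fun m k e he h1 h2 => ?_⟩
  have h3 := hC m
  have h4 : Module.finrank (Po κ (2 + 2)) (gm ψ J P h).M = Fintype.card ι := hrank
  have h5' : Module.finrank κ (gG ψ J P m h.mulC) = k := by
    have h6 : gG ψ J P m h.mulC =
        Submodule.span κ (Set.range fun i => Ideal.Quotient.mk J (e i)) := by
      apply le_antisymm
      · rintro _ ⟨x, hx, rfl⟩
        obtain ⟨c, hc⟩ := h2 x hx
        have h8 : Ideal.Quotient.mk J x = ∑ i, c i • Ideal.Quotient.mk J (e i) := by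
          rw [Finset.sum_congr rfl fun i _ => smV (c i) (e i), ← map_sum]
          exact Ideal.Quotient.eq.2 hc
        rw [h8]
        exact Submodule.sum_mem _ fun i _ => Submodule.smul_mem _ _ (Submodule.subset_span ⟨i, rfl⟩)
      · rw [Submodule.span_le]
        rintro _ ⟨i, rfl⟩
        exact ⟨e i, he i, rfl⟩
    rw [h6]
    have h9 : LinearIndependent κ fun i => Ideal.Quotient.mk J (e i) := by
      rw [Fintype.linearIndependent_iff]
      intro q hq
      rw [Finset.sum_congr rfl fun i _ => smV (q i) (e i), ← map_sum] at hq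
      exact h1 q (Ideal.Quotient.eq_zero_iff_mem.1 hq)
    have h10 := finrank_span_eq_card h9
    rw [Fintype.card_fin] at h10
    exact h10
  have h5 : Module.finrank κ ((gm ψ J P h).gr (m : ℤ)) = k := by
    have h7 : (gm ψ J P h).gr (m : ℤ) = gG ψ J P m h.mulC := by
      show (if 0 ≤ (m : ℤ) then gG ψ J P (m : ℤ).toNat h.mulC else ⊥) = _
      rw [if_pos (Int.natCast_nonneg m), Int.toNat_natCast]
    rw [h7]
    exact h5'
  rw [h4, h5] at h3
  exact h3

end gm

/-! ### the coordinate ring of `X` -/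

lemma hc_mul {F : Type} [Field F] {a : MvPolynomial (Fin (N + 1)) F} (ha : a.IsHomogeneous 1)
    (n : ℕ) (x : MvPolynomial (Fin (N + 1)) F) :
    homogeneousComponent (n + 1) (a * x) = a * homogeneousComponent n x := by
  conv_lhs => rw [← sum_homogeneousComponent x]
  conv_rhs => rw [← sum_homogeneousComponent x]
  rw [Finset.mul_sum, map_sum, map_sum, Finset.mul_sum]
  refine Finset.sum_congr rfl fun i _ => ?_
  have h1 : homogeneousComponent i x ∈ homogeneousSubmodule (Fin (N + 1)) F i :=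
    homogeneousComponent_mem i x
  have h2 : a * homogeneousComponent i x ∈ homogeneousSubmodule (Fin (N + 1)) F (1 + i) :=
    ha.mul h1
  rw [homogeneousComponent_of_mem h1, homogeneousComponent_of_mem h2]
  by_cases h : n = i
  · rw [if_pos h, if_pos (by omega)]
  · rw [if_neg h, if_neg (by omega), mul_zero]

/-- the homogeneous components -/
def PF (F : Type) [Field F] (n : ℕ) :
    MvPolynomial (Fin (N + 1)) F →+ MvPolynomial (Fin (N + 1)) F :=
  (homogeneousComponent n).toAddMonoidHom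

/-- the homomorphism `F[z] → F[x]` -/
def psF {F : Type} [Field F] (z' : Fin 4 → MvPolynomial (Fin (N + 1)) F) :
    Po F 4 →+* MvPolynomial (Fin (N + 1)) F :=
  (aeval z' : Po F 4 →ₐ[F] MvPolynomial (Fin (N + 1)) F).toRingHom

lemma PD_F (hPRI : XV.Stmt_Pri) {F : Type} [Field F] (z' : Fin 4 → MvPolynomial (Fin (N + 1)) F)
    (hz : ∀ i, (z' i).IsHomogeneous 1) : PD (psF z') (I F) (PF F) := by
  have hP : ∀ n x, PF F n x = homogeneousComponent n x := fun _ _ => rfl
  refine ⟨?_, ?_, ?_, ?_, ?_⟩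
  · intro m n x
    rw [hP, hP]
    exact homogeneousComponent_of_mem (homogeneousComponent_mem n x)
  · intro x
    exact ⟨_, (sum_homogeneousComponent x).symm⟩
  · intro n x hx
    exact (hPRI F).2 x hx n
  · intro n a x
    have h1 : psF z' (C a) = C a := by
      show aeval z' (C a) = C a
      rw [aeval_C]
      rfl
    rw [hP, hP, h1, homogeneousComponent_C_mul]
  · intro n i x
    have h1 : psF z' (X i) = z' i := by
      show aeval z' (X i) = z' i
      rw [aeval_X]
    rw [hP, hP, h1]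
    exact hc_mul (hz i) n x

/-! ### the integral model modulo `ϖ` -/

section mod

variable {K : Type} [Field K] (V : ValuationSubring K) {F : Type} [Field F] (c : F →+* V)
  {B : Type} [CommRing B] [Algebra K B] (φ : MvPolynomial (Fin (N + 1)) K →ₐ[K] B)

lemma vB_mem (w : MvPolynomial (Fin (N + 1)) V) : vB V φ w ∈ Sb V φ :=
  RingHom.isIntegralElem_map _

lemma vB_C (v : V) : vB V φ (C v) = algebraMap V B v := by
  have h2 : φ (C (v : K)) = algebraMap K B v := φ.commutes _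
  simp only [vB, RingHom.comp_apply, map_C]
  exact h2

lemma lfb_mem (q : MvPolynomial (Fin (N + 1)) F) : lfb V φ c q ∈ Sb V φ := vB_mem V φ _

/-- the homomorphism `F[z] → S` -/
def psS (z' : Fin 4 → MvPolynomial (Fin (N + 1)) F) : Po F 4 →+* Sb V φ :=
  ((lfb V φ c).comp (psF z')).codRestrict (Sb V φ) fun q => lfb_mem V c φ _

lemma psS_coe (z' : Fin 4 → MvPolynomial (Fin (N + 1)) F) (q : Po F 4) :
    ((psS V c φ z' q : Sb V φ) : B) = lfb V φ c (aeval z' q) := rfl

lemma psS_C (z' : Fin 4 → MvPolynomial (Fin (N + 1)) F) (a : F) :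
    psS V c φ z' (C a) = algebraMap V (Sb V φ) (c a) := by
  apply Subtype.ext
  rw [psS_coe, aeval_C]
  show vB V φ (MvPolynomial.map c (C a)) = algebraMap V B (c a)
  rw [map_C, vB_C]

/-- the projections of the integral model -/
def PS (ℬ : ℕ → Submodule K B) [GradedAlgebra ℬ]
    (hH : ∀ b ∈ Sb V φ, ∀ n, GradedAlgebra.proj ℬ n b ∈ Sb V φ) (n : ℕ) : Sb V φ →+ Sb V φ where
  toFun x := ⟨GradedAlgebra.proj ℬ n x, hH x x.2 n⟩
  map_zero' := Subtype.ext (by simp)
  map_add' x y := Subtype.ext (by simp)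

lemma mem_JS (ϖ : V) (x : Sb V φ) :
    x ∈ Ideal.span {algebraMap V (Sb V φ) ϖ} ↔ Dvb V φ ϖ (x : B) := by
  rw [Ideal.mem_span_singleton]
  constructor
  · rintro ⟨y, rfl⟩
    exact ⟨y, y.2, rfl⟩
  · rintro ⟨y, hy, h⟩
    exact ⟨⟨y, hy⟩, Subtype.ext h⟩

variable (ℬ : ℕ → Submodule K B) [GradedAlgebra ℬ]

lemma phi_hom (hdeg : ∀ i, φ (X i) ∈ ℬ 1) (d : ℕ) (q : MvPolynomial (Fin (N + 1)) K)
    (hq : q.IsHomogeneous d) : φ q ∈ ℬ d := by
  rw [q.as_sum, map_sum]
  refine Submodule.sum_mem _ fun s hs => ?_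
  have h1 : s.degree = d := by
    by_contra h
    exact (MvPolynomial.mem_support_iff.1 hs) (hq.coeff_eq_zero h)
  rw [MvPolynomial.monomial_eq, map_mul]
  have h2 : φ (C (coeff s q)) = algebraMap K B (coeff s q) := φ.commutes _
  rw [h2, ← Algebra.smul_def]
  refine Submodule.smul_mem _ _ ?_
  rw [Finsupp.prod, map_prod]
  have h3 : ∏ i ∈ s.support, φ (X i) ^ s i ∈ ℬ (∑ i ∈ s.support, s i • 1) :=
    SetLike.prod_pow_mem_graded ℬ (fun _ => 1) (fun i => φ (X i)) (fun i => s i)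
      fun i _ => hdeg i
  have h4 : ∑ i ∈ s.support, s i • 1 = d := by
    rw [← h1, Finsupp.degree]
    simp
  rw [h4] at h3
  simpa only [map_pow] using h3

lemma proj_same {n : ℕ} {x : B} (hx : x ∈ ℬ n) : GradedAlgebra.proj ℬ n x = x := by
  rw [GradedAlgebra.proj_apply, DirectSum.decompose_of_mem_same ℬ hx]

lemma proj_ne {n m : ℕ} {x : B} (hx : x ∈ ℬ n) (h : n ≠ m) : GradedAlgebra.proj ℬ m x = 0 := by
  rw [GradedAlgebra.proj_apply, DirectSum.decompose_of_mem_ne ℬ hx h]

lemma proj_mem (n : ℕ) (x : B) : GradedAlgebra.proj ℬ n x ∈ ℬ n := by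
  rw [GradedAlgebra.proj_apply]
  exact SetLike.coe_mem _

lemma proj_mul {i n : ℕ} {a : B} (ha : a ∈ ℬ i) (b : B) :
    GradedAlgebra.proj ℬ n (a * b) = if i ≤ n then a * GradedAlgebra.proj ℬ (n - i) b else 0 := by
  rw [GradedAlgebra.proj_apply, GradedAlgebra.proj_apply]
  split_ifs with h
  · exact DirectSum.coe_decompose_mul_of_left_mem_of_le ℬ ha h
  · exact DirectSum.coe_decompose_mul_of_left_mem_of_not_le ℬ ha h

lemma proj_V (n : ℕ) (v : V) (x : B) :
    GradedAlgebra.proj ℬ n (algebraMap V B v * x) = algebraMap V B v * GradedAlgebra.proj ℬ n x := by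
  have h1 : ∀ y : B, algebraMap V B v * y = (v : K) • y := by
    intro y
    rw [Algebra.smul_def]
    rfl
  rw [h1, h1, map_smul]

lemma PD_S (hdeg : ∀ i, φ (X i) ∈ ℬ 1)
    (hH : ∀ b ∈ Sb V φ, ∀ n, GradedAlgebra.proj ℬ n b ∈ Sb V φ) (ϖ : V)
    (z' : Fin 4 → MvPolynomial (Fin (N + 1)) F) (hz : ∀ i, (z' i).IsHomogeneous 1) :
    PD (psS V c φ z') (Ideal.span {algebraMap V (Sb V φ) ϖ}) (PS V φ ℬ hH) := by
  have hP : ∀ n (x : Sb V φ), ((PS V φ ℬ hH n x : Sb V φ) : B) = GradedAlgebra.proj ℬ n x :=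
    fun _ _ => rfl
  refine ⟨?_, ?_, ?_, ?_, ?_⟩
  · intro m n x
    apply Subtype.ext
    rw [hP, hP]
    split_ifs with h
    · rw [h, proj_same ℬ (proj_mem ℬ n (x : B)), hP]
    · rw [proj_ne ℬ (proj_mem ℬ n (x : B)) (Ne.symm h)]
      rfl
  · intro x
    refine ⟨(DirectSum.decompose ℬ (x : B)).support, ?_⟩
    apply Subtype.ext
    rw [AddSubmonoidClass.coe_finset_sum]
    conv_lhs => rw [← DirectSum.sum_support_decompose ℬ (x : B)]
    refine Finset.sum_congr rfl fun n _ => ?_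
    rw [hP, GradedAlgebra.proj_apply]
  · intro n x hx
    rw [mem_JS] at hx ⊢
    obtain ⟨y, hy, h⟩ := hx
    refine ⟨GradedAlgebra.proj ℬ n y, hH y hy n, ?_⟩
    rw [hP, h, proj_V]
  · intro n a x
    apply Subtype.ext
    rw [psS_C, hP]
    show GradedAlgebra.proj ℬ n (algebraMap V B (c a) * x) =
      algebraMap V B (c a) * GradedAlgebra.proj ℬ n (x : B)
    rw [proj_V]
  · intro n i x
    apply Subtype.ext
    rw [hP]
    have h1 : lfb V φ c (aeval z' (X i : Po F 4)) ∈ ℬ 1 := by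
      rw [aeval_X]
      have h2 : (MvPolynomial.map V.subtype (MvPolynomial.map c (z' i))).IsHomogeneous 1 :=
        ((hz i).map c).map V.subtype
      exact phi_hom φ ℬ hdeg 1 _ h2
    show GradedAlgebra.proj ℬ (n + 1) (lfb V φ c (aeval z' (X i : Po F 4)) * x) =
      lfb V φ c (aeval z' (X i : Po F 4)) * GradedAlgebra.proj ℬ n (x : B)
    rw [proj_mul ℬ h1, if_pos (by omega), Nat.add_sub_cancel]

end mod

section lattice

variable {K : Type} [Field K] (V : ValuationSubring K) {B : Type} [CommRing B] [Algebra K B]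
  (φ : MvPolynomial (Fin (N + 1)) K →ₐ[K] B) (ℬ : ℕ → Submodule K B) [GradedAlgebra ℬ]

/-- the homogeneous elements of the integral model -/
def Lm (m : ℕ) : Submodule V B :=
  (Subalgebra.toSubmodule (Sb V φ)) ⊓ (ℬ m).restrictScalars V

lemma Lm_fg (hdvr : IsDiscreteValuationRing V) (hdeg : ∀ i, φ (X i) ∈ ℬ 1)
    (z : Fin 4 → MvPolynomial (Fin (N + 1)) V) (hz : ∀ i, (z i).IsHomogeneous 1)
    (hfin : ∃ (m : ℕ) (b : Fin m → B), (∀ i, b i ∈ Sb V φ) ∧
      ∀ y ∈ Sb V φ, ∃ q : Fin m → MvPolynomial (Fin 4) V,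
        y = ∑ i, vB V φ (aeval z (q i)) * b i) (m : ℕ) : (Lm V φ ℬ m).FG := by
  obtain ⟨k, b, -, hgen⟩ := hfin
  let T : Set B := (fun x : (Fin 4 →₀ ℕ) × Fin k =>
    vB V φ (aeval z (monomial x.1 (1 : V))) * GradedAlgebra.proj ℬ (m - x.1.degree) (b x.2)) ''
      ({s | s.degree ≤ m} ×ˢ Set.univ)
  have hT : T.Finite := (Set.Finite.prod (Finsupp.finite_of_degree_le m) Set.finite_univ).image _
  have hN : IsNoetherian V (Submodule.span V T) := isNoetherian_span_of_finite V hT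
  rw [isNoetherian_submodule] at hN
  apply hN
  rintro y ⟨hy1, hy2⟩
  have h1 : GradedAlgebra.proj ℬ m y = y := proj_same ℬ hy2
  obtain ⟨q, hq⟩ := hgen y hy1
  rw [← h1, hq, map_sum]
  refine Submodule.sum_mem _ fun i _ => ?_
  rw [(q i).as_sum, map_sum, map_sum, Finset.sum_mul, map_sum]
  refine Submodule.sum_mem _ fun s _ => ?_
  have h2 : (monomial s (coeff s (q i)) : MvPolynomial (Fin 4) V) =
      C (coeff s (q i)) * monomial s 1 := by
    rw [C_mul_monomial, mul_one]
  have h3 : vB V φ (aeval z (monomial s (1 : V))) ∈ ℬ s.degree := by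
    have h4 : (aeval z (monomial s (1 : V))).IsHomogeneous (1 * s.degree) :=
      (isHomogeneous_monomial (1 : V) rfl).aeval z hz
    rw [one_mul] at h4
    exact phi_hom φ ℬ hdeg _ _ (h4.map V.subtype)
  have h5 : vB V φ (aeval z (monomial s (coeff s (q i)))) * b i =
      algebraMap V B (coeff s (q i)) * (vB V φ (aeval z (monomial s (1 : V))) * b i) := by
    have h7 : aeval z (C (coeff s (q i))) = (C (coeff s (q i)) : MvPolynomial (Fin (N + 1)) V) := by
      rw [aeval_C]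
      rfl
    rw [h2, map_mul, map_mul, h7, vB_C, mul_assoc]
  rw [h5, proj_V, proj_mul ℬ h3]
  split_ifs with h6
  · rw [← Algebra.smul_def]
    refine Submodule.smul_mem _ _ (Submodule.subset_span ?_)
    exact ⟨(s, i), ⟨h6, trivial⟩, rfl⟩
  · rw [mul_zero]
    exact Submodule.zero_mem _

lemma exists_mult (hint : ∀ b, (φ : MvPolynomial (Fin (N + 1)) K →+* B).IsIntegralElem b) (y : B) :
    ∃ v : V, v ≠ 0 ∧ algebraMap V B v * y ∈ Sb V φ := by
  let _ : Algebra (MvPolynomial (Fin (N + 1)) V) B := (vB V φ).toAlgebra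
  let _ : Algebra (MvPolynomial (Fin (N + 1)) K) B :=
    (φ : MvPolynomial (Fin (N + 1)) K →+* B).toAlgebra
  let _ : Algebra (MvPolynomial (Fin (N + 1)) V) (MvPolynomial (Fin (N + 1)) K) :=
    MvPolynomial.algebraMvPolynomial
  have htow : IsScalarTower (MvPolynomial (Fin (N + 1)) V) (MvPolynomial (Fin (N + 1)) K) B :=
    IsScalarTower.of_algebraMap_eq fun x => rfl
  have hloc : IsLocalization ((nonZeroDivisors V).map
      (C : V →+* MvPolynomial (Fin (N + 1)) V)) (MvPolynomial (Fin (N + 1)) K) :=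
    MvPolynomial.isLocalization (σ := Fin (N + 1)) (nonZeroDivisors V) K
  obtain ⟨⟨_, v, hv, rfl⟩, h⟩ := IsIntegral.exists_multiple_integral_of_isLocalization
    ((nonZeroDivisors V).map (C : V →+* MvPolynomial (Fin (N + 1)) V))
    (Rₘ := MvPolynomial (Fin (N + 1)) K) y (hint y)
  refine ⟨v, nonZeroDivisors.ne_zero hv, ?_⟩
  rw [← vB_C]
  exact h

lemma lattice [IsDomain B] {F : Type} [Field F] (c : F →+* V) (σ : V →+* F) (ϖ : V)
    (hdvr : IsDiscreteValuationRing V) (hirr : Irreducible ϖ) (hsec : ∀ x, σ (c x) = x)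
    (hker : RingHom.ker σ = Ideal.span {ϖ})
    (hint : ∀ b, (φ : MvPolynomial (Fin (N + 1)) K →+* B).IsIntegralElem b)
    (hH : ∀ b ∈ Sb V φ, ∀ n, GradedAlgebra.proj ℬ n b ∈ Sb V φ)
    (z' : Fin 4 → MvPolynomial (Fin (N + 1)) F) (m : ℕ) (hfg : (Lm V φ ℬ m).FG) :
    Module.Finite K (ℬ m) ∧ ∃ (d : ℕ) (e : Fin d → Sb V φ), Module.finrank K (ℬ m) = d ∧
      (∀ i, PS V φ ℬ hH m (e i) = e i) ∧
      (∀ a : Fin d → F, ∑ i, psS V c φ z' (C (a i)) * e i ∈
        Ideal.span {algebraMap V (Sb V φ) ϖ} → ∀ i, a i = 0) ∧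
      (∀ y, PS V φ ℬ hH m y = y → ∃ a : Fin d → F,
        y - ∑ i, psS V c φ z' (C (a i)) * e i ∈ Ideal.span {algebraMap V (Sb V φ) ϖ}) := by
  have hVK : ∀ (v : V) (y : B), algebraMap V B v * y = (v : K) • y := by
    intro v y
    rw [Algebra.smul_def]
    rfl
  have hVs : ∀ (v : V) (y : B), v • y = (v : K) • y := by
    intro v y
    rw [Algebra.smul_def, hVK]
  have hϖ : (ϖ : K) ≠ 0 := fun h => hirr.ne_zero (Subtype.ext h)
  have hfin : Module.Finite V (Lm V φ ℬ m) := Module.Finite.iff_fg.2 hfg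
  have htf : Module.IsTorsionFree V (Lm V φ ℬ m) := by
    refine Module.IsTorsionFree.of_smul_eq_zero fun v y hvy => ?_
    have h1 : (v : K) • (y : B) = 0 := by
      rw [← hVs]
      exact congrArg Subtype.val hvy
    rcases smul_eq_zero.1 h1 with h2 | h2
    · exact Or.inl (Subtype.ext h2)
    · exact Or.inr (Subtype.ext h2)
  let bas := Module.finBasis V (Lm V φ ℬ m)
  have hLI : LinearIndependent V (fun i => ((bas i : Lm V φ ℬ m) : B)) :=
    bas.linearIndependent.map' (Lm V φ ℬ m).subtype (Submodule.ker_subtype _)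
  have hLIK : LinearIndependent K (fun i => ((bas i : Lm V φ ℬ m) : B)) :=
    (LinearIndependent.iff_fractionRing V K).1 hLI
  have hrep : ∀ y ∈ Lm V φ ℬ m, ∃ w : Fin (Module.finrank V (Lm V φ ℬ m)) → V,
      y = ∑ i, algebraMap V B (w i) * (bas i : B) := by
    intro y hy
    refine ⟨fun i => bas.repr ⟨y, hy⟩ i, ?_⟩
    have h1 := congrArg Subtype.val (bas.sum_repr ⟨y, hy⟩)
    rw [AddSubmonoidClass.coe_finset_sum] at h1
    refine h1.symm.trans (Finset.sum_congr rfl fun i _ => ?_)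
    rw [← Algebra.smul_def]
    rfl
  have hspan : Submodule.span K (Set.range fun i => ((bas i : Lm V φ ℬ m) : B)) = ℬ m := by
    apply le_antisymm
    · rw [Submodule.span_le]
      rintro _ ⟨i, rfl⟩
      exact (bas i).2.2
    · intro y hy
      obtain ⟨v, hv, hvy⟩ := exists_mult V φ hint y
      have hv' : (v : K) ≠ 0 := fun h => hv (Subtype.ext h)
      have h1 : algebraMap V B v * y ∈ Lm V φ ℬ m := by
        refine ⟨hvy, ?_⟩
        show algebraMap V B v * y ∈ ℬ m
        rw [hVK]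
        exact Submodule.smul_mem _ _ hy
      obtain ⟨w, hw⟩ := hrep _ h1
      have h2 : y = (v : K)⁻¹ • (algebraMap V B v * y) := by
        rw [hVK, smul_smul, inv_mul_cancel₀ hv', one_smul]
      rw [h2, hw]
      refine Submodule.smul_mem _ _ (Submodule.sum_mem _ fun i _ => ?_)
      rw [hVK]
      exact Submodule.smul_mem _ _ (Submodule.subset_span ⟨i, rfl⟩)
  have hcoe : ∀ (a : Fin (Module.finrank V (Lm V φ ℬ m)) → F)
      (e : Fin (Module.finrank V (Lm V φ ℬ m)) → Sb V φ),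
      ((∑ i, psS V c φ z' (C (a i)) * e i : Sb V φ) : B) =
        ∑ i, algebraMap V B (c (a i)) * (e i : B) := by
    intro a e
    rw [AddSubmonoidClass.coe_finset_sum]
    refine Finset.sum_congr rfl fun i _ => ?_
    rw [psS_C]
    rfl
  refine ⟨?_, Module.finrank V (Lm V φ ℬ m), fun i => ⟨(bas i : B), (bas i).2.1⟩, ?_, ?_, ?_, ?_⟩
  · rw [← hspan]
    exact Module.Finite.span_of_finite K (Set.finite_range _)
  · rw [← hspan, finrank_span_eq_card hLIK, Fintype.card_fin]
  · intro i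
    exact Subtype.ext (proj_same ℬ (bas i).2.2)
  · intro a ha
    rw [mem_JS, hcoe] at ha
    obtain ⟨s, hs, h⟩ := ha
    have h1 : s ∈ Lm V φ ℬ m := by
      refine ⟨hs, ?_⟩
      have h2 : algebraMap V B ϖ * s ∈ ℬ m := by
        rw [← h]
        refine Submodule.sum_mem _ fun i _ => ?_
        rw [hVK]
        exact Submodule.smul_mem _ _ (bas i).2.2
      have h3 : s = (ϖ : K)⁻¹ • (algebraMap V B ϖ * s) := by
        rw [hVK, smul_smul, inv_mul_cancel₀ hϖ, one_smul]
      show s ∈ ℬ m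
      rw [h3]
      exact Submodule.smul_mem _ _ h2
    obtain ⟨w, hw⟩ := hrep s h1
    have h4 : ∑ i, (c (a i) - ϖ * w i) • (bas i : B) = 0 := by
      have h5 : ∑ i, (c (a i) - ϖ * w i) • (bas i : B) =
          ∑ i, algebraMap V B (c (a i)) * (bas i : B) -
            algebraMap V B ϖ * ∑ i, algebraMap V B (w i) * (bas i : B) := by
        rw [Finset.mul_sum, ← Finset.sum_sub_distrib]
        refine Finset.sum_congr rfl fun i _ => ?_
        rw [Algebra.smul_def, map_sub, map_mul]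
        ring
      rw [h5, ← hw]
      exact sub_eq_zero.2 h
    have h6 := Fintype.linearIndependent_iff.1 hLI _ h4
    intro i
    have h7 := h6 i
    have h8 : σ ϖ = 0 := by
      have : ϖ ∈ RingHom.ker σ := by
        rw [hker]
        exact Ideal.mem_span_singleton_self ϖ
      exact this
    have h9 := congrArg σ h7
    rw [map_sub, hsec, map_mul, h8, zero_mul, sub_zero, map_zero] at h9
    exact h9
  · intro y hy
    have h1 : (y : B) ∈ Lm V φ ℬ m := by
      refine ⟨y.2, ?_⟩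
      have h2 : GradedAlgebra.proj ℬ m (y : B) = y := congrArg Subtype.val hy
      show (y : B) ∈ ℬ m
      rw [← h2]
      exact proj_mem ℬ m _
    obtain ⟨w, hw⟩ := hrep _ h1
    refine ⟨fun i => σ (w i), ?_⟩
    rw [mem_JS]
    have h2 : ∀ i, ∃ v : V, w i - c (σ (w i)) = ϖ * v := by
      intro i
      have h3 : w i - c (σ (w i)) ∈ RingHom.ker σ := by
        rw [RingHom.mem_ker, map_sub, hsec, sub_self]
      rw [hker, Ideal.mem_span_singleton] at h3
      exact h3
    choose v hv using h2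
    refine ⟨∑ i, algebraMap V B (v i) * (bas i : B), ?_, ?_⟩
    · exact (Sb V φ).sum_mem fun i _ => (Sb V φ).mul_mem ((Sb V φ).algebraMap_mem _) (bas i).2.1
    · have h4 : ((y - ∑ i, psS V c φ z' (C (σ (w i))) *
          (⟨(bas i : B), (bas i).2.1⟩ : Sb V φ) : Sb V φ) : B) =
          (y : B) - ∑ i, algebraMap V B (c (σ (w i))) * (bas i : B) :=
        congrArg (fun t => (y : B) - t)
          (hcoe (fun i => σ (w i)) (fun i => ⟨(bas i : B), (bas i).2.1⟩))
      rw [h4]
      conv_lhs => rw [hw]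
      rw [← Finset.sum_sub_distrib, Finset.mul_sum]
      refine Finset.sum_congr rfl fun i _ => ?_
      rw [← sub_mul, ← map_sub, hv, map_mul, mul_assoc]

end lattice

/-! ### ranks in terms of elements -/

section ext

variable {κ : Type} [Field κ] {R : Type} [CommRing R] (ψ : Po κ 4 →+* R) (J : Ideal R)

/-- the quotient is finite -/
def FinX : Prop := ∃ (m : ℕ) (b : Fin m → R), ∀ y, ∃ q : Fin m → Po κ 4, y - ∑ i, ψ (q i) * b i ∈ J

lemma smA (q : Po κ 4) (x : R) : let _ := mdA ψ J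
    q • (Ideal.Quotient.mk J x) = Ideal.Quotient.mk J (ψ q * x) := by
  rw [map_mul]
  rfl

lemma fin_of (hfin : FinX ψ J) : @Module.Finite (Po κ 4) (R ⧸ J) _ _ (mdA ψ J) := by
  let _ := mdA ψ J
  obtain ⟨m, b, hb⟩ := hfin
  refine Module.Finite.of_surjective
    (Fintype.linearCombination (Po κ 4) (fun i => Ideal.Quotient.mk J (b i))) ?_
  intro y
  obtain ⟨y, rfl⟩ := Ideal.Quotient.mk_surjective y
  obtain ⟨q, hq⟩ := hb y
  refine ⟨q, ?_⟩
  rw [Fintype.linearCombination_apply]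
  rw [Finset.sum_congr rfl fun i _ => smA ψ J (q i) (b i), ← map_sum, eq_comm]
  exact Ideal.Quotient.eq.2 hq

lemma span_ext {ι : Type} [Fintype ι] (u : ι → R) (x : R) : let _ := mdA ψ J
    Ideal.Quotient.mk J x ∈ Submodule.span (Po κ 4) (Set.range fun i => Ideal.Quotient.mk J (u i)) →
      ∃ q : ι → Po κ 4, x - ∑ i, ψ (q i) * u i ∈ J := by
  intro _ hx
  rw [Submodule.mem_span_range_iff_exists_fun] at hx
  obtain ⟨q, hq⟩ := hx
  refine ⟨q, ?_⟩
  rw [Finset.sum_congr rfl fun i _ => smA ψ J (q i) (u i), ← map_sum] at hq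
  exact Ideal.Quotient.eq.1 hq.symm

lemma fin_to (hfin : @Module.Finite (Po κ 4) (R ⧸ J) _ _ (mdA ψ J)) : FinX ψ J := by
  let _ := mdA ψ J
  obtain ⟨m, b, hb⟩ := Module.Finite.exists_fin (R := Po κ 4) (M := R ⧸ J)
  choose b' hb' using fun i => Ideal.Quotient.mk_surjective (b i)
  refine ⟨m, b', fun y => span_ext ψ J b' y ?_⟩
  rw [funext hb']
  show Ideal.Quotient.mk J y ∈ Submodule.span (Po κ 4) (Set.range b)
  rw [hb]
  trivial

lemma rank_ext (hfin : FinX ψ J) : ∃ (d : ℕ) (u : Fin d → R) (a : Po κ 4), a ≠ 0 ∧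
    (∀ q : Fin d → Po κ 4, ∑ i, ψ (q i) * u i ∈ J → ∀ i, q i = 0) ∧
    ∀ y, ∃ q : Fin d → Po κ 4, ψ a * y - ∑ i, ψ (q i) * u i ∈ J := by
  let _ := mdA ψ J
  have hf := fin_of ψ J hfin
  obtain ⟨d, u, a, ha, hu, hgen⟩ := exists_rank_data (Po κ 4) (R ⧸ J)
  choose u' hu' using fun i => Ideal.Quotient.mk_surjective (u i)
  refine ⟨d, u', a, ha, ?_, ?_⟩
  · intro q hq
    refine Fintype.linearIndependent_iff.1 hu q ?_
    rw [← Ideal.Quotient.eq_zero_iff_mem, map_sum] at hq
    rw [← hq]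
    refine Finset.sum_congr rfl fun i _ => ?_
    rw [← smA ψ J, hu']
  · intro y
    refine span_ext ψ J u' _ ?_
    rw [funext hu', ← smA ψ J]
    exact hgen _

lemma dvd_ext (hJ : J.IsPrime) (hfin : FinX ψ J) (r : R) (hr : r ∉ J) :
    ∃ (a : Po κ 4) (w : R), a ≠ 0 ∧ ψ a - w * r ∈ J := by
  let _ : Algebra (Po κ 4) (R ⧸ J) := ((Ideal.Quotient.mk J).comp ψ).toAlgebra
  have hfin2 : Module.Finite (Po κ 4) (R ⧸ J) := fin_of ψ J hfin
  have hint : Algebra.IsIntegral (Po κ 4) (R ⧸ J) := Algebra.IsIntegral.of_finite _ _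
  have hr2 : Ideal.Quotient.mk J r ≠ 0 := fun h => hr (Ideal.Quotient.eq_zero_iff_mem.1 h)
  obtain ⟨a, ha, w, hw⟩ := (hint.isIntegral (Ideal.Quotient.mk J r)).isAlgebraic.exists_nonzero_dvd
    (mem_nonZeroDivisors_of_ne_zero hr2)
  obtain ⟨w, rfl⟩ := Ideal.Quotient.mk_surjective w
  refine ⟨a, w, ha, ?_⟩
  rw [← Ideal.Quotient.eq, map_mul, mul_comm, ← hw]
  rfl

lemma fin_inj {R' : Type} [CommRing R'] (ψ' : Po κ 4 →+* R') (J' : Ideal R') (f : R →+* R')
    (hf : ∀ q, f (ψ q) = ψ' q) (hJ : ∀ x, f x ∈ J' ↔ x ∈ J) (hfin : FinX ψ' J') : FinX ψ J := by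
  let _ := mdA ψ J
  let _ := mdA ψ' J'
  have hf' := fin_of ψ' J' hfin
  apply fin_to
  have hN : IsNoetherian (Po κ 4) (R' ⧸ J') := isNoetherian_of_isNoetherianRing_of_finite _ _
  let g : (R ⧸ J) →ₗ[Po κ 4] (R' ⧸ J') :=
    { toFun := Ideal.Quotient.lift J ((Ideal.Quotient.mk J').comp f)
        fun x hx => Ideal.Quotient.eq_zero_iff_mem.2 ((hJ x).2 hx)
      map_add' := map_add _
      map_smul' := by
        intro a x
        obtain ⟨x, rfl⟩ := Ideal.Quotient.mk_surjective x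
        rw [smA]
        show Ideal.Quotient.mk J' (f (ψ a * x)) = a • Ideal.Quotient.mk J' (f x)
        rw [smA, map_mul, hf] }
  refine Module.Finite.of_injective g ?_
  rw [injective_iff_map_eq_zero]
  intro x hx
  obtain ⟨x, rfl⟩ := Ideal.Quotient.mk_surjective x
  have h1 : Ideal.Quotient.mk J' (f x) = 0 := hx
  rw [Ideal.Quotient.eq_zero_iff_mem] at h1 ⊢
  exact (hJ x).1 h1

end ext

lemma lat_F {F : Type} [Field F] (z' : Fin 4 → MvPolynomial (Fin (N + 1)) F) (m : ℕ) :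
    ∃ (d : ℕ) (e : Fin d → MvPolynomial (Fin (N + 1)) F),
      Module.finrank F (qgr (I F) m) = d ∧ (∀ i, PF F m (e i) = e i) ∧
      (∀ a : Fin d → F, ∑ i, psF z' (C (a i)) * e i ∈ I F → ∀ i, a i = 0) ∧
      (∀ y, PF F m y = y → ∃ a : Fin d → F, y - ∑ i, psF z' (C (a i)) * e i ∈ I F) := by
  have hfin : Module.Finite F (qgr (I F) m) :=
    Module.Finite.iff_fg.2 ((homogeneousSubmodule_fg (Fin (N + 1)) F m).map _)
  let bas := Module.finBasis F (qgr (I F) m)
  have hC : ∀ a : F, psF z' (C a) = C a := by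
    intro a
    show aeval z' (C a) = C a
    rw [aeval_C]
    rfl
  have h1 : ∀ i, ∃ e : MvPolynomial (Fin (N + 1)) F, e.IsHomogeneous m ∧
      Ideal.Quotient.mk (I F) e = (bas i : MvPolynomial (Fin (N + 1)) F ⧸ I F) := by
    intro i
    obtain ⟨e, he, he2⟩ := (bas i).2
    exact ⟨e, he, he2⟩
  choose e he he2 using h1
  have hsum : ∀ a : Fin (Module.finrank F (qgr (I F) m)) → F,
      Ideal.Quotient.mk (I F) (∑ i, psF z' (C (a i)) * e i) =
        ((∑ i, a i • bas i : qgr (I F) m) : MvPolynomial (Fin (N + 1)) F ⧸ I F) := by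
    intro a
    rw [AddSubmonoidClass.coe_finset_sum, map_sum]
    refine Finset.sum_congr rfl fun i _ => ?_
    rw [hC, Submodule.coe_smul, ← he2, ← MvPolynomial.smul_eq_C_mul]
    rfl
  refine ⟨_, e, rfl, ?_, ?_, ?_⟩
  · intro i
    have h2 := homogeneousComponent_of_mem (m := m) (he i)
    rw [if_pos rfl] at h2
    exact h2
  · intro a ha
    rw [← Ideal.Quotient.eq_zero_iff_mem, hsum] at ha
    have h3 : ∑ i, a i • bas i = 0 := Subtype.ext ha
    exact Fintype.linearIndependent_iff.1 bas.linearIndependent a h3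
  · intro y hy
    have hy2 : y ∈ homogeneousSubmodule (Fin (N + 1)) F m := by
      rw [← hy]
      exact homogeneousComponent_mem m y
    have h3 : Ideal.Quotient.mk (I F) y ∈ qgr (I F) m := ⟨y, hy2, rfl⟩
    refine ⟨fun i => bas.repr ⟨_, h3⟩ i, ?_⟩
    rw [← Ideal.Quotient.eq, hsum, bas.sum_repr]

end HIB_

open HIB_ in
theorem HIB_proof (hFID : Stmt_Fid) (_hNZD : Stmt_Nzd) (hLFK : Stmt_Lfk) (_hGSS : Stmt_Gss)
    (_hHOMA : FRM.Stmt_HomA) (hGRO : GML.Stmt_GRO) (hHMB : Stmt_Hmb) (hPRI : XV.Stmt_Pri) :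
    Stmt_Hib := by
  intro p J E K _ V F _ c σ t ϖ P z B _ _ φ ℬ _ h n b r hbas
  have hdom : IsDomain B := h.dom
  have hdvr : IsDiscreteValuationRing V := h.base.dvr
  have hprime : (I F).IsPrime := (hPRI F).1
  have hH : ∀ b ∈ Sb V φ, ∀ n, GradedAlgebra.proj ℬ n b ∈ Sb V φ :=
    fun b hb n => hHMB K V B φ ℬ h.deg b hb n
  have hz : ∀ i, (z i).IsHomogeneous 1 := h.base.close.z_hom
  let z' : Fin 4 → MvPolynomial (Fin (N + 1)) F := fun j => MvPolynomial.map σ (z j)
  have hz' : ∀ i, (z' i).IsHomogeneous 1 := fun i => (hz i).map σ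
  let J₁ : Ideal (Sb V φ) := Ideal.span {algebraMap V (Sb V φ) ϖ}
  let f : MvPolynomial (Fin (N + 1)) F →+* Sb V φ :=
    (lfb V φ c).codRestrict (Sb V φ) fun q => lfb_mem V c φ q
  have hf : ∀ q, f (psF z' q) = psS V c φ z' q := fun q => rfl
  have hJ : ∀ x, f x ∈ J₁ ↔ x ∈ I F := by
    intro x
    exact (mem_JS V φ ϖ (f x)).trans (hLFK p J E K V F c σ t ϖ P z B φ ℬ h x)
  have hfin₁ : FinX (psS V c φ z') J₁ := by
    obtain ⟨-, ⟨m, b, hb, hgen⟩, -⟩ := hFID p J E K V F c σ t ϖ P z B φ ℬ h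
    refine ⟨m, fun i => ⟨b i, hb i⟩, fun y => ?_⟩
    obtain ⟨q, hq⟩ := hgen y y.2
    refine ⟨q, (mem_JS V φ ϖ _).2 ?_⟩
    have h1 : ((y - ∑ i, psS V c φ z' (q i) * (⟨b i, hb i⟩ : Sb V φ) : Sb V φ) : B) =
        (y : B) - ∑ i, lfb V φ c (aeval z' (q i)) * b i := by
      show (y : B) - ((∑ i, psS V c φ z' (q i) * (⟨b i, hb i⟩ : Sb V φ) : Sb V φ) : B) = _
      rw [AddSubmonoidClass.coe_finset_sum]
      rfl
    rw [h1]
    exact hq
  have hfin₂ : FinX (psF z') (I F) :=
    fin_inj (psF z') (I F) (psS V c φ z') J₁ f hf hJ hfin₁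
  obtain ⟨d, u, a, ha, hu, hugen⟩ := rank_ext (psF z') (I F) hfin₂
  obtain ⟨a', w, ha', hw⟩ := dvd_ext (psF z') (I F) hprime hfin₂ r hbas.r_nz
  -- the growth of the coordinate ring of `X`
  obtain ⟨C₂, hC₂⟩ := growth (psF z') (I F) (PF F) hGRO (PD_F hPRI z' hz') hfin₂ u hu a ha hugen
  -- the family of the integral model
  let b' : Fin n → Sb V φ := fun i => ⟨b i, hbas.mem i⟩
  let u₁ : Fin n × Fin d → Sb V φ := fun x => f (u x.2) * b' x.1
  have hsum : ∀ q : Fin n × Fin d → Po F 4, ∑ x, psS V c φ z' (q x) * u₁ x =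
      ∑ i, f (∑ j, psF z' (q (i, j)) * u j) * b' i := by
    intro q
    rw [Fintype.sum_prod_type]
    refine Finset.sum_congr rfl fun i _ => ?_
    rw [map_sum, Finset.sum_mul]
    refine Finset.sum_congr rfl fun j _ => ?_
    rw [map_mul, hf, mul_assoc]
  have hu₁ : ∀ q : Fin n × Fin d → Po F 4, ∑ x, psS V c φ z' (q x) * u₁ x ∈ J₁ → ∀ x, q x = 0 := by
    intro q hq
    rw [hsum] at hq
    have h1 := (mem_JS V φ ϖ _).1 hq
    rw [AddSubmonoidClass.coe_finset_sum] at h1
    have h2 := hbas.ind (fun i => ∑ j, psF z' (q (i, j)) * u j) h1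
    rintro ⟨i, j⟩
    exact hu (fun j => q (i, j)) (h2 i) j
  have hgen₁ : ∀ y, ∃ q : Fin n × Fin d → Po F 4,
      psS V c φ z' (a * a') * y - ∑ x, psS V c φ z' (q x) * u₁ x ∈ J₁ := by
    intro y
    obtain ⟨q, hq⟩ := hbas.gen y y.2
    choose t ht using fun i => hugen (w * q i)
    refine ⟨fun x => t x.1 x.2, ?_⟩
    rw [hsum]
    have h1 : f r * y - ∑ i, f (q i) * b' i ∈ J₁ := by
      rw [mem_JS]
      have h2 : ((f r * y - ∑ i, f (q i) * b' i : Sb V φ) : B) =
          lfb V φ c r * (y : B) - ∑ i, lfb V φ c (q i) * b i := by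
        show (lfb V φ c r * (y : B)) - ((∑ i, f (q i) * b' i : Sb V φ) : B) = _
        rw [AddSubmonoidClass.coe_finset_sum]
        rfl
      rw [h2]
      exact hq
    have h2 : f (psF z' a' - w * r) ∈ J₁ := (hJ _).2 hw
    have h3 : ∀ i, f (psF z' a * (w * q i) - ∑ j, psF z' (t i j) * u j) * b' i ∈ J₁ :=
      fun i => J₁.mul_mem_right _ ((hJ _).2 (ht i))
    have h4 : psS V c φ z' (a * a') * y - ∑ i, f (∑ j, psF z' (t i j) * u j) * b' i =
        f (psF z' a) * y * f (psF z' a' - w * r) +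
        f (psF z' a) * f w * (f r * y - ∑ i, f (q i) * b' i) +
        ∑ i, f (psF z' a * (w * q i) - ∑ j, psF z' (t i j) * u j) * b' i := by
      have h5 : ∑ i, f (psF z' a * (w * q i) - ∑ j, psF z' (t i j) * u j) * b' i =
          f (psF z' a) * f w * (∑ i, f (q i) * b' i) -
            ∑ i, f (∑ j, psF z' (t i j) * u j) * b' i := by
        rw [Finset.mul_sum, ← Finset.sum_sub_distrib]
        refine Finset.sum_congr rfl fun i _ => ?_
        rw [map_sub, map_mul, map_mul]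
        ring
      rw [h5, map_mul, ← hf, ← hf, map_sub, map_mul]
      ring
    rw [h4]
    exact J₁.add_mem (J₁.add_mem (J₁.mul_mem_left _ h2) (J₁.mul_mem_left _ h1))
      (J₁.sum_mem fun i _ => h3 i)
  obtain ⟨C₁, hC₁⟩ := growth (psS V c φ z') J₁ (PS V φ ℬ hH) hGRO
    (PD_S V c φ ℬ h.deg hH ϖ z' hz') hfin₁ u₁ hu₁ (a * a') (mul_ne_zero ha ha') hgen₁
  have hlat := fun m => lattice V φ ℬ c σ ϖ hdvr h.base.irr h.base.sec h.base.ker h.intB hH z' m
    (Lm_fg V φ ℬ hdvr h.deg z hz h.finS m)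
  refine ⟨fun m => (hlat m).1, C₁ + n * C₂, fun m => ?_⟩
  obtain ⟨-, d₁, e₁, hd₁, h11, h12, h13⟩ := hlat m
  obtain ⟨d₂, e₂, hd₂, h21, h22, h23⟩ := lat_F z' m
  have h1 := hC₁ m d₁ e₁ h11 h12 h13
  have h2 := hC₂ m d₂ e₂ h21 h22 h23
  rw [hd₁, hd₂]
  rw [Fintype.card_prod, Fintype.card_fin, Fintype.card_fin] at h1
  rw [Fintype.card_fin] at h2
  have h3 : (d₁ : ℤ) - n * d₂ = ((d₁ : ℤ) - ((n * d : ℕ) : ℤ) * ((m + 3).choose 3 : ℕ)) -
      n * ((d₂ : ℤ) - d * ((m + 3).choose 3 : ℕ)) := by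
    push_cast
    ring
  rw [h3]
  refine (abs_sub _ _).trans ?_
  rw [abs_mul, Nat.abs_cast]
  have h4 : (n : ℤ) * |(d₂ : ℤ) - d * ((m + 3).choose 3 : ℕ)| ≤ n * (C₂ * ((m : ℤ) + 1) ^ 2) :=
    mul_le_mul_of_nonneg_left h2 (Int.natCast_nonneg n)
  refine (add_le_add h1 h4).trans (le_of_eq ?_)
  push_cast
  ring

end Pool.Agent.XB
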