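import Pool.Agent.XB.StmtsB

/-!
# XB / HIX: the Hilbert function of `X`
-/

set_option autoImplicit false

noncomputable section

namespace Pool.Agent.XB

open scoped Classical
open MvPolynomial Pool.Agent.FRM Pool.Agent.XV Pool.Agent.GML

namespace HIX_

section homog

attribute [local instance] MvPolynomial.gradedAlgebra

lemma homog_iff {k : Type} [CommRing k] {σ : Type} (P : Ideal (MvPolynomial σ k)) :
    Homog P ↔ P.IsHomogeneous (homogeneousSubmodule σ k) := by
  constructor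
  · intro h m F hF
    have h1 := h F hF m
    rw [← decomposition.decompose'_apply] at h1
    exact h1
  · intro h F hF m
    exact homogeneousComponent_mem_of_mem h hF m

lemma homog_sup_span {k : Type} [CommRing k] {σ : Type} (I : Ideal (MvPolynomial σ k)) (hI : Homog I)
    (z : Set (MvPolynomial σ k)) (hz : ∀ f ∈ z, f.IsHomogeneous 1) :
    Homog (I ⊔ Ideal.span z) := by
  rw [homog_iff] at hI ⊢
  refine Ideal.IsHomogeneous.sup hI (Ideal.homogeneous_span _ _ ?_)
  intro f hf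
  exact ⟨1, hz f hf⟩

end homog

lemma lin_hom {k : Type} [CommRing k] {N : ℕ} (c : Fin (N + 1) → k) :
    (∑ i, C (c i) * X i : MvPolynomial (Fin (N + 1)) k).IsHomogeneous 1 := by
  refine IsHomogeneous.sum _ _ _ (fun i _ => ?_)
  have := (isHomogeneous_C (Fin (N + 1)) (c i)).mul (isHomogeneous_X k i)
  rwa [zero_add] at this

/-- a vector outside of finitely many proper subspaces -/
lemma exists_avoid {k E : Type} [Field k] [Infinite k] [AddCommGroup E] [Module k E]
    (T : Set (Submodule k E)) (hT : T.Finite) (h : ∀ S ∈ T, S ≠ ⊤) : ∃ c : E, ∀ S ∈ T, c ∉ S := by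
  have h1 := Subspace.biUnion_ne_univ_of_top_notMem (k := k) (E := E) (s := hT.toFinset)
    (fun h2 => h ⊤ (hT.mem_toFinset.1 h2) rfl)
  rw [Set.ne_univ_iff_exists_notMem] at h1
  obtain ⟨c, hc⟩ := h1
  refine ⟨c, fun S hS hcS => hc ?_⟩
  simp only [Set.mem_iUnion]
  exact ⟨S, hT.mem_toFinset.2 hS, hcS⟩

/-- four linear forms without common zero on `X` -/
lemma forms (hDIM : XV.Stmt_Dim) (hPRI : XV.Stmt_Pri) (hLZA : FRM.Stmt_Lza)
    (hLZE : FRM.Stmt_Lze) (F : Type) [Field F] [IsAlgClosed F] :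
    ∃ h : Fin 4 → MvPolynomial (Fin (N + 1)) F, (∀ i, (h i).IsHomogeneous 1) ∧
      ∀ j, ∃ n : ℕ, (X j : MvPolynomial (Fin (N + 1)) F) ^ n ∈
        Ideal.span (Set.range h) ⊔ I F := by
  have : Infinite F := IsAlgClosed.instInfinite
  have hJ : Homog (I F) := fun f hf m => (hPRI F).2 f hf m
  have key : ∀ s : ℕ, s ≤ 4 → ∃ c : Fin s → (Fin (N + 1) → F),
      ringKrullDim (MvPolynomial (Fin (N + 1)) F ⧸
        (I F ⊔ Ideal.span (Set.range fun i => (∑ l, C (c i l) * X l :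
          MvPolynomial (Fin (N + 1)) F)))) ≤ ((4 - s : ℕ) : WithBot ℕ∞) := by
    intro s
    induction s with
    | zero =>
      intro _
      refine ⟨fun i => i.elim0, ?_⟩
      have h1 : (Set.range fun i : Fin 0 =>
          (∑ l, C ((i.elim0 : Fin (N + 1) → F) l) * X l : MvPolynomial (Fin (N + 1)) F)) = ∅ :=
        Set.range_eq_empty _
      rw [h1, Ideal.span_empty, sup_bot_eq, hDIM F]
      rfl
    | succ s ih =>
      intro hs
      obtain ⟨c, hc1⟩ := ih (by omega)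
      have hds : 4 - s = (3 - s) + 1 := by omega
      rw [hds] at hc1
      obtain ⟨T, hT, hT1, hT2⟩ := hLZA F N (3 - s) _
        (homog_sup_span (I F) hJ _ (by rintro _ ⟨i, rfl⟩; exact lin_hom (c i))) hc1
      obtain ⟨c', hc'⟩ := exists_avoid T hT hT1
      refine ⟨Fin.snoc c c', ?_⟩
      have h1 := hT2 c' hc'
      have h2 : (Set.range fun i : Fin (s + 1) =>
          (∑ l, C ((Fin.snoc c c' : Fin (s + 1) → (Fin (N + 1) → F)) i l) * X l :
            MvPolynomial (Fin (N + 1)) F)) =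
          (Set.range fun i => (∑ l, C (c i l) * X l : MvPolynomial (Fin (N + 1)) F)) ∪
            {∑ l, C (c' l) * X l} := by
        ext G
        constructor
        · rintro ⟨i, rfl⟩
          refine Fin.lastCases ?_ (fun i => ?_) i
          · right
            simp
          · left
            exact ⟨i, by simp⟩
        · rintro (⟨i, rfl⟩ | h)
          · exact ⟨i.castSucc, by simp⟩
          · rw [Set.mem_singleton_iff] at h
            exact ⟨Fin.last s, by simp [h]⟩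
      rw [h2, Ideal.span_union, ← sup_assoc]
      have h3 : 4 - (s + 1) = 3 - s := by omega
      rw [h3]
      exact h1
  obtain ⟨c, hc⟩ := key 4 le_rfl
  rw [Nat.sub_self, Nat.cast_zero] at hc
  refine ⟨fun i => ∑ l, C (c i l) * X l, fun i => lin_hom (c i), ?_⟩
  have h := hLZE F N _ (homog_sup_span (I F) hJ _
    (by rintro _ ⟨i, rfl⟩; exact lin_hom (c i))) hc
  intro j
  obtain ⟨n, hn⟩ := h j
  rw [sup_comm] at hn
  exact ⟨n, hn⟩

lemma choose3 (m : ℕ) : 6 * ((m + 2 + 1).choose (2 + 1)) = (m + 1) * (m + 2) * (m + 3) := by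
  have h := Nat.descFactorial_eq_factorial_mul_choose (m + 2 + 1) (2 + 1)
  have h1 : (2 + 1).factorial = 6 := rfl
  rw [h1] at h
  rw [← h]
  simp only [Nat.descFactorial]
  have a1 : m + 2 + 1 - 0 = m + 3 := by omega
  have a2 : m + 2 + 1 - 1 = m + 2 := by omega
  have a3 : m + 2 + 1 - 2 = m + 1 := by omega
  rw [a1, a2, a3]
  ring

lemma arith (a v : ℤ) (C m ch : ℕ) (hv : 0 ≤ v)
    (hch : 6 * ch = (m + 1) * (m + 2) * (m + 3)) (h : |a - v * ch| ≤ C * ((m : ℤ) + 1) ^ 2) :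
    |6 * a - v * (m : ℤ) ^ 3| ≤ (6 * C + 11 * v) * ((m : ℤ) + 1) ^ 2 := by
  have h1 : (6 : ℤ) * ch = (m + 1) * (m + 2) * (m + 3) := by exact_mod_cast hch
  have h2 := abs_le.1 h
  have h3 : v * (6 * (ch : ℤ)) = v * ((m + 1) * (m + 2) * (m + 3)) := by rw [h1]
  have h4 : 0 ≤ v * ((m : ℤ) * 11 + 5 * m ^ 2 + 5) := by positivity
  have h5 : 0 ≤ v * ((m : ℤ) * 11 + 6 * m ^ 2 + 6) := by positivity
  rw [abs_le]
  constructor
  · nlinarith [h2.1, h2.2]
  · nlinarith [h2.1, h2.2]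

end HIX_

open HIX_ in
theorem HIX_proof (hDIM : XV.Stmt_Dim) (hPRI : XV.Stmt_Pri) (hFNH : Stmt_Fnh) (hQGR : Stmt_Qgr)
    (hLZA : FRM.Stmt_Lza) (hLZE : FRM.Stmt_Lze) (hGRO : GML.Stmt_GRO) : Stmt_Hix := by
  intro F _ _
  obtain ⟨h, hh, hX⟩ := forms hDIM hPRI hLZA hLZE F
  obtain ⟨T, hT⟩ := hFNH F (N + 1) 4 (I F) (hPRI F).2 h hh hX
  obtain ⟨hgr⟩ := hQGR F (I F) (hPRI F).2
  let D : Type := MvPolynomial (Fin (N + 1)) F ⧸ I F
  let φ : MvPolynomial (Fin 4) F →ₐ[F] D := (Ideal.Quotient.mkₐ F (I F)).comp (aeval h)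
  let _ : Algebra (MvPolynomial (Fin 4) F) D := φ.toRingHom.toAlgebra
  have _ : IsScalarTower F (MvPolynomial (Fin 4) F) D :=
    IsScalarTower.of_algebraMap_eq fun x => (φ.commutes x).symm
  have hX1 : ∀ i, algebraMap (MvPolynomial (Fin 4) F) D (X i) ∈ qgr (I F) 1 := by
    intro i
    refine ⟨h i, hh i, ?_⟩
    change Ideal.Quotient.mk (I F) (h i) = φ (X i)
    change _ = Ideal.Quotient.mk (I F) (aeval h (X i))
    rw [aeval_X]
  let M : GMod F 4 := DIL.ofAlg (qgr (I F)) hX1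
  have hfin : Module.Finite (MvPolynomial (Fin 4) F) D := by
    refine ⟨⟨T.image (Ideal.Quotient.mk (I F)), ?_⟩⟩
    rw [eq_top_iff]
    rintro x -
    obtain ⟨G, rfl⟩ := Ideal.Quotient.mk_surjective x
    obtain ⟨q, hq⟩ := hT G
    rw [← Ideal.Quotient.eq_zero_iff_mem, map_sub, sub_eq_zero] at hq
    rw [hq, map_sum]
    refine Submodule.sum_mem _ fun m hm => ?_
    rw [map_mul]
    have h1 : Ideal.Quotient.mk (I F) (aeval h (q m)) * Ideal.Quotient.mk (I F) m =
        (q m) • (Ideal.Quotient.mk (I F) m : D) := by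
      rw [Algebra.smul_def]
      rfl
    rw [h1]
    exact Submodule.smul_mem _ _ (Submodule.subset_span
      (Finset.mem_coe.2 (Finset.mem_image_of_mem _ hm)))
  obtain ⟨-, -, C, hC⟩ := hGRO F 2 M hfin
  refine ⟨Module.finrank (MvPolynomial (Fin 4) F) D,
    6 * C + 11 * Module.finrank (MvPolynomial (Fin 4) F) D, fun m => ?_⟩
  have h1 := hC m
  have h2 : M.gr (m : ℤ) = qgr (I F) m := DIL.ext_natCast (𝒟 := qgr (I F)) m
  rw [h2] at h1
  have h3 := arith (Module.finrank F (qgr (I F) m)) (Module.finrank (MvPolynomial (Fin 4) F) D)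
    C m ((m + 2 + 1).choose (2 + 1)) (by positivity) (choose3 m) h1
  push_cast
  exact h3

end Pool.Agent.XB
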