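import Pool.Agent.XB.StmtsB

/-!
# XB, module HMB: the integral model is homogeneous
-/

set_option autoImplicit false

noncomputable section

namespace Pool.Agent.XB

open scoped Classical
open MvPolynomial Pool.Agent.FRM Pool.Agent.XV Pool.Agent.GML

namespace HMB_

section
variable {K B : Type} [Field K] [CommRing B] [Algebra K B] (ℬ : ℕ → Submodule K B)
  [GradedAlgebra ℬ]

/-- `∑ b_n ↦ ∑ b_n T ^ n` on the direct sum -/
def lam0 : (DirectSum ℕ fun i => ℬ i) →+* Polynomial B :=
  DirectSum.toSemiring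
    (fun i => ((Polynomial.monomial i).toAddMonoidHom.comp (ℬ i).subtype.toAddMonoidHom :
      ℬ i →+ Polynomial B))
    (by
      show Polynomial.monomial 0 (1 : B) = 1
      rfl)
    (by
      intro i j a b
      show Polynomial.monomial (i + j) ((a : B) * b) =
        Polynomial.monomial i (a : B) * Polynomial.monomial j (b : B)
      rw [Polynomial.monomial_mul_monomial])

/-- `∑ b_n ↦ ∑ b_n T ^ n` -/
def lam : B →+* Polynomial B :=
  (lam0 ℬ).comp (DirectSum.decomposeRingEquiv ℬ).toRingHom

theorem lam_of_mem {i : ℕ} {b : B} (hb : b ∈ ℬ i) : lam ℬ b = Polynomial.monomial i b := by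
  show lam0 ℬ (DirectSum.decompose ℬ b) = _
  rw [DirectSum.decompose_of_mem ℬ hb]
  unfold lam0
  rw [DirectSum.toSemiring_of]
  rfl

theorem lam_coeff (b : B) (n : ℕ) : (lam ℬ b).coeff n = GradedAlgebra.proj ℬ n b := by
  classical
  induction b using DirectSum.Decomposition.inductionOn ℬ with
  | zero => rw [map_zero, Polynomial.coeff_zero, map_zero]
  | homogeneous m =>
    rename_i i
    rw [lam_of_mem ℬ m.2, Polynomial.coeff_monomial, GradedAlgebra.proj_apply]
    split_ifs with h
    · subst h
      rw [DirectSum.decompose_of_mem_same ℬ m.2]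
    · rw [DirectSum.decompose_of_mem_ne ℬ m.2 h]
  | add m m' h h' => rw [map_add, Polynomial.coeff_add, h, h', map_add]

end

variable {K : Type} [Field K] (V : ValuationSubring K) {B : Type} [CommRing B]
    [Algebra K B] (φ : MvPolynomial (Fin (N + 1)) K →ₐ[K] B) (ℬ : ℕ → Submodule K B)
    [GradedAlgebra ℬ]

/-- `F(x) ↦ F(x T)` on `V[x]` -/
def th : MvPolynomial (Fin (N + 1)) V →+* Polynomial (MvPolynomial (Fin (N + 1)) V) :=
  MvPolynomial.eval₂Hom (Polynomial.C.comp MvPolynomial.C)
    (fun i => Polynomial.C (X i) * Polynomial.X)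

theorem th_vB (h : ∀ i, φ (X i) ∈ ℬ 1) :
    (lam ℬ).comp (vB V φ) = (Polynomial.mapRingHom (vB V φ)).comp (th V) := by
  refine MvPolynomial.ringHom_ext ?_ ?_
  · intro a
    have h1 : vB V φ (C a) = algebraMap K B a := by
      simp only [vB, RingHom.comp_apply, MvPolynomial.map_C]
      exact φ.commutes _
    have h2 : algebraMap K B a ∈ ℬ 0 := SetLike.algebraMap_mem_graded ℬ _
    have h3 : th V (C a) = Polynomial.C (C a) := by
      unfold th
      rw [coe_eval₂Hom, eval₂_C]
      rfl
    rw [RingHom.comp_apply, RingHom.comp_apply, h3, Polynomial.coe_mapRingHom, Polynomial.map_C,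
      h1, lam_of_mem ℬ h2]
    rfl
  · intro i
    have h1 : vB V φ (X i) = φ (X i) := by
      simp only [vB, RingHom.comp_apply, MvPolynomial.map_X]
      rfl
    have h3 : th V (X i) = Polynomial.C (X i) * Polynomial.X := by
      unfold th
      rw [coe_eval₂Hom, eval₂_X]
    rw [RingHom.comp_apply, RingHom.comp_apply, h3, Polynomial.coe_mapRingHom, Polynomial.map_mul,
      Polynomial.map_C, Polynomial.map_X, h1, lam_of_mem ℬ (h i),
      ← Polynomial.C_mul_X_pow_eq_monomial, pow_one]

end HMB_

attribute [local instance] Polynomial.algebra in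
theorem HMB_proof : Stmt_Hmb := by
  intro K _ V B _ _ _ φ ℬ _ hX b hb n
  let _ : Algebra (MvPolynomial (Fin (N + 1)) V) B := (vB V φ).toAlgebra
  obtain ⟨f, hf, hf0⟩ := hb
  have key : IsIntegral (Polynomial (MvPolynomial (Fin (N + 1)) V)) (HMB_.lam ℬ b) := by
    refine ⟨f.map (HMB_.th V), hf.map _, ?_⟩
    have h1 : algebraMap (Polynomial (MvPolynomial (Fin (N + 1)) V)) (Polynomial B) =
        Polynomial.mapRingHom (vB V φ) := rfl
    rw [h1, Polynomial.eval₂_map, ← HMB_.th_vB V φ ℬ hX, ← Polynomial.hom_eval₂, hf0, map_zero]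
  have h2 := key.coeff n
  rw [HMB_.lam_coeff] at h2
  exact h2

end Pool.Agent.XB

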