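import Pool.Agent.XB.Stmts

/-!
# XB: LNF, linear forms without common zero on the surface
-/

set_option autoImplicit false

noncomputable section

namespace Pool.Agent.XB

open scoped Classical
open MvPolynomial Pool.Agent.FRM Pool.Agent.XV Pool.Agent.GML

namespace LNF_

section homog

attribute [local instance] MvPolynomial.gradedAlgebra

lemma homog_iff {k : Type} [CommRing k] {σ : Type} (P : Ideal (MvPolynomial σ k)) :
    Homog P ↔ P.IsHomogeneous (homogeneousSubmodule σ k) := by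
  constructor
  · intro h m F hF
    have h1 := h F hF m
    rw [← decomposition.decompose'_apply] at h1
    exact h1
  · intro h F hF m
    exact homogeneousComponent_mem_of_mem h hF m

lemma homog_sup_span {k : Type} [CommRing k] {σ : Type} (I : Ideal (MvPolynomial σ k)) (hI : Homog I)
    (z : Set (MvPolynomial σ k)) (hz : ∀ f ∈ z, f.IsHomogeneous 1) :
    Homog (I ⊔ Ideal.span z) := by
  rw [homog_iff] at hI ⊢
  refine Ideal.IsHomogeneous.sup hI (Ideal.homogeneous_span _ _ ?_)
  intro f hf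
  exact ⟨1, hz f hf⟩

end homog

lemma lin_hom {k : Type} [CommRing k] {N : ℕ} (c : Fin (N + 1) → k) :
    (∑ i, C (c i) * X i : MvPolynomial (Fin (N + 1)) k).IsHomogeneous 1 := by
  refine IsHomogeneous.sum _ _ _ (fun i _ => ?_)
  have := (isHomogeneous_C (Fin (N + 1)) (c i)).mul (isHomogeneous_X k i)
  rwa [zero_add] at this

/-- a vector outside of finitely many proper subspaces -/
lemma exists_avoid {k E : Type} [Field k] [Infinite k] [AddCommGroup E] [Module k E]
    (T : Set (Submodule k E)) (hT : T.Finite) (h : ∀ S ∈ T, S ≠ ⊤) : ∃ c : E, ∀ S ∈ T, c ∉ S := by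
  have h1 := Subspace.biUnion_ne_univ_of_top_notMem (k := k) (E := E) (s := hT.toFinset)
    (fun h2 => h ⊤ (hT.mem_toFinset.1 h2) rfl)
  rw [Set.ne_univ_iff_exists_notMem] at h1
  obtain ⟨c, hc⟩ := h1
  refine ⟨c, fun S hS hcS => hc ?_⟩
  simp only [Set.mem_iUnion]
  exact ⟨S, hT.mem_toFinset.2 hS, hcS⟩

lemma br2_ne (F : Type) [Field F] (i j : Fin 5) (h : i ≠ j) : br2 F i j ≠ 0 := by
  intro h0
  have h1 := congrArg (aeval (R := F) (S₁ := F) fun v => match v with
    | .a l => if l = i then (1 : F) else 0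
    | .b l => if l = j then (1 : F) else 0
    | .u => 0
    | .T => 0) h0
  simp [br2, h, h.symm] at h1

lemma cm_ne (F : Type) [Field F] (c : Pt) : cm F c ≠ 0 := by
  unfold cm mon
  refine mul_ne_zero (mul_ne_zero (pow_ne_zero _ (X_ne_zero _)) (pow_ne_zero _ (X_ne_zero _)))
    (Finset.prod_ne_zero_iff.2 fun k _ => pow_ne_zero _ (br2_ne F _ _ ?_))
  revert k
  decide

lemma xc_notMem (F : Type) [Field F] (c : Pt) : xc F c ∉ I F := by
  intro h
  have h1 : cx F (xc F c) = 0 := h
  rw [cx_xc] at h1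
  exact cm_ne F c h1

lemma ex_pt (g : Option (Fin 10)) : ∃ c, 0 < ordG g c := by
  refine ⟨cG g, ?_⟩
  cases g with
  | none => exact Nat.one_pos
  | some k =>
    show 0 < cGe k k
    simp [cGe]

lemma homog_JI (hPRI : XV.Stmt_Pri) (F : Type) [Field F] (g : Option (Fin 10)) :
    Homog (JI F g) := by
  unfold JI Jg
  rw [sup_comm]
  refine homog_sup_span _ (fun f hf m => (hPRI F).2 f hf m) _ ?_
  rintro _ ⟨c, _, rfl⟩
  exact isHomogeneous_X F _

lemma dim_gen (A : Type) [CommRing A] (P J : Ideal A) (hP : P.IsPrime) (hPJ : P ≤ J) (a : A)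
    (ha : a ∈ J) (haP : a ∉ P) (n : ℕ) (hdim : ringKrullDim (A ⧸ P) ≤ ((n + 1 : ℕ) : WithBot ℕ∞)) :
    ringKrullDim (A ⧸ J) ≤ (n : ℕ) := by
  have hx0 : Ideal.Quotient.mk P a ∈ nonZeroDivisors (A ⧸ P) := by
    rw [mem_nonZeroDivisors_iff_ne_zero]
    intro h
    exact haP (Ideal.Quotient.eq_zero_iff_mem.1 h)
  have h1 := ringKrullDim_quotient_succ_le_of_nonZeroDivisor hx0
  have hker : ∀ b ∈ Ideal.span {Ideal.Quotient.mk P a}, Ideal.Quotient.factor hPJ b = 0 := by
    intro b hb
    obtain ⟨b', rfl⟩ := Ideal.mem_span_singleton'.1 hb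
    rw [map_mul, Ideal.Quotient.factor_mk, Ideal.Quotient.eq_zero_iff_mem.2 ha, mul_zero]
  have h2 := ringKrullDim_le_of_surjective
    (Ideal.Quotient.lift (Ideal.span {Ideal.Quotient.mk P a}) (Ideal.Quotient.factor hPJ) hker)
    (Ideal.Quotient.lift_surjective_of_surjective _ _ (Ideal.Quotient.factor_surjective hPJ))
  refine h2.trans ?_
  have h3 : ringKrullDim ((A ⧸ P) ⧸ Ideal.span {Ideal.Quotient.mk P a}) + 1 ≤
      ((n : ℕ) : WithBot ℕ∞) + 1 := by
    refine (h1.trans hdim).trans (le_of_eq ?_)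
    push_cast
    rfl
  exact (ENat.WithBot.add_le_add_one_right_iff).1 h3

lemma dim_JI (hDIM : XV.Stmt_Dim) (hPRI : XV.Stmt_Pri) (F : Type) [Field F]
    (g : Option (Fin 10)) :
    ringKrullDim (MvPolynomial (Fin (N + 1)) F ⧸ JI F g) ≤ (3 : ℕ) := by
  obtain ⟨c, hc⟩ := ex_pt g
  refine dim_gen (MvPolynomial (Fin (N + 1)) F) (I F) (JI F g) (hPRI F).1 le_sup_right (xc F c)
    (Ideal.mem_sup_left (Ideal.subset_span ⟨c, hc, rfl⟩)) (xc_notMem F c) 3 ?_
  rw [hDIM F]
  norm_num

end LNF_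

open LNF_ in
theorem LNF_proof (hDIM : XV.Stmt_Dim) (hPRI : XV.Stmt_Pri) (hLZA : FRM.Stmt_Lza)
    (hLZE : FRM.Stmt_Lze) : Stmt_Lnf := by
  intro F _ _ g
  have : Infinite F := IsAlgClosed.instInfinite
  have hJ := homog_JI hPRI F g
  have key : ∀ s : ℕ, s ≤ 3 → ∃ c : Fin s → (Fin (N + 1) → F),
      ringKrullDim (MvPolynomial (Fin (N + 1)) F ⧸
        (JI F g ⊔ Ideal.span (Set.range fun i => (∑ l, C (c i l) * X l :
          MvPolynomial (Fin (N + 1)) F)))) ≤ ((3 - s : ℕ) : WithBot ℕ∞) := by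
    intro s
    induction s with
    | zero =>
      intro _
      refine ⟨fun i => i.elim0, ?_⟩
      have h1 : (Set.range fun i : Fin 0 =>
          (∑ l, C ((i.elim0 : Fin (N + 1) → F) l) * X l : MvPolynomial (Fin (N + 1)) F)) = ∅ :=
        Set.range_eq_empty _
      rw [h1, Ideal.span_empty, sup_bot_eq]
      exact dim_JI hDIM hPRI F g
    | succ s ih =>
      intro hs
      obtain ⟨c, hc1⟩ := ih (by omega)
      have hds : 3 - s = (2 - s) + 1 := by omega
      rw [hds] at hc1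
      obtain ⟨T, hT, hT1, hT2⟩ := hLZA F N (2 - s) _
        (homog_sup_span (JI F g) hJ _ (by rintro _ ⟨i, rfl⟩; exact lin_hom (c i))) hc1
      obtain ⟨c', hc'⟩ := exists_avoid T hT hT1
      refine ⟨Fin.snoc c c', ?_⟩
      have h1 := hT2 c' hc'
      have h2 : (Set.range fun i : Fin (s + 1) =>
          (∑ l, C ((Fin.snoc c c' : Fin (s + 1) → (Fin (N + 1) → F)) i l) * X l :
            MvPolynomial (Fin (N + 1)) F)) =
          (Set.range fun i => (∑ l, C (c i l) * X l : MvPolynomial (Fin (N + 1)) F)) ∪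
            {∑ l, C (c' l) * X l} := by
        ext G
        constructor
        · rintro ⟨i, rfl⟩
          refine Fin.lastCases ?_ (fun i => ?_) i
          · right
            simp
          · left
            exact ⟨i, by simp⟩
        · rintro (⟨i, rfl⟩ | h)
          · exact ⟨i.castSucc, by simp⟩
          · rw [Set.mem_singleton_iff] at h
            exact ⟨Fin.last s, by simp [h]⟩
      rw [h2, Ideal.span_union, ← sup_assoc]
      have h3 : 3 - (s + 1) = 2 - s := by omega
      rw [h3]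
      exact h1
  obtain ⟨c, hc⟩ := key 3 le_rfl
  rw [Nat.sub_self, Nat.cast_zero] at hc
  refine ⟨fun i => ∑ l, C (c i l) * X l, fun i => lin_hom (c i), ?_⟩
  have h := hLZE F N _ (homog_sup_span (JI F g) hJ _
    (by rintro _ ⟨i, rfl⟩; exact lin_hom (c i))) hc
  intro j
  obtain ⟨n, hn⟩ := h j
  rw [sup_comm] at hn
  exact ⟨n, hn⟩

end Pool.Agent.XB
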