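import Pool.Agent.XB.StmtsB
import Pool.Agent.XB.LNF
import Pool.Agent.XV.PRI

/-!
# XB: INX, the input of the dilatation
-/

set_option autoImplicit false

noncomputable section

namespace Pool.Agent.XB

open scoped Classical
open MvPolynomial Pool.Agent.FRM Pool.Agent.XV Pool.Agent.GML

namespace INX_

/-! ### Algebra -/

section alg

variable {S : Type} [CommRing S] {I : Ideal S} {ϖ e f : S}

/-- gluing over the charts `x q` -/
theorem glueG {Q : Type*} {x : Q → S} {h : S}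
    (hc : ∃ N : ℕ, h ^ N ∈ Ideal.span (Set.range x) ⊔ I) (J : Ideal S) {y : S}
    (hI : ∀ s ∈ I, s * y ∈ J)
    (hx : ∀ q, ∃ N : ℕ, x q ^ N * y ∈ J) : ∃ N : ℕ, h ^ N * y ∈ J := by
  let c : Ideal S := Submodule.comap (LinearMap.toSpanSingleton S S y) J
  have hmem : ∀ s, s ∈ c ↔ s * y ∈ J := fun s => Iff.rfl
  have h1 : Ideal.span (Set.range x) ⊔ I ≤ c.radical := by
    refine sup_le ?_ ?_
    · rw [Ideal.span_le]
      rintro _ ⟨q, rfl⟩
      obtain ⟨N, hN⟩ := hx q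
      exact ⟨N, hN⟩
    · refine le_trans ?_ Ideal.le_radical
      intro s hs
      exact hI s hs
  obtain ⟨N, hN⟩ := hc
  obtain ⟨M, hM⟩ := h1 hN
  rw [← pow_mul] at hM
  exact ⟨N * M, hM⟩

/-- local generators of the powers of the ideal -/
theorem loc_pow (hϖ : ϖ ∈ I) (he : e ∈ I)
    (hg : ∀ y ∈ I, ∃ (n : ℕ) (b w : S), f ^ n * y = b * e + ϖ * w) (a : ℕ) :
    ∀ y ∈ I ^ a, ∃ (n : ℕ) (α w : S), w ∈ I ^ (a - 1) ∧ f ^ n * y = α * e ^ a + ϖ * w := by
  induction a with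
  | zero =>
    intro y _
    exact ⟨0, y, 0, Ideal.zero_mem _, by ring⟩
  | succ a ih =>
    intro y hy
    rw [pow_succ'] at hy
    refine Submodule.mul_induction_on hy ?_ ?_
    · intro p hp q hq
      obtain ⟨n, b, w, h1⟩ := hg p hp
      obtain ⟨m, α, w', hw', h2⟩ := ih q hq
      have hle : I ^ (1 + (a - 1)) ≤ I ^ a := Ideal.pow_le_pow_right (by omega)
      have h3 : ∀ s ∈ I, s * w' ∈ I ^ a := by
        intro s hs
        refine hle ?_
        rw [pow_add, pow_one]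
        exact Ideal.mul_mem_mul hs hw'
      refine ⟨n + m, b * α, b * (e * w') + w * α * e ^ a + w * (ϖ * w'), ?_, ?_⟩
      · rw [Nat.add_sub_cancel]
        refine Ideal.add_mem _ (Ideal.add_mem _ (Ideal.mul_mem_left _ _ (h3 e he)) ?_)
          (Ideal.mul_mem_left _ _ (h3 ϖ hϖ))
        exact Ideal.mul_mem_left _ _ (Ideal.pow_mem_pow he a)
      · have h4 : f ^ (n + m) * (p * q) = (f ^ n * p) * (f ^ m * q) := by ring
        rw [h4, h1, h2]
        ring
    · rintro y z ⟨n, α, w, hw, h1⟩ ⟨m, α', w', hw', h2⟩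
      refine ⟨n + m, f ^ m * α + f ^ n * α', f ^ m * w + f ^ n * w',
        Ideal.add_mem _ (Ideal.mul_mem_left _ _ hw) (Ideal.mul_mem_left _ _ hw'), ?_⟩
      have h4 : f ^ (n + m) * (y + z) = f ^ m * (f ^ n * y) + f ^ n * (f ^ m * z) := by ring
      rw [h4, h1, h2]
      ring

/-- elements of `Tj` -/
theorem mem_Tj' {a : ℕ} (ha : 0 < a) {w r : S} (hw : w ∈ I ^ (a - 1)) (hr : r ∈ I ^ (a + 1)) :
    ϖ * w + r ∈ DIL.Tj ϖ I a :=
  DIL.mem_Tj.2 ⟨w, hw, fun h => by omega, by rwa [add_sub_cancel_left]⟩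

/-- **the sections in the charts** -/
theorem loc_sec (hϖ : ϖ ∈ I) (he : e ∈ I)
    (hg : ∀ y ∈ I, ∃ (n : ℕ) (b w : S), f ^ n * y = b * e + ϖ * w)
    (hnz : ∀ y, ϖ ∣ e * y → ϖ ∣ y) {a : ℕ} (ha : 0 < a) {G U b w' : S} {n : ℕ} (hG : G ∈ I ^ a)
    (h : f ^ n * G = U * e ^ a + b * e ^ (a + 1) + ϖ * w') :
    ∃ m : ℕ, f ^ (n + m) * G - f ^ m * U * e ^ a ∈ DIL.Tj ϖ I a := by
  obtain ⟨m, α, w, hw, h1⟩ := loc_pow hϖ he hg a G hG
  have hnz' : ∀ (k : ℕ) (y : S), ϖ ∣ e ^ k * y → ϖ ∣ y := by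
    intro k
    induction k with
    | zero =>
      intro y hy
      rwa [pow_zero, one_mul] at hy
    | succ k ih =>
      intro y hy
      refine ih y (hnz _ ?_)
      rwa [← mul_assoc, ← pow_succ']
  obtain ⟨d, hd⟩ : ϖ ∣ f ^ n * α - f ^ m * (U + b * e) := by
    refine hnz' a _ ⟨f ^ m * w' - f ^ n * w, ?_⟩
    have h2 : f ^ n * (α * e ^ a + ϖ * w) =
        f ^ m * (U * e ^ a + b * e ^ (a + 1) + ϖ * w') := by
      rw [← h1, ← h]
      ring
    linear_combination h2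
  refine ⟨m, ?_⟩
  have h3 : f ^ (n + m) * G - f ^ m * U * e ^ a =
      ϖ * (d * e ^ a + f ^ n * w) + f ^ m * b * e ^ (a + 1) := by
    have h4 : f ^ (n + m) * G = f ^ n * (f ^ m * G) := by ring
    rw [h4, h1]
    linear_combination (e ^ a) * hd
  rw [h3]
  refine mem_Tj' ha (Ideal.add_mem _ (Ideal.mul_mem_left _ _ ?_) (Ideal.mul_mem_left _ _ hw))
    (Ideal.mul_mem_left _ _ (Ideal.pow_mem_pow he _))
  exact Ideal.pow_le_pow_right (Nat.sub_le a 1) (Ideal.pow_mem_pow he a)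

/-- the compatibility of the sections -/
theorem coc_glue {Q : Type*} {x ee : Q → S} {h : Fin 3 → S} {G : Fin 3 → S} {a M : ℕ}
    (hG : ∀ i, G i ∈ I ^ a)
    (hc : ∀ i, ∃ N : ℕ, h i ^ N ∈ Ideal.span (Set.range x) ⊔ I)
    (hl : ∀ q, ∃ (u : S) (n : ℕ), ∀ i, ∃ m : ℕ,
      x q ^ (n + m) * G i - x q ^ m * (u * h i ^ M) * ee q ^ a ∈ DIL.Tj ϖ I a) :
    ∃ K : ℕ, ∀ i k, h i ^ K * (h k ^ M * G i - h i ^ M * G k) ∈ DIL.Tj ϖ I a := by
  have h1 : ∀ i k, ∃ N : ℕ, h i ^ N * (h k ^ M * G i - h i ^ M * G k) ∈ DIL.Tj ϖ I a := by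
    intro i k
    have hy : h k ^ M * G i - h i ^ M * G k ∈ I ^ a :=
      Ideal.sub_mem _ (Ideal.mul_mem_left _ _ (hG i)) (Ideal.mul_mem_left _ _ (hG k))
    refine DIL.glue (hc i) hy fun q => ?_
    obtain ⟨u, n, h2⟩ := hl q
    obtain ⟨m, hm⟩ := h2 i
    obtain ⟨m', hm'⟩ := h2 k
    refine ⟨n + m + m', ?_⟩
    have h3 : x q ^ (n + m + m') * (h k ^ M * G i - h i ^ M * G k) =
        (x q ^ m' * h k ^ M) * (x q ^ (n + m) * G i - x q ^ m * (u * h i ^ M) * ee q ^ a) -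
        (x q ^ m * h i ^ M) * (x q ^ (n + m') * G k - x q ^ m' * (u * h k ^ M) * ee q ^ a) := by
      ring
    rw [h3]
    exact Ideal.sub_mem _ (Ideal.mul_mem_left _ _ hm) (Ideal.mul_mem_left _ _ hm')
  choose N hN using h1
  refine ⟨∑ i, ∑ k, N i k, fun i k => ?_⟩
  have h2 : N i k ≤ ∑ i, ∑ k, N i k :=
    le_trans (Finset.single_le_sum (f := fun k => N i k) (fun _ _ => Nat.zero_le _)
      (Finset.mem_univ k)) (Finset.single_le_sum (f := fun i => ∑ k, N i k)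
      (fun _ _ => Nat.zero_le _) (Finset.mem_univ i))
  obtain ⟨r, hr⟩ := Nat.exists_eq_add_of_le h2
  rw [hr, pow_add, mul_right_comm, mul_comm]
  exact Ideal.mul_mem_left _ _ (hN i k)

/-- the sections generate -/
theorem gen_glue {Q : Type*} {x ee : Q → S} {h : Fin 3 → S} {G : Fin 3 → S} {a M : ℕ}
    (hϖ : ϖ ∈ I) (ha : 0 < a)
    (hc : ∀ i, ∃ N : ℕ, h i ^ N ∈ Ideal.span (Set.range x) ⊔ I) (he : ∀ q, ee q ∈ I)
    (hg : ∀ q, ∀ y ∈ I, ∃ (n : ℕ) (b w : S), x q ^ n * y = b * ee q + ϖ * w)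
    (hl : ∀ q, ∃ (u v d : S) (n : ℕ), u * v - x q ^ n = ϖ * d ∧ ∀ i, ∃ m : ℕ,
      x q ^ (n + m) * G i - x q ^ m * (u * h i ^ M) * ee q ^ a ∈ DIL.Tj ϖ I a) (K : ℕ) (i : Fin 3)
    (y : S) (hy : y ∈ I ^ a) :
    ∃ N : ℕ, h i ^ N * y ∈ Ideal.span {h i ^ K * G i} ⊔ DIL.Tj ϖ I a := by
  obtain ⟨N, hN⟩ := glueG (hc i) (Ideal.span {h i ^ K * G i} ⊔ DIL.Tj ϖ I a)
    (y := h i ^ (M + K) * y) (fun s hs => Ideal.mem_sup_right
      (DIL.mul_mem_Tj hs (Ideal.mul_mem_left _ _ hy))) (fun q => by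
    obtain ⟨u, v, d, n, huv, h2⟩ := hl q
    obtain ⟨m, hm⟩ := h2 i
    obtain ⟨n', α, w, hw, h3⟩ := loc_pow hϖ (he q) (hg q) a y hy
    refine ⟨n + m + n', ?_⟩
    have h4 : x q ^ (n + m + n') * (h i ^ (M + K) * y) =
        (α * v * x q ^ (n + m)) * (h i ^ K * G i) -
        (α * v * h i ^ K) * (x q ^ (n + m) * G i - x q ^ m * (u * h i ^ M) * ee q ^ a) +
        (ϖ * (x q ^ (n + m) * h i ^ (M + K) * w) +
          - (ϖ * (ee q ^ a * (d * α * x q ^ m * h i ^ (M + K))))) := by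
      have h5 : x q ^ (n + m + n') * (h i ^ (M + K) * y) =
          x q ^ (n + m) * h i ^ (M + K) * (x q ^ n' * y) := by ring
      rw [h5, h3]
      linear_combination (-(α * h i ^ (M + K) * x q ^ m * ee q ^ a)) * huv
    rw [h4]
    refine Ideal.add_mem _ (Ideal.sub_mem _ (Ideal.mem_sup_left (Ideal.mul_mem_left _ _
      (Ideal.mem_span_singleton_self _))) (Ideal.mem_sup_right (Ideal.mul_mem_left _ _ hm)))
      (Ideal.mem_sup_right (mem_Tj' ha (Ideal.mul_mem_left _ _ hw) ?_))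
    refine Submodule.neg_mem _ ?_
    rw [pow_succ']
    exact Ideal.mul_mem_mul hϖ (Ideal.mul_mem_right _ _ (Ideal.pow_mem_pow (he q) a)))
  refine ⟨N + (M + K), ?_⟩
  rwa [pow_add, mul_assoc]

end alg

/-! ### The integral model -/

section mod

variable {K : Type} [Field K] (V : ValuationSubring K) {B : Type} [CommRing B] [Algebra K B]
  (φ : MvPolynomial (Fin (N + 1)) K →ₐ[K] B) {F : Type} [Field F] (c : F →+* V)

theorem lfb_mem (G : MvPolynomial (Fin (N + 1)) F) : lfb V φ c G ∈ Sb V φ :=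
  RingHom.isIntegralElem_map _

/-- the polynomials over the coefficient field in the integral model -/
def lS : MvPolynomial (Fin (N + 1)) F →+* Sb V φ := (lfb V φ c).codRestrict (Sb V φ) (lfb_mem V φ c)

theorem coe_lS (G : MvPolynomial (Fin (N + 1)) F) : (lS V φ c G : B) = lfb V φ c G := rfl

theorem lfb_xc (q : Pt) : lfb V φ c (xc F q) = φ (xc K q) := by
  simp only [lfb, vB, xc, RingHom.comp_apply, map_X]
  rfl

theorem lfb_eval (G : MvPolynomial (Fin (N + 1)) F) :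
    lfb V φ c G = eval₂ ((algebraMap V B).comp c) (fun i => φ (X i)) G := by
  have h1 : lfb V φ c = eval₂Hom ((algebraMap V B).comp c) (fun i => φ (X i)) := by
    apply MvPolynomial.ringHom_ext
    · intro r
      simp only [lfb, vB, RingHom.comp_apply, map_C, eval₂Hom_C]
      exact φ.commutes _
    · intro i
      simp only [lfb, vB, RingHom.comp_apply, map_X, eval₂Hom_X']
      rfl
  rw [h1]
  rfl

theorem dv_iff {ϖ : V} (y : Sb V φ) : Dvb V φ ϖ (y : B) ↔ algebraMap V (Sb V φ) ϖ ∣ y := by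
  constructor
  · rintro ⟨b, hb, h⟩
    exact ⟨⟨b, hb⟩, Subtype.ext h⟩
  · rintro ⟨b, rfl⟩
    exact ⟨b, b.2, rfl⟩

variable (ℬ : ℕ → Submodule K B) [GradedAlgebra ℬ]

theorem lfb_deg (hdeg : ∀ i, φ (X i) ∈ ℬ 1) {G : MvPolynomial (Fin (N + 1)) F} {m : ℕ}
    (hG : G.IsHomogeneous m) : lfb V φ c G ∈ ℬ m := by
  rw [lfb_eval, eval₂_eq]
  refine Submodule.sum_mem _ fun d hd => ?_
  have h1 : ∏ i ∈ d.support, φ (X i) ^ d i ∈ ℬ (∑ i ∈ d.support, d i • 1) :=
    SetLike.prod_pow_mem_graded ℬ _ _ _ fun i _ => hdeg i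
  have h2 : ∑ i ∈ d.support, d i • 1 = m := by
    have h := hG (mem_support_iff.1 hd)
    rw [Finsupp.weight_apply] at h
    simpa [Finsupp.sum] using h
  rw [h2] at h1
  have h3 : ((algebraMap V B).comp c) (coeff d G) = algebraMap K B ((c (coeff d G) : V) : K) := rfl
  rw [h3, ← Algebra.smul_def]
  exact Submodule.smul_mem _ _ h1

/-- the projections over `V` and over `K` agree -/
theorem proj_eq (_ : GradedAlgebra fun n => (ℬ n).restrictScalars V) (n : ℕ) (x : B) :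
    DIL.cp (fun n => (ℬ n).restrictScalars V) n x = GradedAlgebra.proj ℬ n x := by
  obtain ⟨s, hs⟩ := DIL.cp_sum (ℬ := ℬ) x
  have h1 : ∀ i, DIL.cp (fun n => (ℬ n).restrictScalars V) n (DIL.cp ℬ i x) =
      DIL.cp ℬ n (DIL.cp ℬ i x) := by
    intro i
    have h2 : DIL.cp ℬ i x ∈ ℬ i := DIL.cp_mem ℬ i x
    have h3 : DIL.cp ℬ i x ∈ (ℬ i).restrictScalars V := h2
    by_cases hin : i = n
    · subst hin
      rw [DIL.cp_self h2]
      exact DIL.cp_self (ℬ := fun n => (ℬ n).restrictScalars V) h3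
    · rw [DIL.cp_ne h2 hin]
      exact DIL.cp_ne (ℬ := fun n => (ℬ n).restrictScalars V) h3 hin
  show DIL.cp (fun n => (ℬ n).restrictScalars V) n x = DIL.cp ℬ n x
  rw [hs, map_sum, map_sum]
  exact Finset.sum_congr rfl fun i _ => h1 i

/-- finite sums of products, with the generators in a finite set -/
theorem fin_set {ι R S : Type} [Fintype ι] [CommRing R] [CommRing S] (al : R →+* S) (I : Ideal S)
    (t : ι → S) (h : ∀ y : S, ∃ q : ι → R, y - ∑ k, al (q k) * t k ∈ I) :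
    ∃ T : Finset S, ∀ y : S, ∃ q : S → R, y - ∑ s ∈ T, al (q s) * s ∈ I := by
  refine ⟨Finset.univ.image t, fun y => ?_⟩
  obtain ⟨q, hq⟩ := h y
  refine ⟨fun s => ∑ k ∈ Finset.univ.filter (fun k => t k = s), q k, ?_⟩
  have h1 : ∑ s ∈ Finset.univ.image t,
      al (∑ k ∈ Finset.univ.filter (fun k => t k = s), q k) * s = ∑ k, al (q k) * t k := by
    rw [← Finset.sum_fiberwise_of_maps_to (s := Finset.univ) (t := Finset.univ.image t) (g := t)
      (fun k _ => Finset.mem_image_of_mem _ (Finset.mem_univ k))]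
    refine Finset.sum_congr rfl fun s _ => ?_
    rw [map_sum, Finset.sum_mul]
    refine Finset.sum_congr rfl fun k hk => ?_
    rw [(Finset.mem_filter.1 hk).2]
  rw [h1]
  exact hq

end mod

end INX_

open INX_ in
theorem INX_proof (hNZD : Stmt_Nzd) (hLFK : Stmt_Lfk) (hFID : Stmt_Fid) (hHMB : Stmt_Hmb)
    (hFNH : Stmt_Fnh) : Stmt_Inx := by
  intro p J E K _ V F _ c σ t ϖ P z B _ _ φ ℬ _ hS hr hgr g h M G S hC hh hfin h' hh'
  have hdom := hS.dom
  have hnzd := hNZD p J E K V F c σ t ϖ P z B φ ℬ hS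
  have hlfk := hLFK p J E K V F c σ t ϖ P z B φ ℬ hS
  obtain ⟨hF1, ⟨m, b, hb, hF2⟩, hF3⟩ := hFID p J E K V F c σ t ϖ P z B φ ℬ hS
  have hhmb := hHMB K V B φ ℬ hS.deg
  have hpri := pri_proof F
  have hIp := hpri.1
  -- notation
  set L := lS V φ c with hL
  set w := algebraMap V (Sb V φ) ϖ with hw
  set I' := Igb V φ ϖ g with hI'
  have hwI : w ∈ I' := Ideal.subset_span (Or.inl rfl)
  have hLI : ∀ r ∈ I F, w ∣ L r := fun r hr' => (dv_iff V φ _).1 ((hlfk r).2 hr')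
  have hLI' : ∀ r ∈ I F, ∃ d, L r = w * d := fun r hr' => hLI r hr'
  have hLJ : ∀ r ∈ Jg F g, L r ∈ I' := by
    intro r hr'
    have h1 : Jg F g ≤ I'.comap L := by
      refine Ideal.span_le.2 ?_
      rintro _ ⟨q, hq, rfl⟩
      exact Ideal.subset_span (Or.inr ⟨q, hq, lfb_xc V φ c q⟩)
    exact h1 hr'
  have hLJI : ∀ r ∈ JI F g, L r ∈ I' := by
    intro r hr'
    obtain ⟨r1, h1, r2, h2, rfl⟩ := Submodule.mem_sup.1 hr'
    rw [map_add]
    obtain ⟨d, hd⟩ := hLI' r2 h2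
    refine Ideal.add_mem _ (hLJ _ h1) ?_
    rw [hd]
    exact Ideal.mul_mem_right _ _ hwI
  have hLG : ∀ i, L (G i) ∈ I' ^ aG g := by
    intro i
    have h1 : Jg F g ≤ I'.comap L := fun r hr' => hLJ r hr'
    have h2 : Jg F g ^ aG g ≤ (I' ^ aG g).comap L :=
      le_trans (Ideal.pow_right_mono h1 _) (Ideal.le_comap_pow L _)
    exact h2 (hC.G_mem i)
  have ha : 0 < aG g := by
    cases g with
    | none => exact Nat.one_pos
    | some k => exact Nat.two_pos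
  have hfI : ∀ s ∈ S, s.1 ∉ I F := by
    intro s hs hsI
    refine hC.conn s hs s hs 1 0 ?_
    rw [pow_one, pow_zero, mul_one]
    exact Ideal.mem_sup_right hsI
  have heI : ∀ s ∈ S, s.2 ∉ I F := by
    intro s hs hsI
    obtain ⟨q, hq⟩ := LNF_.ex_pt g
    obtain ⟨n, b, h1⟩ := hC.loc s hs q hq
    have h2 : s.1 ^ n * xc F q ∈ I F := by
      have h3 := Ideal.add_mem _ h1 (Ideal.mul_mem_left _ b hsI)
      rwa [sub_add_cancel] at h3
    rcases hIp.mem_or_mem h2 with h3 | h3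
    · exact hfI s hs (hIp.mem_of_pow_mem n h3)
    · exact LNF_.xc_notMem F q h3
  have hgen : ∀ s ∈ S, ∀ y ∈ I', ∃ (n : ℕ) (b d : Sb V φ),
      L s.1 ^ n * y = b * L s.2 + w * d := by
    intro s hs y hy
    refine Submodule.span_induction ?_ ?_ ?_ ?_ hy
    · rintro y (rfl | ⟨q, hq, h1⟩)
      · exact ⟨0, 0, 1, by rw [← hw]; ring⟩
      · have h2 : y = L (xc F q) := Subtype.ext (h1.trans (lfb_xc V φ c q).symm)
        obtain ⟨n, b, h3⟩ := hC.loc s hs q hq
        obtain ⟨d, hd⟩ := hLI' _ h3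
        refine ⟨n, L b, d, ?_⟩
        rw [map_sub, map_mul, map_pow, map_mul, ← h2] at hd
        linear_combination hd
    · exact ⟨0, 0, 0, by ring⟩
    · rintro y y' _ _ ⟨n, b, d, h1⟩ ⟨n', b', d', h2⟩
      refine ⟨n + n', L s.1 ^ n' * b + L s.1 ^ n * b', L s.1 ^ n' * d + L s.1 ^ n * d', ?_⟩
      linear_combination (L s.1 ^ n') * h1 + (L s.1 ^ n) * h2
    · rintro r y _ ⟨n, b, d, h1⟩
      refine ⟨n, r * b, r * d, ?_⟩
      rw [smul_eq_mul]
      linear_combination r * h1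
  have hnz : ∀ s ∈ S, ∀ y : Sb V φ, w ∣ L s.2 * y → w ∣ y := by
    intro s hs y hy
    have h1 := (dv_iff V φ _).2 hy
    exact (dv_iff V φ _).1 (hnzd s.2 (heI s hs) y y.2 h1)
  -- the cover
  have hcov : ∀ i, ∃ n : ℕ, h' i ^ n ∈ Ideal.span (Set.range fun s : S => L s.1.1) ⊔ I' := by
    intro i
    obtain ⟨n, β, h1⟩ := hC.cov i
    have h2 := hLJI _ h1
    have h3 : L (h i) = h' i := Subtype.ext (hh' i).symm
    rw [map_sub, map_pow, map_sum, h3] at h2
    refine ⟨n, ?_⟩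
    have h4 : h' i ^ n = ∑ s ∈ S, L (β s * s.1) + (h' i ^ n - ∑ s ∈ S, L (β s * s.1)) := by ring
    rw [h4]
    refine Ideal.add_mem _ (Ideal.mem_sup_left (Ideal.sum_mem _ fun s hs => ?_))
      (Ideal.mem_sup_right h2)
    rw [map_mul]
    exact Ideal.mul_mem_left _ _ (Ideal.subset_span ⟨⟨s, hs⟩, rfl⟩)
  have hLh : ∀ i, L (h i) = h' i := fun i => Subtype.ext (hh' i).symm
  -- the sections in the charts
  have hsec : ∀ q : S, ∃ (u v d : Sb V φ) (n : ℕ), u * v - L q.1.1 ^ n = w * d ∧ ∀ i, ∃ m : ℕ,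
      L q.1.1 ^ (n + m) * L (G i) - L q.1.1 ^ m * (u * h' i ^ M) * L q.1.2 ^ aG g ∈
        DIL.Tj w I' (aG g) := by
    intro q
    obtain ⟨u, v, n, h1, h2⟩ := hC.G_loc q.1 q.2
    obtain ⟨d, hd⟩ := hLI' _ h1
    refine ⟨L u, L v, d, n, by rw [← hd, map_sub, map_mul, map_pow], fun i => ?_⟩
    obtain ⟨b, h3⟩ := h2 i
    obtain ⟨d', hd'⟩ := hLI' _ h3
    refine loc_sec (w' := d') (b := L b) hwI (hLJ _ (hC.e_mem q.1 q.2)) (hgen q.1 q.2)
      (hnz q.1 q.2) ha (hLG i) ?_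
    rw [map_sub, map_sub, map_mul, map_mul, map_mul, map_mul, map_pow, map_pow, map_pow, map_pow,
      hLh] at hd'
    linear_combination hd'
  obtain ⟨k, hk⟩ := coc_glue (ϖ := w) hLG hcov (fun q : S => by
    obtain ⟨u, v, d, n, -, h2⟩ := hsec q
    exact ⟨u, n, h2⟩)
  have homS : DIL.HomSub (fun n => (ℬ n).restrictScalars V) (Sb V φ) := by
    intro x hx n
    rw [proj_eq V ℬ hgr]
    exact hhmb x hx n
  refine ⟨M + k, fun i => h' i ^ k * L (G i), fun s => L s.1.1, fun s => L s.1.2,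
    fun s => ⟨rfl, rfl⟩, ?_⟩
  constructor
  · -- unit
    have h1 : algebraMap V B ϖ = algebraMap K B (ϖ : K) := rfl
    rw [h1]
    refine IsUnit.map _ (isUnit_iff_ne_zero.2 fun h2 => ?_)
    exact hS.base.irr.ne_zero (Subtype.ext h2)
  · exact homS
  · exact hF3
  · exact hwI
  · rw [DIL.homId_iff homS]
    let _ := DIL.gradedSub homS
    refine Ideal.homogeneous_span _ _ ?_
    rintro y (rfl | ⟨q, hq, h1⟩)
    · exact ⟨0, SetLike.algebraMap_mem_graded _ _⟩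
    · refine ⟨1, ?_⟩
      show (y : B) ∈ ℬ 1
      rw [h1]
      exact hS.deg _
  · intro i
    show (h' i : B) ∈ ℬ 1
    rw [hh' i]
    exact lfb_deg V φ c ℬ hS.deg (hh i)
  · -- fin
    obtain ⟨T, hT⟩ := hFNH F (N + 1) 3 (JI F g) (LNF_.homog_JI pri_proof F g) h hh hfin
    refine fin_set (ι := Fin m × T) (aeval h' : MvPolynomial (Fin 3) V →ₐ[V] Sb V φ).toRingHom I'
      (fun x => L x.2.1 * ⟨b x.1, hb x.1⟩) fun y => ?_
    obtain ⟨q, hq⟩ := hF2 y y.2
    choose r hr' using fun i => hT (aeval (fun j => MvPolynomial.map σ (z j)) (q i))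
    refine ⟨fun x => MvPolynomial.map c (r x.1 x.2), ?_⟩
    have h1 : ∀ s : MvPolynomial (Fin 3) F,
        (aeval h' : MvPolynomial (Fin 3) V →ₐ[V] Sb V φ).toRingHom (MvPolynomial.map c s) =
          L (aeval h s) := by
      intro s
      induction s using MvPolynomial.induction_on with
      | C r =>
        rw [map_C]
        show aeval h' (C (c r)) = _
        rw [aeval_C, aeval_C]
        apply Subtype.ext
        rw [hL, coe_lS]
        show algebraMap V B (c r) = _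
        rw [lfb_eval]
        exact (eval₂_C ((algebraMap V B).comp c) (fun i => φ (X i)) r).symm
      | add p q hp hq => rw [map_add, map_add, map_add, map_add, hp, hq]
      | mul_X p i hp =>
        rw [map_mul, map_mul, map_mul, map_mul, hp, map_X, aeval_X, hLh]
        congr 1
        exact aeval_X _ _
    have h2 : w ∣ y - ∑ i, L (aeval (fun j => MvPolynomial.map σ (z j)) (q i)) * ⟨b i, hb i⟩ := by
      rw [← dv_iff]
      convert hq using 2
      push_cast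
      rfl
    obtain ⟨d, hd⟩ := h2
    rw [Fintype.sum_prod_type]
    have h3 : y - ∑ i, ∑ t : T, (aeval h' : MvPolynomial (Fin 3) V →ₐ[V] Sb V φ).toRingHom
          (MvPolynomial.map c (r i t)) * (L t.1 * ⟨b i, hb i⟩) =
        w * d + ∑ i, L (aeval (fun j => MvPolynomial.map σ (z j)) (q i) -
          ∑ t ∈ T, aeval h (r i t) * t) * ⟨b i, hb i⟩ := by
      rw [← hd, sub_add, ← Finset.sum_sub_distrib]
      congr 1
      refine Finset.sum_congr rfl fun i _ => ?_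
      rw [← sub_mul, map_sub, sub_sub_cancel, map_sum, ← Finset.sum_coe_sort T, Finset.sum_mul]
      refine Finset.sum_congr rfl fun t _ => ?_
      rw [h1, map_mul, mul_assoc]
    rw [h3]
    exact Ideal.add_mem _ (Ideal.mul_mem_right _ _ hwI) (Ideal.sum_mem _ fun i _ =>
      Ideal.mul_mem_right _ _ (hLJI _ (hr' i)))
  · exact ha
  · exact Nat.one_pos
  · intro i
    exact Ideal.mul_mem_left _ _ (hLG i)
  · refine ⟨M + k - 1, Nat.sub_add_cancel (le_trans hC.M_pos (Nat.le_add_right _ _)), fun i => ?_⟩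
    show ((h' i ^ k * L (G i) : Sb V φ) : B) ∈ ℬ (M + k - 1)
    have h1 : h' i ^ k * L (G i) = L (h i ^ k * G i) := by rw [map_mul, map_pow, hLh]
    rw [h1, hL, coe_lS]
    refine lfb_deg V φ c ℬ hS.deg ?_
    have h2 := ((hh i).pow k).mul (hC.G_hom i)
    have h3 : 1 * k + (M - 1) = M + k - 1 := by
      have := hC.M_pos
      omega
    rwa [h3] at h2
  · -- gen
    intro i y hy
    exact gen_glue (x := fun s : S => L s.1.1) (ee := fun s : S => L s.1.2) hwI ha hcov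
      (fun q => hLJ _ (hC.e_mem q.1 q.2)) (fun q => hgen q.1 q.2) hsec k i y hy
  · -- coc
    intro i j
    have h1 : h' j ^ (M + k) * (h' i ^ k * L (G i)) - h' i ^ (M + k) * (h' j ^ k * L (G j)) =
        h' j ^ k * (h' i ^ k * (h' j ^ M * L (G i) - h' i ^ M * L (G j))) := by ring
    rw [h1]
    exact Ideal.mul_mem_left _ _ (hk i j)
  · exact inferInstance
  · intro q
    exact hLJ _ (hC.e_mem q.1 q.2)
  · intro q y hy
    exact hnz q.1 q.2 y hy
  · intro q y hy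
    obtain ⟨n, b, d, h1⟩ := hgen q.1 q.2 y hy
    refine ⟨n, Ideal.mem_sup_left ?_⟩
    rw [h1]
    refine Ideal.add_mem _ (Ideal.mul_mem_left _ _ (Ideal.subset_span ?_))
      (Ideal.mul_mem_right _ _ (Ideal.subset_span ?_))
    · exact Set.mem_insert _ _
    · exact Set.mem_insert_of_mem _ rfl
  · exact hcov

end Pool.Agent.XB
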