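import Pool.Agent.XB.Stmts
import Pool.Agent.XV.TAN

/-!
# XB, module KRF: solutions of the integral equations in a chart satisfy all equations
-/

set_option autoImplicit false

noncomputable section

namespace Pool.Agent.XB

open scoped Classical
open MvPolynomial Pool.Agent.FRM Pool.Agent.XV Pool.Agent.GML

namespace KRF_

theorem sgn_sq (π : Equiv.Perm (Fin 5)) (c : Pt) : sgn π c * sgn π c = 1 := by
  have h1 : ∀ k, sg π k * sg π k = 1 := by
    intro k
    unfold sg
    split_ifs <;> norm_num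
  unfold sgn
  rw [← Finset.prod_mul_distrib]
  refine Finset.prod_eq_one fun k _ => ?_
  rw [← mul_pow, h1, one_pow]

theorem sgn_cancel {B : Type} [CommRing B] (π : Equiv.Perm (Fin 5)) (c : Pt) {x y : B}
    (h : (sgn π c : B) * x = (sgn π c : B) * y) : x = y := by
  have h1 : (sgn π c : B) * (sgn π c : B) = 1 := by
    rw [← Int.cast_mul, sgn_sq, Int.cast_one]
  calc x = ((sgn π c : B) * (sgn π c : B)) * x := by rw [h1, one_mul]
    _ = ((sgn π c : B) * (sgn π c : B)) * y := by rw [mul_assoc, h, ← mul_assoc]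
    _ = y := by rw [h1, one_mul]

theorem tws_map {B B' : Type} [CommRing B] [CommRing B'] (f : B →+* B') (π : Equiv.Perm (Fin 5))
    (s : Pt → B) (c : Pt) : f (tws π s c) = tws π (fun c => f (s c)) c := by
  unfold tws
  rw [map_mul, map_intCast]

/-- the coordinates satisfy the integral equations modulo `I F` -/
theorem isSol_of_ker {F B : Type} [Field F] [CommRing B]
    (φ : MvPolynomial (Fin (N + 1)) F →+* B) (h : ∀ G ∈ I F, φ G = 0) :
    IsSol fun c => φ (xc F c) := by
  intro g hg
  have h1 := h _ (TAN_.map_mem (K := F) hg)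
  have h2 : (MvPolynomial.map (Int.castRingHom F) g : MvPolynomial (Fin (N + 1)) F) =
      eval₂ (C.comp (Int.castRingHom F)) X g := by
    rw [map_eq_eval₂Hom_C_comp]
    rfl
  rw [h2, MvPolynomial.hom_eval₂] at h1
  have h3 : φ.comp (C.comp (Int.castRingHom F)) = Int.castRingHom B :=
    RingHom.ext_int _ _
  rw [h3] at h1
  rw [← h1]
  congr 1
  funext i
  simp [xc]

end KRF_

open KRF_

theorem KRF_proof (hUCH : Stmt_Uch) (hCHV : XV.Stmt_Chv) (hCHR : XV.Stmt_Chr)
    (hSYM : XV.Stmt_Sym) : Stmt_Krf := by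
  intro F B _ _ _ s hs π σ hU G hG
  obtain ⟨φ, hker, -, -, hZ, hX, -⟩ := hUCH F π σ
  let ev : MvPolynomial (Fin (N + 1)) F →ₐ[F] B := aeval (fun i => s (pt i))
  have hev : ∀ c, ev (xc F c) = s c := fun c => by simp [ev, xc]
  have hevt : ∀ c, ev (tws π (xc F) c) = tws π s c := by
    intro c
    have h := tws_map (ev : MvPolynomial (Fin (N + 1)) F →+* B) π (xc F) c
    refine h.trans ?_
    have h2 : (fun c => (ev : MvPolynomial (Fin (N + 1)) F →+* B) (xc F c)) = s := funext hev
    rw [h2]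
  have hs' : IsSol (tws π s) := hSYM B s π hs
  have hprod : IsUnit (tws π s (tp σ 0) * tws π s (tp σ 7) * tws π s (tp σ 8) *
      tws π s (tp σ 9)) := by
    have h := hU
    have h2 : ev (chf F π σ) = tws π s (tp σ 0) * tws π s (tp σ 7) * tws π s (tp σ 8) *
        tws π s (tp σ 9) := by
      rw [chf, map_mul, map_mul, map_mul, hevt, hevt, hevt, hevt]
    rw [← h2]
    exact h
  have u9 : IsUnit (tws π s (tp σ 9)) := isUnit_of_mul_isUnit_right hprod
  have u3 := isUnit_of_mul_isUnit_left hprod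
  have u8 : IsUnit (tws π s (tp σ 8)) := isUnit_of_mul_isUnit_right u3
  have u2 := isUnit_of_mul_isUnit_left u3
  have u7 : IsUnit (tws π s (tp σ 7)) := isUnit_of_mul_isUnit_right u2
  have u0 : IsUnit (tws π s (tp σ 0)) := isUnit_of_mul_isUnit_left u2
  let Z : Bˣ := u0.unit
  have hz : ∀ y : B, y = Z * (((Z⁻¹ : Bˣ) : B) * y) := fun y => by
    rw [← mul_assoc, Units.mul_inv, one_mul]
  let x : Fin 3 → B := fun l => ((Z⁻¹ : Bˣ) : B) * tws π s (tp σ (tX l))
  obtain ⟨a1, a2, a3⟩ := hCHR B (tws π s) hs' σ Z x rfl (fun l => hz _)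
  -- the homomorphism from the universal chart
  let ψ₀ : MvPolynomial (Fin 4) F →ₐ[F] B := aeval (Fin.cons (Z : B) x)
  have e0 : ψ₀ (X 0) = Z := by simp [ψ₀]
  have el : ∀ l : Fin 3, ψ₀ (X l.succ) = x l := fun l => by simp [ψ₀]
  have ehx : ψ₀ (hx σ fun l => X l.succ) = hx σ x := by
    simp only [hx, map_prod, map_pow, el]
  have ehy : ψ₀ (hy σ fun l => X l.succ) = hy σ x := by
    simp only [hy, map_prod, map_pow, el]
  have hgA : IsUnit (ψ₀ (gA F σ)) := by
    have h1 : ψ₀ (gA F σ) = Z * (1 + hx σ x) * (1 + hy σ x) * (1 - hx σ x * hy σ x) := by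
      simp only [gA, map_mul, map_add, map_sub, map_one, e0, ehx, ehy]
    have u1 : IsUnit (1 + hx σ x) := by
      rw [a1] at u7
      exact isUnit_of_mul_isUnit_right u7
    have u2 : IsUnit (1 + hy σ x) := by
      rw [a2] at u8
      exact isUnit_of_mul_isUnit_right u8
    have u3 : IsUnit (1 - hx σ x * hy σ x) := by
      rw [a3] at u9
      exact isUnit_of_mul_isUnit_right u9
    rw [h1]
    exact ((Z.isUnit.mul u1).mul u2).mul u3
  let ψ : Au F σ →+* B := IsLocalization.Away.lift (S := Au F σ) (gA F σ)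
    (g := (ψ₀ : MvPolynomial (Fin 4) F →+* B)) hgA
  have hψ : ∀ r, ψ (algebraMap (MvPolynomial (Fin 4) F) (Au F σ) r) = ψ₀ r := fun r =>
    IsLocalization.Away.lift_eq (gA F σ) hgA r
  -- two solutions
  let χ : MvPolynomial (Fin (N + 1)) F →+* B := ψ.comp (φ : MvPolynomial (Fin (N + 1)) F →+* Au F σ)
  have hχ0 : ∀ G ∈ I F, χ G = 0 := by
    intro G hG
    rw [← hker] at hG
    show ψ (φ G) = 0
    rw [show φ G = 0 from hG, map_zero]
  have hsol : IsSol (tws π fun c => χ (xc F c)) := hSYM B _ π (isSol_of_ker χ hχ0)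
  have hχt : ∀ c, χ (tws π (xc F) c) = tws π (fun c => χ (xc F c)) c := tws_map χ π (xc F)
  have heq : tws π s = tws π fun c => χ (xc F c) := by
    refine TAN_.uniq hCHV hCHR hs' hsol σ Z rfl ?_ ?_ ?_
    · rw [← hχt]
      show ψ (φ (tws π (xc F) (tp σ 0))) = Z
      rw [hZ, Za, hψ, e0]
    · intro l
      rw [← hχt]
      show _ = ψ (φ (che F π σ l))
      rw [hX, map_mul, Za, Xa, hψ, hψ, e0, el]
      exact hz _
    · intro j
      fin_cases j
      · exact u7
      · exact u8
      · exact u9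
  have hall : ∀ c, s c = χ (xc F c) := by
    intro c
    have h1 := congrFun heq (act π⁻¹ c)
    have h2 := sgn_cancel π (act π⁻¹ c) h1
    rw [TAN_.act_act] at h2
    exact h2
  have hcst : ∀ a : F, χ (C a) = algebraMap F B a := by
    intro a
    show ψ (φ (C a)) = _
    have h1 : φ (C a) = algebraMap F (Au F σ) a := φ.commutes a
    have h2 : algebraMap F (Au F σ) a = algebraMap (MvPolynomial (Fin 4) F) (Au F σ) (C a) :=
      IsScalarTower.algebraMap_apply F (MvPolynomial (Fin 4) F) (Au F σ) a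
    rw [h1, h2, hψ]
    exact ψ₀.commutes a
  have hfin : (ev : MvPolynomial (Fin (N + 1)) F →+* B) = χ := by
    apply MvPolynomial.ringHom_ext
    · intro a
      rw [hcst]
      exact ev.commutes a
    · intro i
      have h1 := hall (pt i)
      have h2 : xc F (pt i) = X i := by simp [xc]
      rw [h2] at h1
      rw [← h1]
      simp [ev]
  have h3 : ev G = χ G := RingHom.congr_fun hfin G
  show ev G = 0
  rw [h3]
  exact hχ0 G hG

end Pool.Agent.XB
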