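import Pool.Agent.XB.Stmts

set_option autoImplicit false

noncomputable section

namespace Pool.Agent.XB

open scoped Classical
open MvPolynomial Pool.Agent.FRM Pool.Agent.XV Pool.Agent.GML

namespace LCG_

/-! ### the localisation -/

section loc

variable (F : Type) [Field F] (σ : Fin 6)

theorem hx_zero : (hx σ fun _ : Fin 3 => (0 : F)) = 0 := by
  unfold hx
  fin_cases σ <;> simp [rx, Fin.prod_univ_three]

theorem hy_zero : (hy σ fun _ : Fin 3 => (0 : F)) = 0 := by
  unfold hy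
  fin_cases σ <;> simp [ry, Fin.prod_univ_three]

theorem map_hx {B B' : Type} [CommRing B] [CommRing B'] (f : B →+* B') (x : Fin 3 → B) :
    f (hx σ x) = hx σ fun l => f (x l) := by
  unfold hx
  rw [map_prod]
  simp only [map_pow]

theorem map_hy {B B' : Type} [CommRing B] [CommRing B'] (f : B →+* B') (x : Fin 3 → B) :
    f (hy σ x) = hy σ fun l => f (x l) := by
  unfold hy
  rw [map_prod]
  simp only [map_pow]

theorem gA_notMem (l : Fin 3) :
    gA F σ ∉ (Ideal.span {X l.succ} : Ideal (MvPolynomial (Fin 4) F)) := by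
  have hP : (Ideal.span {X l.succ} : Ideal (MvPolynomial (Fin 4) F)).IsPrime :=
    (Ideal.span_singleton_prime (X_ne_zero _)).2 X_prime
  let ev : MvPolynomial (Fin 4) F →+* F := (MvPolynomial.eval fun _ => (0 : F))
  have hev : ∀ r ∈ (Ideal.span {X l.succ} : Ideal (MvPolynomial (Fin 4) F)), ev r = 0 := by
    intro r hr
    obtain ⟨s, rfl⟩ := Ideal.mem_span_singleton'.1 hr
    simp [ev]
  have e1 : ev (hx σ fun l => X l.succ) = 0 := by
    rw [map_hx]
    simp only [ev, eval_X]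
    exact hx_zero F σ
  have e2 : ev (hy σ fun l => X l.succ) = 0 := by
    rw [map_hy]
    simp only [ev, eval_X]
    exact hy_zero F σ
  intro h
  unfold gA at h
  rcases hP.mem_or_mem h with h | h
  · rcases hP.mem_or_mem h with h | h
    · rcases hP.mem_or_mem h with h | h
      · rw [Ideal.mem_span_singleton, X_dvd_X] at h
        exact absurd h (Fin.succ_ne_zero l)
      · have := hev _ h
        rw [map_add, map_one, e1, add_zero] at this
        exact one_ne_zero this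
    · have := hev _ h
      rw [map_add, map_one, e2, add_zero] at this
      exact one_ne_zero this
  · have := hev _ h
    rw [map_sub, map_one, map_mul, e1, zero_mul, sub_zero] at this
    exact one_ne_zero this

theorem gA_ne_zero : gA F σ ≠ 0 := by
  intro h
  apply gA_notMem F σ 0
  rw [h]
  exact Ideal.zero_mem _

theorem pow_le : Submonoid.powers (gA F σ) ≤ nonZeroDivisors (MvPolynomial (Fin 4) F) :=
  powers_le_nonZeroDivisors_of_noZeroDivisors (gA_ne_zero F σ)

theorem inj : Function.Injective (algebraMap (MvPolynomial (Fin 4) F) (Au F σ)) :=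
  IsLocalization.injective _ (pow_le F σ)

theorem isDomain : IsDomain (Au F σ) := IsLocalization.isDomain_localization (pow_le F σ)

theorem isUnit_Za : IsUnit (Za F σ) := by
  have h1 : IsUnit (algebraMap (MvPolynomial (Fin 4) F) (Au F σ) (gA F σ)) :=
    IsLocalization.Away.algebraMap_isUnit _
  have h2 : Za F σ ∣ algebraMap (MvPolynomial (Fin 4) F) (Au F σ) (gA F σ) := by
    unfold Za gA
    exact map_dvd _ (Dvd.intro _ (by ring :
      (X 0 : MvPolynomial (Fin 4) F) * ((1 + hx σ fun l => X l.succ) * (1 + hy σ fun l => X l.succ) *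
      (1 - (hx σ fun l => X l.succ) * hy σ fun l => X l.succ)) = _))
  exact isUnit_of_dvd_unit h2 h1

theorem Xa_prime (l : Fin 3) : Prime (Xa F σ l) ∧ ∀ l', Xa F σ l ∣ Xa F σ l' → l = l' := by
  set P : Ideal (MvPolynomial (Fin 4) F) := Ideal.span {X l.succ} with hPdef
  have hP : P.IsPrime := (Ideal.span_singleton_prime (X_ne_zero _)).2 X_prime
  have hd : Disjoint (Submonoid.powers (gA F σ) : Set (MvPolynomial (Fin 4) F)) P := by
    rw [Set.disjoint_left]
    rintro _ ⟨n, rfl⟩ hn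
    exact gA_notMem F σ l (hP.mem_of_pow_mem n hn)
  have h1 := IsLocalization.isPrime_of_isPrime_disjoint (Submonoid.powers (gA F σ)) (Au F σ) P hP hd
  have h2 := IsLocalization.under_map_of_isPrime_disjoint (Submonoid.powers (gA F σ)) (Au F σ) hP hd
  have h3 : P.map (algebraMap (MvPolynomial (Fin 4) F) (Au F σ)) = Ideal.span {Xa F σ l} := by
    rw [hPdef, Ideal.map_span, Set.image_singleton]
    rfl
  rw [h3] at h1 h2
  have h4 : Xa F σ l ≠ 0 := by
    intro h
    have : (X l.succ : MvPolynomial (Fin 4) F) = 0 := by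
      apply inj F σ
      rw [map_zero]
      exact h
    exact X_ne_zero _ this
  refine ⟨(Ideal.span_singleton_prime h4).1 h1, ?_⟩
  intro l' hl
  have h5 : (X l'.succ : MvPolynomial (Fin 4) F) ∈ P := by
    rw [← h2]
    exact Ideal.mem_span_singleton.2 hl
  rw [hPdef, Ideal.mem_span_singleton, X_dvd_X] at h5
  exact Fin.succ_injective _ h5

end loc

/-! ### monomial relations -/

section mono

variable (F : Type) [Field F] (π : Equiv.Perm (Fin 5))

/-- the twisted brackets -/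
def B (k : Fin 10) : Cox F := ((sg π k : ℤ) : Cox F) * br F (pe π k)

/-- products of twisted brackets -/
def PP (e : Fin 10 → ℕ) : Cox F := ∏ k, B F π k ^ e k

theorem PP_add (e e' : Fin 10 → ℕ) : PP F π e * PP F π e' = PP F π (e + e') := by
  unfold PP
  rw [← Finset.prod_mul_distrib]
  refine Finset.prod_congr rfl fun k _ => ?_
  rw [Pi.add_apply, pow_add]

theorem cx_tws (c : Pt) :
    cx F (tws π (xc F) c) = X Vr.T * X Vr.u ^ c.w * PP F π c.e := by
  unfold tws
  rw [map_mul, map_intCast, cx_xc]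
  unfold cm mon PP B sgn
  have h1 : ∏ k, br F k ^ (act π c).e k = ∏ k, br F (pe π k) ^ c.e k := by
    rw [← Equiv.prod_comp (peE π)]
    refine Finset.prod_congr rfl fun k _ => ?_
    have h2 : (peE π) k = pe π k := rfl
    rw [h2, act_e]
  rw [h1]
  have h3 : (act π c).w = c.w := rfl
  rw [h3, pow_one]
  push_cast
  simp only [mul_pow, Finset.prod_mul_distrib]
  ring

theorem act_act (c : Pt) : act π (act π⁻¹ c) = c := by
  ext k
  · rfl
  · show c.e (pe π⁻¹⁻¹ (pe π⁻¹ k)) = c.e k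
    rw [← pe_mul, inv_mul_cancel, pe_one]

theorem act_act' (c : Pt) : act π⁻¹ (act π c) = c := by
  have := act_act π⁻¹ c
  rwa [inv_inv] at this

theorem sgn_sq (c : Pt) : sgn π c * sgn π c = 1 := by
  unfold sgn
  rw [← Finset.prod_mul_distrib]
  refine Finset.prod_eq_one fun k _ => ?_
  rw [← mul_pow]
  unfold sg
  split_ifs <;> simp

/-- the coordinates in terms of the twisted ones -/
theorem xc_eq (c : Pt) :
    xc F c = ((sgn π (act π⁻¹ c) : ℤ) : MvPolynomial (Fin (N + 1)) F) *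
      tws π (xc F) (act π⁻¹ c) := by
  unfold tws
  rw [act_act, ← mul_assoc, ← Int.cast_mul, sgn_sq, Int.cast_one, one_mul]

theorem tws_eq (c : Pt) :
    tws π (xc F) c = ((sgn π c : ℤ) : MvPolynomial (Fin (N + 1)) F) * xc F (act π c) := rfl

end mono

/-! ### the relations -/

section rel

variable (F : Type) [Field F] (π : Equiv.Perm (Fin 5))

theorem disj_pe_iff (k l : Fin 10) : Disj (pe π k) (pe π l) ↔ Disj k l := by
  constructor
  · intro h
    have := disj_pe π⁻¹ _ _ h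
    rwa [← pe_mul, ← pe_mul, inv_mul_cancel, pe_one, pe_one] at this
  · exact disj_pe π k l

theorem cGe_pe (k m : Fin 10) : cGe (pe π k) (pe π m) = cGe k m := by
  unfold cGe
  have h1 : pe π m = pe π k ↔ m = k := (peE π).injective.eq_iff (a := m) (b := k)
  simp only [h1, disj_pe_iff]

theorem act_inv_e (c : Pt) (m : Fin 10) : (act π⁻¹ c).e m = c.e (pe π m) := by
  show c.e (pe π⁻¹⁻¹ m) = _
  rw [inv_inv]

/-- the monomial of a point -/
def M (c : Pt) : Cox F := X Vr.T * X Vr.u ^ c.w * PP F π c.e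

theorem rel2 (p1 p2 c t o : Pt) (hw : p1.w + p2.w + c.w = t.w + 2 * o.w)
    (he : ∀ m, p1.e m + p2.e m + c.e m = t.e m + 2 * o.e m) :
    M F π p1 * M F π p2 * M F π c = M F π t * M F π o ^ 2 := by
  have h1 : M F π p1 * M F π p2 * M F π c = X Vr.T ^ 3 * X Vr.u ^ (p1.w + p2.w + c.w) *
      PP F π (p1.e + p2.e + c.e) := by
    unfold M
    rw [← PP_add, ← PP_add]
    ring
  have h2 : M F π t * M F π o ^ 2 = X Vr.T ^ 3 * X Vr.u ^ (t.w + 2 * o.w) *
      PP F π (t.e + (o.e + o.e)) := by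
    unfold M
    rw [← PP_add, ← PP_add]
    ring
  rw [h1, h2, hw]
  congr 2
  funext m
  show p1.e m + p2.e m + c.e m = t.e m + (o.e m + o.e m)
  rw [he m]; ring

theorem rel3 (p1 p2 p3 c t o : Pt) (hw : p1.w + p2.w + p3.w + c.w = 2 * t.w + 2 * o.w)
    (he : ∀ m, p1.e m + p2.e m + p3.e m + c.e m = 2 * t.e m + 2 * o.e m) :
    M F π p1 * M F π p2 * M F π p3 * M F π c = M F π t ^ 2 * M F π o ^ 2 := by
  have h1 : M F π p1 * M F π p2 * M F π p3 * M F π c = X Vr.T ^ 4 *
      X Vr.u ^ (p1.w + p2.w + p3.w + c.w) * PP F π (p1.e + p2.e + p3.e + c.e) := by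
    unfold M
    rw [← PP_add, ← PP_add, ← PP_add]
    ring
  have h2 : M F π t ^ 2 * M F π o ^ 2 = X Vr.T ^ 4 * X Vr.u ^ (2 * t.w + 2 * o.w) *
      PP F π (t.e + t.e + (o.e + o.e)) := by
    unfold M
    rw [← PP_add, ← PP_add, ← PP_add]
    ring
  rw [h1, h2, hw]
  congr 2
  funext m
  show p1.e m + p2.e m + p3.e m + c.e m = t.e m + t.e m + (o.e m + o.e m)
  rw [he m]; ring

theorem cx_tws' (c : Pt) : cx F (tws π (xc F) c) = M F π c := cx_tws F π c

theorem cx_sq (c : Pt) : cx F (xc F c) ^ 2 = M F π (act π⁻¹ c) ^ 2 := by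
  rw [xc_eq F π c, map_mul, map_intCast, cx_tws', mul_pow, sq ((sgn π (act π⁻¹ c) : ℤ) : Cox F),
    ← Int.cast_mul, sgn_sq, Int.cast_one, one_mul]

theorem cx_one (c : Pt) : ((sgn π (act π⁻¹ c) : ℤ) : Cox F) * cx F (xc F c) = M F π (act π⁻¹ c) := by
  rw [xc_eq F π c, map_mul, map_intCast, cx_tws', ← mul_assoc, ← Int.cast_mul, sgn_sq,
    Int.cast_one, one_mul]

theorem exists_none : ∃ v : MvPolynomial (Fin (N + 1)) F,
    v * xc F (cG none) - che F π 0 2 ^ aG none * xc F cO ^ 2 ∈ I F := by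
  refine ⟨((sgn π (act π⁻¹ (cG none)) : ℤ) : MvPolynomial (Fin (N + 1)) F) *
    (tws π (xc F) (tp 0 0) * tws π (xc F) (tp 0 0)), ?_⟩
  show _ ∈ RingHom.ker (cx F)
  rw [RingHom.mem_ker, map_sub, sub_eq_zero]
  have h1 : aG none = 1 := rfl
  rw [h1, pow_one, map_mul, map_mul, map_mul, map_mul, map_pow, map_intCast, cx_sq F π cO]
  unfold che
  rw [cx_tws', cx_tws']
  have h2 := rel2 F π (tp 0 0) (tp 0 0) (act π⁻¹ (cG none)) (tp 0 (tX 2)) (act π⁻¹ cO)
    (by
      show (tp 0 0).w + (tp 0 0).w + 1 = (tp 0 (tX 2)).w + 2 * 0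
      decide +kernel) (by
      have h5 : ∀ m, (tp 0 0).e m + (tp 0 0).e m + 2 = (tp 0 (tX 2)).e m + 2 * 1 := by
        decide +kernel
      exact h5)
  rw [← h2, ← cx_one]
  ring

theorem exists_some (k' k : Fin 10) (hk : pe π k' = k) (t p1 p2 p3 : Pt)
    (hw : p1.w + p2.w + p3.w = 2 * t.w)
    (he : ∀ m, p1.e m + p2.e m + p3.e m + cGe k' m = 2 * t.e m + 2) :
    ∃ v : MvPolynomial (Fin (N + 1)) F,
      v * xc F (cG (some k)) - tws π (xc F) t ^ aG (some k) * xc F cO ^ 2 ∈ I F := by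
  refine ⟨((sgn π (act π⁻¹ (cG (some k))) : ℤ) : MvPolynomial (Fin (N + 1)) F) *
    (tws π (xc F) p1 * tws π (xc F) p2 * tws π (xc F) p3), ?_⟩
  show _ ∈ RingHom.ker (cx F)
  rw [RingHom.mem_ker, map_sub, sub_eq_zero]
  have h1 : aG (some k) = 2 := rfl
  rw [h1, map_mul, map_mul, map_mul, map_mul, map_mul, map_pow, map_pow, map_intCast,
    cx_sq F π cO, cx_tws', cx_tws', cx_tws', cx_tws']
  have h2 := rel3 F π p1 p2 p3 (act π⁻¹ (cG (some k))) t (act π⁻¹ cO)
    (by
      have h3 : (act π⁻¹ (cG (some k))).w = 0 := rfl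
      have h4 : (act π⁻¹ cO).w = 0 := rfl
      rw [h3, h4]; omega) (by
      intro m
      have h3 : (act π⁻¹ (cG (some k))).e m = cGe k' m := by
        rw [act_inv_e, ← cGe_pe π k' m, hk]
        rfl
      have h4 : (act π⁻¹ cO).e m = 1 := rfl
      rw [h3, h4]
      exact he m)
  rw [← h2, ← cx_one]
  ring

theorem exists_v (g : Option (Fin 10)) (σ : Fin 6) (l : Fin 3) (h : RayOf g π σ l) :
    ∃ v : MvPolynomial (Fin (N + 1)) F,
      v * xc F (cG g) - che F π σ l ^ aG g * xc F cO ^ 2 ∈ I F := by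
  rcases h with ⟨rfl, rfl, rfl⟩ | ⟨k, rfl, h⟩
  · exact exists_none F π
  · unfold che
    rcases h with ⟨rfl, h, hk⟩ | ⟨rfl, h, hk⟩
    · rcases h with rfl | rfl | rfl
      · exact exists_some F π 0 k hk _
          ⟨0, ![0, 4, 0, 0, 0, 2, 2, 0, 0, 2], by decide +kernel⟩
          ⟨0, ![0, 2, 0, 2, 2, 2, 0, 0, 0, 2], by decide +kernel⟩
          ⟨0, ![0, 0, 2, 2, 4, 0, 0, 0, 0, 2], by decide +kernel⟩
          (by decide +kernel) (by decide +kernel)
      · exact exists_some F π 0 k hk _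
          ⟨2, ![0, 12, 0, 0, 0, 6, 6, 0, 0, 6], by decide +kernel⟩
          ⟨2, ![0, 2, 4, 6, 10, 2, 0, 0, 0, 6], by decide +kernel⟩
          ⟨2, ![0, 0, 6, 6, 8, 4, 0, 0, 4, 2], by decide +kernel⟩
          (by decide +kernel) (by decide +kernel)
      · exact exists_some F π 0 k hk _
          ⟨4, ![0, 16, 2, 2, 0, 10, 10, 2, 2, 6], by decide +kernel⟩
          ⟨4, ![0, 4, 6, 10, 12, 6, 2, 2, 2, 6], by decide +kernel⟩
          ⟨4, ![0, 0, 10, 10, 14, 4, 2, 2, 4, 4], by decide +kernel⟩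
          (by decide +kernel) (by decide +kernel)
    · rcases h with rfl | rfl
      · exact exists_some F π 7 k hk _
          ⟨0, ![0, 2, 0, 2, 2, 2, 0, 0, 0, 2], by decide +kernel⟩
          ⟨0, ![0, 2, 0, 2, 2, 2, 0, 0, 0, 2], by decide +kernel⟩
          ⟨0, ![0, 0, 2, 2, 2, 2, 0, 0, 2, 0], by decide +kernel⟩
          (by decide +kernel) (by decide +kernel)
      · exact exists_some F π 7 k hk _
          ⟨2, ![0, 10, 0, 2, 2, 6, 4, 0, 0, 6], by decide +kernel⟩
          ⟨2, ![0, 2, 4, 6, 10, 2, 0, 0, 0, 6], by decide +kernel⟩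
          ⟨2, ![0, 0, 6, 6, 6, 6, 0, 0, 6, 0], by decide +kernel⟩
          (by decide +kernel) (by decide +kernel)

theorem elc_tX : ∀ (σ : Fin 6) (l : Fin 3), elc σ l (tp σ (tX l)) = 1 := by decide +kernel

theorem elc_unit : ∀ (σ : Fin 6) (l : Fin 3) (n : Fin 10), (n = 0 ∨ n = 7 ∨ n = 8 ∨ n = 9) →
    elc σ l (tp σ n) = 0 := by decide +kernel

end rel

end LCG_

open LCG_ in
theorem LCG_proof (hUCH : Stmt_Uch) (hRAY : Stmt_Ray) : Stmt_Lcg := by
  intro F _ g π σ l hray
  obtain ⟨φ, hker, hfu, hsurj, hZ, hche, hunit⟩ := hUCH F π σ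
  have hdom := LCG_.isDomain F σ
  obtain ⟨hprime, hndvd⟩ := Xa_prime F σ l
  have hZu := isUnit_Za F σ
  obtain ⟨hR1, hR2⟩ := hRAY.1 g π σ l hray
  have hI : ∀ r, r ∈ I F ↔ φ r = 0 := fun r => by rw [← hker, RingHom.mem_ker]
  -- images of the coordinates
  have hxc : ∀ c, ∃ w, IsUnit w ∧ φ (xc F c) = w * ∏ l', Xa F σ l' ^ elc σ l' (act π⁻¹ c) := by
    intro c
    obtain ⟨w, hw, hwe⟩ := hunit (act π⁻¹ c)
    refine ⟨((sgn π (act π⁻¹ c) : ℤ) : Au F σ) * w, ?_, ?_⟩
    · refine IsUnit.mul ?_ hw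
      refine IsUnit.of_mul_eq_one ((sgn π (act π⁻¹ c) : ℤ) : Au F σ) ?_
      rw [← Int.cast_mul, sgn_sq, Int.cast_one]
    · rw [xc_eq F π c, map_mul, map_intCast, hwe, mul_assoc]
  have hdvd : ∀ c, 0 < ordG g c → Xa F σ l ∣ φ (xc F c) := by
    intro c hc
    obtain ⟨w, -, hwe⟩ := hxc c
    rw [hwe]
    refine Dvd.dvd.mul_left ?_ w
    refine dvd_trans ?_ (Finset.dvd_prod_of_mem _ (Finset.mem_univ l))
    refine dvd_pow_self _ ?_
    rw [hR1 c]
    omega
  have hnd : ∀ c, ordG g c = 0 → ¬ Xa F σ l ∣ φ (xc F c) := by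
    intro c hc h
    obtain ⟨w, hw, hwe⟩ := hxc c
    rw [hwe] at h
    rcases hprime.dvd_or_dvd h with h | h
    · exact hprime.not_isUnit (isUnit_of_dvd_unit h hw)
    · obtain ⟨l', -, hl'⟩ := (hprime.dvd_finsetProd_iff _).1 h
      by_cases hll : elc σ l' (act π⁻¹ c) = 0
      · rw [hll, pow_zero] at hl'
        exact hprime.not_isUnit (isUnit_of_dvd_one hl')
      · have h2 := hndvd l' (hprime.dvd_of_dvd_pow hl')
        subst h2
        rw [hR1 c] at hll
        exact hll hc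
  -- clearing denominators
  have clear : ∀ r, Xa F σ l ∣ φ r → ∃ (n : ℕ) (b : MvPolynomial (Fin (N + 1)) F),
      chf F π σ ^ n * r - b * che F π σ l ∈ I F := by
    rintro r ⟨y, hy⟩
    obtain ⟨z, hz⟩ := hZu.exists_left_inv
    obtain ⟨n, r', hr'⟩ := hsurj (z * y)
    refine ⟨n, r', (hI _).2 ?_⟩
    rw [map_sub, map_mul, map_mul, map_pow, ← hr', hche, hy]
    linear_combination (- φ (chf F π σ) ^ n * y * Xa F σ l) * hz
  have clear' : ∀ r, Xa F σ l ∣ φ r → ∃ n : ℕ,
      chf F π σ ^ n * r ∈ Ideal.span {che F π σ l} ⊔ I F := by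
    intro r hr
    obtain ⟨n, b, hb⟩ := clear r hr
    refine ⟨n, ?_⟩
    have h1 : chf F π σ ^ n * r = b * che F π σ l + (chf F π σ ^ n * r - b * che F π σ l) := by
      ring
    rw [h1]
    exact Ideal.add_mem _ (Ideal.mul_mem_left _ _ (Ideal.mem_sup_left
      (Ideal.mem_span_singleton_self _))) (Ideal.mem_sup_right hb)
  have mem : ∀ r, r ∈ Ideal.span {che F π σ l} ⊔ I F → Xa F σ l ∣ φ r := by
    intro r hr
    obtain ⟨a, ha, b, hb, rfl⟩ := Submodule.mem_sup.1 hr
    rw [map_add, (hI b).1 hb, add_zero]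
    obtain ⟨s, rfl⟩ := Ideal.mem_span_singleton'.1 ha
    rw [map_mul, hche]
    exact Dvd.intro_left _ (by ring : (φ s * Za F σ) * Xa F σ l = _)
  have hXa0 : Xa F σ l ≠ 0 := hprime.ne_zero
  refine ⟨?_, ?_, ?_, ?_, ?_, ?_⟩
  · -- (1)
    unfold che Jg
    rw [tws_eq]
    refine Ideal.mul_mem_left _ _ (Ideal.subset_span ⟨_, ?_, rfl⟩)
    rw [← hR1, act_act', elc_tX]
    exact one_pos
  · -- (2)
    rw [hI, hche]
    exact mul_ne_zero hZu.ne_zero hXa0
  · -- (3)
    intro c hc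
    exact clear _ (hdvd c hc)
  · -- (4)
    obtain ⟨v, hv⟩ := exists_v F π g σ l hray
    have hv' : φ v * φ (xc F (cG g)) = φ (che F π σ l) ^ aG g * φ (xc F cO) ^ 2 := by
      have := (hI _).1 hv
      rw [map_sub, map_mul, map_mul, map_pow, map_pow, sub_eq_zero] at this
      exact this
    have hvu : IsUnit (φ v) := by
      obtain ⟨w1, hw1, e1⟩ := hxc (cG g)
      obtain ⟨w2, hw2, e2⟩ := hxc cO
      have e3 : ∏ l', Xa F σ l' ^ elc σ l' (act π⁻¹ (cG g)) =
          (∏ l', Xa F σ l' ^ elc σ l' (act π⁻¹ cO)) ^ 2 * Xa F σ l ^ aG g := by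
        rw [← Finset.prod_pow]
        have : Xa F σ l ^ aG g = ∏ l', Xa F σ l' ^ (if l' = l then aG g else 0) := by
          rw [Finset.prod_eq_single l]
          · rw [if_pos rfl]
          · intro b _ hb
            rw [if_neg hb, pow_zero]
          · intro h
            exact absurd (Finset.mem_univ l) h
        rw [this, ← Finset.prod_mul_distrib]
        refine Finset.prod_congr rfl fun l' _ => ?_
        rw [hR2 l', pow_add, pow_mul']
      set Q := ∏ l', Xa F σ l' ^ elc σ l' (act π⁻¹ cO) with hQ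
      have hQ0 : Q ^ 2 * Xa F σ l ^ aG g ≠ 0 := by
        refine mul_ne_zero (pow_ne_zero _ ?_) (pow_ne_zero _ hXa0)
        rw [hQ, Finset.prod_ne_zero_iff]
        intro l' _
        exact pow_ne_zero _ (Xa_prime F σ l').1.ne_zero
      rw [e1, e2, e3, hche] at hv'
      have h5 : (φ v * w1) * (Q ^ 2 * Xa F σ l ^ aG g) =
          (Za F σ ^ aG g * w2 ^ 2) * (Q ^ 2 * Xa F σ l ^ aG g) := by
        linear_combination hv'
      have h6 := mul_right_cancel₀ hQ0 h5
      have h7 : IsUnit (φ v * w1) := by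
        rw [h6]
        exact (hZu.pow _).mul (hw2.pow _)
      exact isUnit_of_mul_isUnit_left h7
    obtain ⟨z, hz⟩ := hvu.exists_left_inv
    obtain ⟨n, u, hu⟩ := hsurj z
    refine ⟨n, u, v, (hI _).2 ?_, (hI _).2 ?_⟩
    · rw [map_sub, map_mul, map_pow, ← hu]
      linear_combination φ (chf F π σ) ^ n * hz
    · rw [map_sub, map_mul, map_mul, map_mul, map_pow, map_pow, map_pow, ← hu]
      linear_combination (φ (chf F π σ) ^ n * z) * hv' -
        (φ (chf F π σ) ^ n * φ (xc F (cG g))) * hz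
  · -- (5)
    intro r r' h
    have h1 := mem _ h
    rw [map_mul] at h1
    rcases hprime.dvd_or_dvd h1 with h2 | h2
    · exact Or.inl (clear' _ h2)
    · exact Or.inr (clear' _ h2)
  · -- (6)
    intro π' σ' l' hray' n m h
    have h1 := mem _ h
    rw [map_mul, map_pow, map_pow] at h1
    have h2 : Xa F σ l ∣ φ (chf F π' σ') := by
      rcases hprime.dvd_or_dvd h1 with h2 | h2
      · exact absurd (isUnit_of_dvd_unit h2 (hfu.pow _)) hprime.not_isUnit
      · exact hprime.dvd_of_dvd_pow h2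
    have h3 : ∀ n : Fin 10, (n = 0 ∨ n = 7 ∨ n = 8 ∨ n = 9) →
        ¬ Xa F σ l ∣ φ (tws π' (xc F) (tp σ' n)) := by
      intro n hn h4
      rw [tws_eq, map_mul, map_intCast] at h4
      rcases hprime.dvd_or_dvd h4 with h5 | h5
      · refine hprime.not_isUnit (isUnit_of_dvd_unit h5 ?_)
        refine IsUnit.of_mul_eq_one ((sgn π' (tp σ' n) : ℤ) : Au F σ) ?_
        rw [← Int.cast_mul, sgn_sq, Int.cast_one]
      · refine hnd _ ?_ h5
        rw [← (hRAY.1 g π' σ' l' hray').1, act_act']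
        exact elc_unit σ' l' n hn
    unfold chf at h2
    rw [map_mul, map_mul, map_mul] at h2
    rcases hprime.dvd_or_dvd h2 with h2 | h2
    · rcases hprime.dvd_or_dvd h2 with h2 | h2
      · rcases hprime.dvd_or_dvd h2 with h2 | h2
        · exact h3 0 (by simp) h2
        · exact h3 7 (by simp) h2
      · exact h3 8 (by simp) h2
    · exact h3 9 (by simp) h2

end Pool.Agent.XB
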