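import Pool.Agent.XB.StmtsB

/-!
# LFK: the special fibre of the integral model is over `X`
-/

set_option autoImplicit false

noncomputable section

namespace Pool.Agent.XB

open scoped Classical
open MvPolynomial Pool.Agent.FRM Pool.Agent.XV Pool.Agent.GML

namespace LFK_

theorem br2_ne (F : Type) [Field F] (i j : Fin 5) (h : i ≠ j) : br2 F i j ≠ 0 := by
  intro h0
  have h1 := congrArg (aeval (R := F) (S₁ := F) fun v => match v with
    | .a l => if l = i then (1 : F) else 0
    | .b l => if l = j then (1 : F) else 0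
    | .u => 0
    | .T => 0) h0
  simp [br2, h, h.symm] at h1

theorem cm_ne (F : Type) [Field F] (c : Pt) : cm F c ≠ 0 := by
  unfold cm mon
  refine mul_ne_zero (mul_ne_zero (pow_ne_zero _ (X_ne_zero _)) (pow_ne_zero _ (X_ne_zero _)))
    (Finset.prod_ne_zero_iff.2 fun k _ => pow_ne_zero _ (br2_ne F _ _ ?_))
  revert k
  decide

theorem sgn_sq (π : Equiv.Perm (Fin 5)) (c : Pt) : sgn π c * sgn π c = 1 := by
  unfold sgn
  rw [← Finset.prod_mul_distrib]
  refine Finset.prod_eq_one fun k _ => ?_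
  rw [← mul_pow]
  have h : sg π k * sg π k = 1 := by
    unfold sg
    split_ifs <;> norm_num
  rw [h, one_pow]

theorem cx_tws_ne (F : Type) [Field F] (π : Equiv.Perm (Fin 5)) (c : Pt) :
    cx F (tws π (xc F) c) ≠ 0 := by
  unfold tws
  rw [map_mul, cx_xc]
  refine mul_ne_zero ?_ (cm_ne F _)
  intro h
  have h1 := congrArg (fun n : ℤ => (n : Cox F)) (sgn_sq π c)
  simp only [Int.cast_mul, Int.cast_one] at h1
  rw [map_intCast] at h
  rw [h, zero_mul] at h1
  exact zero_ne_one h1

theorem chf_pow_notMem (F : Type) [Field F] (π : Equiv.Perm (Fin 5)) (σ : Fin 6) (n : ℕ) :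
    chf F π σ ^ n ∉ I F := by
  intro h
  have h1 : cx F (chf F π σ ^ n) = 0 := h
  rw [map_pow] at h1
  have h2 : cx F (chf F π σ) ≠ 0 := by
    unfold chf
    rw [map_mul, map_mul, map_mul]
    exact mul_ne_zero (mul_ne_zero (mul_ne_zero (cx_tws_ne F π _) (cx_tws_ne F π _))
      (cx_tws_ne F π _)) (cx_tws_ne F π _)
  exact pow_ne_zero n h2 h1

section

variable {K : Type} [Field K] (V : ValuationSubring K) {B : Type} [CommRing B] [Algebra K B]
  (φ : MvPolynomial (Fin (N + 1)) K →ₐ[K] B)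

theorem lfb_mem {F : Type} [Field F] (c : F →+* V) (G : MvPolynomial (Fin (N + 1)) F) :
    lfb V φ c G ∈ Sb V φ := RingHom.isIntegralElem_map _

/-- The polynomials over the coefficient field in the integral model. -/
def lfS {F : Type} [Field F] (c : F →+* V) : MvPolynomial (Fin (N + 1)) F →+* Sb V φ :=
  (lfb V φ c).codRestrict (Sb V φ) (lfb_mem V φ c)

/-- The ideal of the multiples of `ϖ`. -/
def pI (ϖ : V) : Ideal (Sb V φ) := Ideal.span {algebraMap V (Sb V φ) ϖ}

theorem mem_pI (ϖ : V) (x : Sb V φ) : x ∈ pI V φ ϖ ↔ Dvb V φ ϖ (x : B) := by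
  unfold pI
  rw [Ideal.mem_span_singleton]
  constructor
  · rintro ⟨y, hy⟩
    exact ⟨y, y.2, congrArg Subtype.val hy⟩
  · rintro ⟨y, hy, hxy⟩
    exact ⟨⟨y, hy⟩, Subtype.ext hxy⟩

end

/-- The application of KRF in a localisation of a quotient. -/
theorem loc_lemma (hKRF : Stmt_Krf) {S : Type} [CommRing S] (q : Ideal S) {F : Type} [Field F]
    (l : MvPolynomial (Fin (N + 1)) F →+* S)
    (heq : ∀ g ∈ I ℤ, l (MvPolynomial.map (Int.castRingHom F) g) ∈ q)
    (G : MvPolynomial (Fin (N + 1)) F) (hG : G ∈ I F) :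
    ∃ n : ℕ, l (chf F 1 0 ^ n) * l G ∈ q := by
  set f : S := l (chf F 1 0) with hf
  let A : Type := Localization.Away (Ideal.Quotient.mk q f)
  let ψ : MvPolynomial (Fin (N + 1)) F →+* A :=
    (algebraMap (S ⧸ q) A).comp ((Ideal.Quotient.mk q).comp l)
  letI : Algebra F A := (ψ.comp C).toAlgebra
  let s : Pt → A := fun c' => ψ (xc F c')
  have hs : ∀ i, s (pt i) = ψ (X i) := by
    intro i
    change ψ (X (pt.symm (pt i))) = ψ (X i)
    rw [Equiv.symm_apply_apply]
  have haev : ∀ G : MvPolynomial (Fin (N + 1)) F, aeval (R := F) (fun i => s (pt i)) G = ψ G := by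
    have h : ((aeval (R := F) (fun i => s (pt i)) : MvPolynomial (Fin (N + 1)) F →ₐ[F] A) :
        MvPolynomial (Fin (N + 1)) F →+* A) = ψ := by
      refine MvPolynomial.ringHom_ext (fun a => ?_) (fun i => ?_)
      · rw [RingHom.coe_coe, aeval_C]
        rfl
      · rw [RingHom.coe_coe, aeval_X, hs]
    exact fun G => DFunLike.congr_fun h G
  have hsol : IsSol s := by
    intro g hg
    have h : (eval₂Hom (Int.castRingHom A) fun i => s (pt i)) =
        ψ.comp (MvPolynomial.map (Int.castRingHom F)) := by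
      refine MvPolynomial.ringHom_ext (fun a => ?_) (fun i => ?_)
      · rw [eval₂Hom_C, RingHom.comp_apply, MvPolynomial.map_C]
        simp
      · rw [eval₂Hom_X', RingHom.comp_apply, MvPolynomial.map_X, hs]
    have h1 := DFunLike.congr_fun h g
    change eval₂ (Int.castRingHom A) (fun i => s (pt i)) g =
      ψ (MvPolynomial.map (Int.castRingHom F) g) at h1
    rw [h1]
    change algebraMap (S ⧸ q) A (Ideal.Quotient.mk q
      (l (MvPolynomial.map (Int.castRingHom F) g))) = 0
    rw [Ideal.Quotient.eq_zero_iff_mem.2 (heq g hg), map_zero]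
  have hunit : IsUnit (aeval (R := F) (fun i => s (pt i)) (chf F 1 0)) := by
    rw [haev]
    exact IsLocalization.Away.algebraMap_isUnit (Ideal.Quotient.mk q f)
  have h0 := hKRF F A s hsol 1 0 hunit G hG
  rw [haev] at h0
  change algebraMap (S ⧸ q) A (Ideal.Quotient.mk q (l G)) = 0 at h0
  rw [IsLocalization.map_eq_zero_iff (Submonoid.powers (Ideal.Quotient.mk q f))] at h0
  obtain ⟨⟨m, n, hm⟩, h1⟩ := h0
  change (Ideal.Quotient.mk q f) ^ n = m at hm
  change m * _ = 0 at h1
  rw [← hm, ← map_pow, ← map_mul, Ideal.Quotient.eq_zero_iff_mem] at h1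
  refine ⟨n, ?_⟩
  rw [map_pow]
  exact h1

end LFK_

open LFK_

theorem LFK_proof (hKRF : Stmt_Krf) (hNZD : Stmt_Nzd) (hGSS : Stmt_Gss) (hHLA : FRM.Stmt_Hla) :
    Stmt_Lfk := by
  intro p J E K _ V F _ c σ t ϖ P z B _ _ φ ℬ _ hSu G
  have hdom := hSu.dom
  have hp : Fact p.Prime := ⟨hSu.base.pr⟩
  have hch := hSu.base.charp
  have hcl := hSu.base.close
  have hdvr := hSu.base.dvr
  have hdim : ringKrullDim (MvPolynomial (Fin (N + 1)) K ⧸ P) = 4 := by
    rw [hcl.dim]
    norm_num
  obtain ⟨-, hnot1, -⟩ := hGSS K V ϖ hSu.base.irr hSu.base.dvr P hdim z hcl.z_int B φ hSu.ker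
    hSu.intB
  constructor
  · intro h
    by_contra hG
    have h1 := hNZD p J E K V F c σ t ϖ P z B φ ℬ hSu G hG 1 (one_mem _)
    rw [mul_one] at h1
    exact hnot1 (h1 h)
  intro hG
  -- the integral equations
  have heq : ∀ g ∈ I ℤ, Dvb V φ ϖ (lfb V φ c (MvPolynomial.map (Int.castRingHom F) g)) := by
    have h1 : I ℤ ≤ (pI V φ ϖ).comap ((lfS V φ c).comp (MvPolynomial.map (Int.castRingHom F))) := by
      rw [← hSu.base.good.span, Ideal.span_le]
      rintro _ ⟨j, rfl⟩
      change (lfS V φ c) (MvPolynomial.map (Int.castRingHom F) (E.g j)) ∈ pI V φ ϖ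
      rw [mem_pI]
      change Dvb V φ ϖ (lfb V φ c (MvPolynomial.map (Int.castRingHom F) (E.g j)))
      have h2 := hHLA p N 3 J E K V t P z hcl j
      let φ' : MvPolynomial (Fin (N + 1)) K ⧸ P →+* B :=
        Ideal.Quotient.lift P (φ : MvPolynomial (Fin (N + 1)) K →+* B) (fun a ha => by
          rw [← hSu.ker] at ha
          exact ha)
      have h4 : φ (C ((t : K)⁻¹) * red K (E.g j)) ∈ Sb V φ := h2.map φ'
      obtain ⟨t', ht'⟩ : ϖ ∣ t := by
        have h5 := (IsDiscreteValuationRing.irreducible_iff_uniformizer ϖ).1 hSu.base.irr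
        have h6 : t ∈ IsLocalRing.maximalIdeal V := hcl.t_nonunit
        rw [h5, Ideal.mem_span_singleton] at h6
        exact h6
      have h7 : lfb V φ c (MvPolynomial.map (Int.castRingHom F) (E.g j)) = φ (red K (E.g j)) := by
        unfold lfb vB
        rw [RingHom.comp_apply, RingHom.comp_apply, MvPolynomial.map_map, MvPolynomial.map_map,
          RingHom.ext_int ((V.subtype.comp c).comp (Int.castRingHom F)) (Int.castRingHom K)]
        rfl
      refine ⟨algebraMap V B t' * φ (C ((t : K)⁻¹) * red K (E.g j)),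
        Subalgebra.mul_mem _ (Subalgebra.algebraMap_mem _ _) h4, ?_⟩
      rw [h7, ← mul_assoc, ← map_mul, ← ht', map_mul φ]
      have ht0 : (t : K) ≠ 0 := fun h => hcl.t_ne (Subtype.ext h)
      have h8 : algebraMap V B t * φ (C ((t : K)⁻¹)) = 1 := by
        have e1 : φ (C ((t : K)⁻¹)) = algebraMap K B (t : K)⁻¹ := φ.commutes _
        have e2 : algebraMap V B t = algebraMap K B (t : K) := rfl
        rw [e1, e2, ← map_mul, mul_inv_cancel₀ ht0, map_one]
      rw [← mul_assoc, h8, one_mul]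
    intro g hg
    exact (mem_pI V φ ϖ _).1 (h1 hg)
  obtain ⟨n, h1⟩ := loc_lemma hKRF (pI V φ ϖ) (lfS V φ c)
    (fun g hg => (mem_pI V φ ϖ _).2 (heq g hg)) G hG
  rw [mem_pI] at h1
  exact hNZD p J E K V F c σ t ϖ P z B φ ℬ hSu _ (chf_pow_notMem F 1 0 n) _ (lfb_mem V φ c G) h1

end Pool.Agent.XB
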