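import Pool.Agent.XB.Stmts

/-!
# XB, module QGR: quotients by homogeneous ideals are graded
-/

set_option autoImplicit false

noncomputable section

namespace Pool.Agent.XB

open scoped Classical
open MvPolynomial Pool.Agent.FRM Pool.Agent.XV Pool.Agent.GML

namespace QGR_

variable {F : Type} [Field F] (J : Ideal (MvPolynomial (Fin (N + 1)) F))

theorem mk_mem {m : ℕ} {f : MvPolynomial (Fin (N + 1)) F} (h : f.IsHomogeneous m) :
    Ideal.Quotient.mk J f ∈ qgr J m := ⟨f, h, rfl⟩

theorem exists_rep {m : ℕ} (x : qgr J m) :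
    ∃ f : MvPolynomial (Fin (N + 1)) F, f.IsHomogeneous m ∧ Ideal.Quotient.mk J f = x := by
  obtain ⟨x, f, hf, rfl⟩ := x
  exact ⟨f, hf, rfl⟩

instance gm : SetLike.GradedMonoid (qgr J) where
  one_mem := by
    have h := mk_mem J (isHomogeneous_one (Fin (N + 1)) F)
    rw [map_one] at h
    exact h
  mul_mem := by
    rintro i j _ _ ⟨f, hf, rfl⟩ ⟨g, hg, rfl⟩
    have h := mk_mem J (hf.mul hg)
    rw [map_mul] at h
    exact h

theorem internal (hJ : ∀ G ∈ J, ∀ m, homogeneousComponent m G ∈ J) :
    DirectSum.IsInternal (qgr J) := by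
  constructor
  · rw [injective_iff_map_eq_zero]
    intro x hx
    choose f hf hfx using fun m => exists_rep J (x m)
    rw [DirectSum.coeAddMonoidHom_eq_dfinsuppSum, DFinsupp.sum] at hx
    have h1 : ∑ i ∈ DFinsupp.support x, f i ∈ J := by
      rw [← Ideal.Quotient.eq_zero_iff_mem, map_sum, ← hx]
      exact Finset.sum_congr rfl fun i _ => hfx i
    apply DFinsupp.ext
    intro m
    by_cases hm : m ∈ DFinsupp.support x
    · have h2 := hJ _ h1 m
      rw [map_sum] at h2
      have h3 : ∑ i ∈ DFinsupp.support x, homogeneousComponent m (f i) = f m := by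
        rw [Finset.sum_eq_single m]
        · rw [homogeneousComponent_of_mem (hf m), if_pos rfl]
        · intro i _ hi
          rw [homogeneousComponent_of_mem (hf i), if_neg hi.symm]
        · intro h
          exact absurd hm h
      rw [h3, ← Ideal.Quotient.eq_zero_iff_mem, hfx] at h2
      exact Subtype.ext h2
    · rw [DFinsupp.notMem_support_iff] at hm
      exact hm
  · intro y
    obtain ⟨p, rfl⟩ := Ideal.Quotient.mk_surjective y
    refine ⟨∑ m ∈ Finset.range (p.totalDegree + 1), DirectSum.of (fun m => qgr J m) m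
      ⟨_, mk_mem J (homogeneousComponent_isHomogeneous m p)⟩, ?_⟩
    rw [map_sum]
    simp only [DirectSum.coeAddMonoidHom_of]
    rw [← map_sum, sum_homogeneousComponent]

end QGR_

open QGR_

theorem QGR_proof : Stmt_Qgr := by
  intro F _ J hJ
  let _ : DirectSum.Decomposition (qgr J) := (internal J hJ).chooseDecomposition
  exact ⟨{ QGR_.gm J with }⟩

end Pool.Agent.XB
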