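import Pool.Agent.XB.Stmts

/-!
# XB / RAY: orders along the surfaces in the charts
-/

set_option autoImplicit false

noncomputable section

namespace Pool.Agent.XB

open scoped Classical
open MvPolynomial Pool.Agent.FRM Pool.Agent.XV Pool.Agent.GML

namespace RAY_

lemma act_inv_w (π : Equiv.Perm (Fin 5)) (c : Pt) : (act π⁻¹ c).w = c.w := rfl

lemma act_inv_e (π : Equiv.Perm (Fin 5)) (c : Pt) (k : Fin 10) :
    (act π⁻¹ c).e k = c.e (pe π k) := by
  change c.e (pe (π⁻¹)⁻¹ k) = c.e (pe π k)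
  rw [inv_inv]

lemma disj_ne (k l : Fin 10) (h : Disj k l) : l ≠ k := by
  rintro rfl
  exact h.1 rfl

lemma disj07 : Disj 0 7 := by decide

lemma disj70 : Disj 7 0 := by decide

lemma cGe_self (k : Fin 10) : cGe k k = 4 := by
  unfold cGe
  rw [if_pos rfl]

lemma cGe_disj (k l : Fin 10) (h : Disj k l) : cGe k l = 2 := by
  unfold cGe
  rw [if_neg (disj_ne k l h), if_pos h]

lemma elc_inv (σ : Fin 6) (l : Fin 3) (π : Equiv.Perm (Fin 5)) (c : Pt) :
    elc σ l (act π⁻¹ c) = el σ l c.w (c.e (pe π 0)) (c.e (pe π 7)) := by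
  unfold elc
  rw [act_inv_w, act_inv_e, act_inv_e]

lemma tab : ∀ (σ : Fin 6) (k : Fin 10),
    (k = 0 ∧ (σ = 0 ∨ σ = 1 ∨ σ = 2)) ∨ (k = 7 ∧ (σ = 0 ∨ σ = 1)) ∨
      0 < te σ 0 k ∨ 0 < te σ 7 k ∨ 0 < te σ 8 k ∨ 0 < te σ 9 k := by
  decide +kernel

lemma tabw : ∀ (σ : Fin 6), σ = 0 ∨ 0 < tw σ 0 := by
  decide +kernel

end RAY_

open RAY_ in
theorem RAY_proof : Stmt_Ray := by
  refine ⟨?_, ?_⟩
  · rintro g π σ l (⟨rfl, rfl, rfl⟩ | ⟨k, rfl, ⟨rfl, hσ, hk⟩ | ⟨rfl, hσ, hk⟩⟩)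
    · refine ⟨fun c => ?_, fun l' => ?_⟩
      · rw [elc_inv]; rfl
      · rw [elc_inv, elc_inv]
        fin_cases l' <;> rfl
    · have h7 : cGe k (pe π 7) = 2 := by
        apply cGe_disj
        rw [← hk]
        exact disj_pe π 0 7 disj07
      have h0 : cGe k (pe π 0) = 4 := by rw [hk]; exact cGe_self k
      refine ⟨fun c => ?_, fun l' => ?_⟩
      · rw [elc_inv, hk]
        rcases hσ with rfl | rfl | rfl <;> rfl
      · rw [elc_inv, elc_inv]
        change el σ l' 0 (cGe k (pe π 0)) (cGe k (pe π 7)) = 2 * el σ l' 0 1 1 + _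
        rw [h0, h7]
        rcases hσ with rfl | rfl | rfl <;> fin_cases l' <;> rfl
    · have h0 : cGe k (pe π 0) = 2 := by
        apply cGe_disj
        rw [← hk]
        exact disj_pe π 7 0 disj70
      have h7 : cGe k (pe π 7) = 4 := by rw [hk]; exact cGe_self k
      refine ⟨fun c => ?_, fun l' => ?_⟩
      · rw [elc_inv, hk]
        rcases hσ with rfl | rfl <;> rfl
      · rw [elc_inv, elc_inv]
        change el σ l' 0 (cGe k (pe π 0)) (cGe k (pe π 7)) = 2 * el σ l' 0 1 1 + _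
        rw [h0, h7]
        rcases hσ with rfl | rfl <;> fin_cases l' <;> rfl
  · intro g π σ
    cases g with
    | none =>
      rcases tabw σ with rfl | h
      · exact Or.inl ⟨2, Or.inl ⟨rfl, rfl, rfl⟩⟩
      · exact Or.inr ⟨0, Or.inl rfl, h⟩
    | some k =>
      have hk : pe π (pe π⁻¹ k) = k := by
        rw [← pe_mul, mul_inv_cancel, pe_one]
      rcases tab σ (pe π⁻¹ k) with ⟨h1, h2⟩ | ⟨h1, h2⟩ | h | h | h | h
      · rw [h1] at hk
        exact Or.inl ⟨0, Or.inr ⟨k, rfl, Or.inl ⟨rfl, h2, hk⟩⟩⟩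
      · rw [h1] at hk
        exact Or.inl ⟨1, Or.inr ⟨k, rfl, Or.inr ⟨rfl, h2, hk⟩⟩⟩
      · exact Or.inr ⟨0, Or.inl rfl, h⟩
      · exact Or.inr ⟨7, Or.inr (Or.inl rfl), h⟩
      · exact Or.inr ⟨8, Or.inr (Or.inr (Or.inl rfl)), h⟩
      · exact Or.inr ⟨9, Or.inr (Or.inr (Or.inr rfl)), h⟩

end Pool.Agent.XB
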