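import Pool.Agent.XB.Stmts

/-!
# SUX: the data of the bridge from a complete model
-/

set_option autoImplicit false

noncomputable section

namespace Pool.Agent.XB

open scoped Classical
open MvPolynomial Pool.Agent.FRM Pool.Agent.XV Pool.Agent.GML

theorem SUX_proof : Stmt_Sux := by
  intro p hp J E hE Y
  letI := Y.field
  letI := Y.fieldF
  haveI := Y.closedF
  haveI := Y.dvr
  obtain ⟨ϖ, hϖ⟩ := IsDiscreteValuationRing.exists_irreducible Y.V
  let e : Y.F ≃+* IsLocalRing.ResidueField Y.V :=
    RingEquiv.ofBijective ((IsLocalRing.residue Y.V).comp Y.c) Y.bij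
  have he : ∀ x, e x = IsLocalRing.residue Y.V (Y.c x) := fun x => rfl
  refine ⟨e.symm.toRingHom.comp (IsLocalRing.residue Y.V), ϖ, ?_⟩
  refine
    { closed := Y.closedF
      charp := Y.char
      pr := hp.out
      good := hE
      dvr := Y.dvr
      close := Y.close
      irr := hϖ
      sec := ?_
      ker := ?_ }
  · intro x
    change e.symm (IsLocalRing.residue Y.V (Y.c x)) = x
    rw [← he, e.symm_apply_apply]
  · have h1 : IsLocalRing.maximalIdeal Y.V = Ideal.span {ϖ} :=
      (IsDiscreteValuationRing.irreducible_iff_uniformizer ϖ).1 hϖ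
    rw [← h1]
    ext v
    rw [RingHom.mem_ker, ← IsLocalRing.residue_eq_zero_iff]
    change e.symm (IsLocalRing.residue Y.V v) = 0 ↔ _
    rw [map_eq_zero_iff _ e.symm.injective]

end Pool.Agent.XB
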