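import Pool.Agent.XB.Stmts
import Pool.Agent.XV.TAN
import Pool.Agent.LibDb3ab1.Dim

/-!
# XB, module UCH: the coordinate rings of the charts
-/

set_option autoImplicit false
set_option linter.style.haveILetI false

noncomputable section

namespace Pool.Agent.XB

open scoped Classical
open MvPolynomial Pool.Agent.FRM Pool.Agent.XV Pool.Agent.GML

namespace UCH_

/-! ### signs -/

theorem eS_lt_eT : ∀ k, eS k < eT k := by decide

theorem sg_sg (π : Equiv.Perm (Fin 5)) (k : Fin 10) : sg π⁻¹ (pe π k) = sg π k := by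
  have hne : π (eS k) ≠ π (eT k) := fun h' => eS_ne_eT k (π.injective h')
  have hlt := eS_lt_eT (pe π k)
  have hk := eS_lt_eT k
  have e1 : ∀ i, π⁻¹ (π i) = i := fun i => by simp
  unfold sg
  rcases ed_spec _ _ hne with ⟨h1, h2⟩ | ⟨h1, h2⟩
  · have h1' : eS (pe π k) = π (eS k) := h1
    have h2' : eT (pe π k) = π (eT k) := h2
    rw [h1', h2'] at hlt
    rw [h1', h2', e1, e1, if_pos hlt, if_pos hk]
  · have h1' : eS (pe π k) = π (eT k) := h1
    have h2' : eT (pe π k) = π (eS k) := h2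
    rw [h1', h2'] at hlt
    rw [h1', h2', e1, e1, if_neg (not_lt.mpr hlt.le), if_neg (not_lt.mpr hk.le)]

theorem sg_sq (π : Equiv.Perm (Fin 5)) (k : Fin 10) : sg π k * sg π k = 1 := by
  unfold sg
  split_ifs <;> norm_num

theorem sgn_sgn (π : Equiv.Perm (Fin 5)) (c : Pt) : sgn π c * sgn π⁻¹ (act π c) = 1 := by
  have h1 : sgn π⁻¹ (act π c) = sgn π c := by
    unfold sgn
    rw [← Equiv.prod_comp (peE π)]
    refine Finset.prod_congr rfl fun k _ => ?_
    have h2 : peE π k = pe π k := rfl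
    rw [h2, sg_sg, act_e]
  rw [h1]
  unfold sgn
  rw [← Finset.prod_mul_distrib]
  refine Finset.prod_eq_one fun k _ => ?_
  rw [← mul_pow, sg_sq, one_pow]

theorem act_act' (π : Equiv.Perm (Fin 5)) (c : Pt) : act π⁻¹ (act π c) = c := by
  have h := TAN_.act_act π⁻¹ c
  rwa [inv_inv] at h

theorem tws_tws {B : Type} [CommRing B] (π : Equiv.Perm (Fin 5)) (s : Pt → B) (c : Pt) :
    tws π (tws π⁻¹ s) c = s c := by
  unfold tws
  rw [act_act', ← mul_assoc, ← Int.cast_mul, sgn_sgn, Int.cast_one, one_mul]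

/-! ### tables -/

theorem t_elc0 : ∀ (σ : Fin 6) (l : Fin 3), elc σ l (tp σ 0) = 0 := by decide +kernel

theorem t_elcU : ∀ (σ : Fin 6) (l : Fin 3) (j : Fin 3), elc σ l (tp σ (tU j)) = 0 := by
  decide +kernel

theorem t_elcX : ∀ (σ : Fin 6) (l l' : Fin 3),
    elc σ l (tp σ (tX l')) = if l = l' then 1 else 0 := by decide +kernel

theorem t_nu0 : ∀ (σ : Fin 6) (j : Fin 3), nu σ j (tp σ 0) = 0 := by decide +kernel

theorem t_nuX : ∀ (σ : Fin 6) (j l : Fin 3), nu σ j (tp σ (tX l)) = 0 := by decide +kernel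

theorem t_nuU : ∀ (σ : Fin 6) (j j' : Fin 3),
    nu σ j (tp σ (tU j')) = if j = j' then 1 else 0 := by decide +kernel

/-! ### the ring -/

section ring

variable (F : Type) [Field F] (σ : Fin 6)

theorem gA_ne : gA F σ ≠ 0 := by
  intro h
  have h1 := congrArg (MvPolynomial.eval (fun i : Fin 4 => if i = 0 then (1 : F) else 0)) h
  rw [map_zero] at h1
  have hx0 : MvPolynomial.eval (fun i : Fin 4 => if i = 0 then (1 : F) else 0)
      (hx σ fun l => (X l.succ : MvPolynomial (Fin 4) F)) = 0 := by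
    unfold hx
    rw [map_prod]
    fin_cases σ <;> simp [Fin.prod_univ_three, rx]
  have hy0 : MvPolynomial.eval (fun i : Fin 4 => if i = 0 then (1 : F) else 0)
      (hy σ fun l => (X l.succ : MvPolynomial (Fin 4) F)) = 0 := by
    unfold hy
    rw [map_prod]
    fin_cases σ <;> simp [Fin.prod_univ_three, ry]
  unfold gA at h1
  rw [map_mul, map_mul, map_mul, map_add, map_add, map_sub, map_mul, map_one, hx0, hy0,
    eval_X] at h1
  simp at h1

theorem pow_le : Submonoid.powers (gA F σ) ≤ nonZeroDivisors (MvPolynomial (Fin 4) F) :=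
  powers_le_nonZeroDivisors_of_noZeroDivisors (gA_ne F σ)

instance : IsDomain (Au F σ) := IsLocalization.isDomain_localization (pow_le F σ)

theorem alg_inj : Function.Injective (algebraMap (MvPolynomial (Fin 4) F) (Au F σ)) :=
  IsLocalization.injective _ (pow_le F σ)

theorem hx_alg : algebraMap (MvPolynomial (Fin 4) F) (Au F σ) (hx σ fun l => X l.succ) =
    hx σ (Xa F σ) := by
  unfold hx
  rw [map_prod]
  refine Finset.prod_congr rfl fun l _ => ?_
  rw [map_pow]; rfl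

theorem hy_alg : algebraMap (MvPolynomial (Fin 4) F) (Au F σ) (hy σ fun l => X l.succ) =
    hy σ (Xa F σ) := by
  unfold hy
  rw [map_prod]
  refine Finset.prod_congr rfl fun l _ => ?_
  rw [map_pow]; rfl

theorem gA_alg : algebraMap (MvPolynomial (Fin 4) F) (Au F σ) (gA F σ) =
    Za F σ * (1 + hx σ (Xa F σ)) * (1 + hy σ (Xa F σ)) * (1 - hx σ (Xa F σ) * hy σ (Xa F σ)) := by
  have key : ∀ q : MvPolynomial (Fin 4) F →+* Au F σ, q (gA F σ) =
      q (X 0) * (1 + q (hx σ fun l => X l.succ)) * (1 + q (hy σ fun l => X l.succ)) *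
        (1 - q (hx σ fun l => X l.succ) * q (hy σ fun l => X l.succ)) := by
    intro q
    change q (X 0 * (1 + hx σ fun l => X l.succ) * (1 + hy σ fun l => X l.succ) *
      (1 - (hx σ fun l => X l.succ) * hy σ fun l => X l.succ)) = _
    rw [map_mul, map_mul, map_mul, map_add, map_add, map_sub, map_mul, map_one]
  rw [key, hx_alg, hy_alg]
  rfl

theorem units : IsUnit (Za F σ) ∧ IsUnit (1 + hx σ (Xa F σ)) ∧ IsUnit (1 + hy σ (Xa F σ)) ∧
    IsUnit (1 - hx σ (Xa F σ) * hy σ (Xa F σ)) := by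
  have h : IsUnit (algebraMap (MvPolynomial (Fin 4) F) (Au F σ) (gA F σ)) :=
    IsLocalization.Away.algebraMap_isUnit (gA F σ)
  rw [gA_alg] at h
  rw [IsUnit.mul_iff, IsUnit.mul_iff, IsUnit.mul_iff] at h
  tauto

end ring

/-! ### the universal solution -/

section sol

variable (F : Type) [Field F] (σ : Fin 6)

/-- the unit `Z` -/
def Zu : (Au F σ)ˣ := (units F σ).1.unit

theorem Zu_val : ((Zu F σ : (Au F σ)ˣ) : Au F σ) = Za F σ := rfl

/-- the units `U` -/
def Uu : Fin 3 → (Au F σ)ˣ :=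
  ![(units F σ).2.1.unit, (units F σ).2.2.1.unit, (units F σ).2.2.2.unit]

theorem Uu0 : ((Uu F σ 0 : (Au F σ)ˣ) : Au F σ) = 1 + hx σ (Xa F σ) := rfl
theorem Uu1 : ((Uu F σ 1 : (Au F σ)ˣ) : Au F σ) = 1 + hy σ (Xa F σ) := rfl
theorem Uu2 : ((Uu F σ 2 : (Au F σ)ˣ) : Au F σ) = 1 - hx σ (Xa F σ) * hy σ (Xa F σ) := rfl

/-- the universal solution -/
def us (c : Pt) : Au F σ :=
  ((Zu F σ : (Au F σ)ˣ) : Au F σ) * (∏ l, Xa F σ l ^ elc σ l c) *
    ((∏ j, Uu F σ j ^ nu σ j c : (Au F σ)ˣ) : Au F σ)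

theorem us0 : us F σ (tp σ 0) = Za F σ := by
  unfold us
  have h1 : ∏ l, Xa F σ l ^ elc σ l (tp σ 0) = 1 :=
    Finset.prod_eq_one fun l _ => by rw [t_elc0, pow_zero]
  have h2 : ∏ j, Uu F σ j ^ nu σ j (tp σ 0) = 1 :=
    Finset.prod_eq_one fun l _ => by rw [t_nu0, zpow_zero]
  rw [h1, h2, Units.val_one, mul_one, mul_one, Zu_val]

theorem usX (l : Fin 3) : us F σ (tp σ (tX l)) = Za F σ * Xa F σ l := by
  unfold us
  have h1 : ∏ l', Xa F σ l' ^ elc σ l' (tp σ (tX l)) = Xa F σ l := by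
    rw [Finset.prod_eq_single l]
    · rw [t_elcX, if_pos rfl, pow_one]
    · intro b _ hb
      rw [t_elcX, if_neg hb, pow_zero]
    · intro h; exact absurd (Finset.mem_univ l) h
  have h2 : ∏ j, Uu F σ j ^ nu σ j (tp σ (tX l)) = 1 :=
    Finset.prod_eq_one fun j _ => by rw [t_nuX, zpow_zero]
  rw [h1, h2, Units.val_one, mul_one, Zu_val]

theorem usU (j : Fin 3) : us F σ (tp σ (tU j)) = Za F σ * ((Uu F σ j : (Au F σ)ˣ) : Au F σ) := by
  unfold us
  have h1 : ∏ l, Xa F σ l ^ elc σ l (tp σ (tU j)) = 1 :=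
    Finset.prod_eq_one fun l _ => by rw [t_elcU, pow_zero]
  have h2 : ∏ j', Uu F σ j' ^ nu σ j' (tp σ (tU j)) = Uu F σ j := by
    rw [Finset.prod_eq_single j]
    · rw [t_nuU, if_pos rfl, zpow_one]
    · intro b _ hb
      rw [t_nuU, if_neg hb, zpow_zero]
    · intro h; exact absurd (Finset.mem_univ j) h
  rw [h1, h2, mul_one, Zu_val]

theorem us_sol (hUNI : Stmt_Uni) : IsSol (us F σ) :=
  hUNI (Au F σ) σ (Zu F σ) (Xa F σ) (Uu F σ) (Uu0 F σ) (Uu1 F σ) (Uu2 F σ)

theorem gA_alg' : algebraMap (MvPolynomial (Fin 4) F) (Au F σ) (gA F σ) =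
    Za F σ * ((Uu F σ 0 : (Au F σ)ˣ) : Au F σ) * ((Uu F σ 1 : (Au F σ)ˣ) : Au F σ) *
      ((Uu F σ 2 : (Au F σ)ˣ) : Au F σ) := gA_alg F σ

variable (π : Equiv.Perm (Fin 5))

/-- the homomorphism -/
def ph : MvPolynomial (Fin (N + 1)) F →ₐ[F] Au F σ :=
  aeval fun i => tws π⁻¹ (us F σ) (pt i)

theorem ph_xc (c : Pt) : ph F σ π (xc F c) = tws π⁻¹ (us F σ) c := by
  unfold ph xc
  rw [aeval_X, Equiv.apply_symm_apply]

theorem ph_tws (c : Pt) : ph F σ π (tws π (xc F) c) = us F σ c := by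
  rw [← tws_tws π (us F σ) c]
  unfold tws
  rw [map_mul, map_intCast, ph_xc]
  rfl

theorem ph_chf : ph F σ π (chf F π σ) = Za F σ * (Za F σ * ((Uu F σ 0 : (Au F σ)ˣ) : Au F σ)) *
    (Za F σ * ((Uu F σ 1 : (Au F σ)ˣ) : Au F σ)) *
    (Za F σ * ((Uu F σ 2 : (Au F σ)ˣ) : Au F σ)) := by
  unfold chf
  rw [map_mul, map_mul, map_mul, ph_tws, ph_tws, ph_tws, ph_tws, us0]
  have h0 := usU F σ 0
  have h1 := usU F σ 1
  have h2 := usU F σ 2
  simp only [tU, Matrix.cons_val_zero, Matrix.cons_val_one, Matrix.cons_val] at h0 h1 h2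
  rw [h0, h1, h2]

theorem ph_che (l : Fin 3) : ph F σ π (che F π σ l) = Za F σ * Xa F σ l := by
  unfold che
  rw [ph_tws, usX]

/-- surjectivity after localisation -/
theorem surj (y : Au F σ) : ∃ (n : ℕ) (r : MvPolynomial (Fin (N + 1)) F),
    ph F σ π (chf F π σ) ^ n * y = ph F σ π r := by
  set h := ph F σ π (chf F π σ) with hh
  let T : Subalgebra F (Au F σ) :=
    { carrier := {y | ∃ (n : ℕ) (r : MvPolynomial (Fin (N + 1)) F), h ^ n * y = ph F σ π r}
      mul_mem' := by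
        rintro a b ⟨n, r, h1⟩ ⟨m, r', h2⟩
        refine ⟨n + m, r * r', ?_⟩
        rw [map_mul, ← h1, ← h2, pow_add]; ring
      add_mem' := by
        rintro a b ⟨n, r, h1⟩ ⟨m, r', h2⟩
        refine ⟨n + m, chf F π σ ^ m * r + chf F π σ ^ n * r', ?_⟩
        rw [map_add, map_mul, map_mul, map_pow, map_pow, ← h1, ← h2, ← hh, pow_add]; ring
      algebraMap_mem' := fun a => ⟨0, C a, by
        rw [pow_zero, one_mul]
        exact ((ph F σ π).commutes a).symm⟩ }
  have hT : ∀ y, y ∈ T ↔ ∃ (n : ℕ) (r : MvPolynomial (Fin (N + 1)) F), h ^ n * y = ph F σ π r :=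
    fun y => Iff.rfl
  have hr : ∀ c, us F σ c ∈ (ph F σ π).range := fun c => ⟨tws π (xc F) c, ph_tws F σ π c⟩
  have hZ : Za F σ ∈ (ph F σ π).range := by rw [← us0]; exact hr _
  have hZX : ∀ l, Za F σ * Xa F σ l ∈ (ph F σ π).range := fun l => by rw [← usX]; exact hr _
  have hZU : ∀ j, Za F σ * ((Uu F σ j : (Au F σ)ˣ) : Au F σ) ∈ (ph F σ π).range :=
    fun j => by rw [← usU]; exact hr _
  have hTZ : Za F σ ∈ T := by
    obtain ⟨r, hr⟩ := hZ
    exact ⟨0, r, by rw [pow_zero, one_mul]; exact hr.symm⟩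
  have hTX : ∀ l, Xa F σ l ∈ T := by
    intro l
    have h1 : h ^ 1 * Xa F σ l = (Za F σ * Xa F σ l) *
        (Za F σ * ((Uu F σ 0 : (Au F σ)ˣ) : Au F σ)) *
        (Za F σ * ((Uu F σ 1 : (Au F σ)ˣ) : Au F σ)) *
        (Za F σ * ((Uu F σ 2 : (Au F σ)ˣ) : Au F σ)) := by
      rw [hh, ph_chf]; ring
    obtain ⟨r, hr⟩ := Subalgebra.mul_mem _ (Subalgebra.mul_mem _ (Subalgebra.mul_mem _ (hZX l)
      (hZU 0)) (hZU 1)) (hZU 2)
    exact ⟨1, r, by rw [h1]; exact hr.symm⟩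
  have hTA : ∀ a : MvPolynomial (Fin 4) F, algebraMap (MvPolynomial (Fin 4) F) (Au F σ) a ∈ T := by
    intro a
    induction a using MvPolynomial.induction_on with
    | C a =>
      have h1 : algebraMap (MvPolynomial (Fin 4) F) (Au F σ) (C a) = algebraMap F (Au F σ) a :=
        (IsScalarTower.algebraMap_apply F (MvPolynomial (Fin 4) F) (Au F σ) a).symm
      rw [h1]
      exact T.algebraMap_mem a
    | add p q hp hq => rw [map_add]; exact T.add_mem hp hq
    | mul_X p i hp =>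
      rw [map_mul]
      refine T.mul_mem hp ?_
      refine Fin.cases ?_ (fun l => ?_) i
      · exact hTZ
      · exact hTX l
  obtain ⟨⟨a, g⟩, hag⟩ := IsLocalization.surj (Submonoid.powers (gA F σ)) y
  obtain ⟨g, k, rfl⟩ := g
  simp only at hag
  -- the inverse of the denominator
  have hinv : ∃ w ∈ T, w * algebraMap (MvPolynomial (Fin 4) F) (Au F σ) (gA F σ) = 1 := by
    refine ⟨((((units F σ).1.unit * Uu F σ 0 * Uu F σ 1 * Uu F σ 2)⁻¹ : (Au F σ)ˣ) : Au F σ), ?_, ?_⟩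
    · obtain ⟨r, hr⟩ := Subalgebra.mul_mem _ (Subalgebra.mul_mem _ hZ hZ) hZ
      refine ⟨1, r, ?_⟩
      have h2 : (ph F σ π : MvPolynomial (Fin (N + 1)) F → Au F σ) r =
        Za F σ * Za F σ * Za F σ := hr
      rw [h2]
      have h3 : h ^ 1 = Za F σ * Za F σ * Za F σ *
          (((units F σ).1.unit * Uu F σ 0 * Uu F σ 1 * Uu F σ 2 : (Au F σ)ˣ) : Au F σ) := by
        rw [hh, ph_chf]
        simp only [Units.val_mul, IsUnit.unit_spec]
        ring
      rw [h3, mul_assoc, Units.mul_inv, mul_one]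
    · rw [gA_alg']
      have h4 : Za F σ * ((Uu F σ 0 : (Au F σ)ˣ) : Au F σ) * ((Uu F σ 1 : (Au F σ)ˣ) : Au F σ) *
          ((Uu F σ 2 : (Au F σ)ˣ) : Au F σ) =
          (((units F σ).1.unit * Uu F σ 0 * Uu F σ 1 * Uu F σ 2 : (Au F σ)ˣ) : Au F σ) := by
        simp only [Units.val_mul, IsUnit.unit_spec]
      rw [h4, Units.inv_mul]
  obtain ⟨w, hwT, hw⟩ := hinv
  have hy : y = algebraMap (MvPolynomial (Fin 4) F) (Au F σ) a * w ^ k := by
    rw [← hag, map_pow, mul_assoc, ← mul_pow, mul_comm _ w, hw, one_pow, mul_one]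
  rw [← hT, hy]
  exact T.mul_mem (hTA a) (T.pow_mem hwT k)

theorem unit_chf : IsUnit (ph F σ π (chf F π σ)) := by
  rw [ph_chf]
  have hZ := (units F σ).1
  exact ((hZ.mul (hZ.mul (Units.isUnit _))).mul (hZ.mul (Units.isUnit _))).mul
    (hZ.mul (Units.isUnit _))

instance alg_range : Algebra.IsAlgebraic (ph F σ π).range (Au F σ) := by
  constructor
  intro y
  obtain ⟨n, r, h⟩ := surj F σ π y
  have h1 : IsAlgebraic (ph F σ π).range (ph F σ π (chf F π σ ^ n)) :=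
    isAlgebraic_algebraMap (R := (ph F σ π).range) (A := Au F σ) ⟨_, chf F π σ ^ n, rfl⟩
  have h2 : IsAlgebraic (ph F σ π).range (ph F σ π r) :=
    isAlgebraic_algebraMap (R := (ph F σ π).range) (A := Au F σ) ⟨_, r, rfl⟩
  have h3 : ph F σ π (chf F π σ ^ n) ∈ nonZeroDivisors (Au F σ) := by
    rw [map_pow]
    exact ((unit_chf F σ π).pow n).mem_nonZeroDivisors
  refine IsAlgebraic.of_mul h3 h1 ?_
  rw [map_pow, h]
  exact h2

theorem dim_ge : (4 : WithBot ℕ∞) ≤
    ringKrullDim (MvPolynomial (Fin (N + 1)) F ⧸ RingHom.ker (ph F σ π)) := by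
  have hfin : Algebra.FiniteType F (ph F σ π).range :=
    Algebra.FiniteType.of_surjective (ph F σ π).rangeRestrict (ph F σ π).rangeRestrict_surjective
  haveI : FaithfulSMul (MvPolynomial (Fin 4) F) (Au F σ) :=
    (faithfulSMul_iff_algebraMap_injective _ _).mpr (alg_inj F σ)
  have htr : Algebra.trdeg F (ph F σ π).range = (4 : ℕ) := by
    have h2 := lift_trdeg_add_eq F (ph F σ π).range (Au F σ)
    have h3 : Algebra.trdeg (ph F σ π).range (Au F σ) = 0 := by
      rw [trdeg_eq_zero_iff]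
      infer_instance
    have h4 := lift_trdeg_add_eq F (MvPolynomial (Fin 4) F) (Au F σ)
    have h5 : Algebra.trdeg (MvPolynomial (Fin 4) F) (Au F σ) = 0 := by
      rw [trdeg_eq_zero_iff]
      exact IsLocalization.isAlgebraic _ (Submonoid.powers (gA F σ))
    rw [h5, MvPolynomial.trdeg_of_isDomain] at h4
    rw [h3] at h2
    simp at h2 h4
    rw [h2, ← h4]
    norm_cast
  have hdim := LibDb3ab1.ringKrullDim_eq_trdeg F (ph F σ π).range htr
  have hker : ∀ a ∈ RingHom.ker (ph F σ π), (ph F σ π).rangeRestrict.toRingHom a = 0 := by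
    intro a ha
    apply Subtype.ext
    exact ha
  have h5 := ringKrullDim_le_of_surjective
    (Ideal.Quotient.lift (RingHom.ker (ph F σ π)) (ph F σ π).rangeRestrict.toRingHom hker)
    (Ideal.Quotient.lift_surjective_of_surjective _ hker (ph F σ π).rangeRestrict_surjective)
  rw [hdim] at h5
  exact_mod_cast h5

end sol

end UCH_

open UCH_ in
theorem UCH_proof (hSYM : XV.Stmt_Sym) (_hHOM : XV.Stmt_Hom) (_hCHV : XV.Stmt_Chv)
    (_hCHR : XV.Stmt_Chr) (hUNI : XV.Stmt_Uni) (hSPX : XV.Stmt_Spx) : Stmt_Uch := by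
  intro F _ π σ
  have hs : IsSol (tws π⁻¹ (us F σ)) := hSYM _ _ π⁻¹ (us_sol F σ hUNI)
  have hprime : (RingHom.ker (ph F σ π)).IsPrime := RingHom.ker_isPrime _
  have hmem : ∀ g ∈ I ℤ, MvPolynomial.map (Int.castRingHom F) g ∈ RingHom.ker (ph F σ π) := by
    intro g hg
    have h1 := hs g hg
    rw [RingHom.mem_ker]
    change aeval (fun i => tws π⁻¹ (us F σ) (pt i)) (MvPolynomial.map (Int.castRingHom F) g) = 0
    rw [aeval_def, eval₂_map]
    have h2 : (algebraMap F (Au F σ)).comp (Int.castRingHom F) = Int.castRingHom (Au F σ) :=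
      RingHom.ext_int _ _
    rw [h2]
    exact h1
  refine ⟨ph F σ π, (hSPX F _ hprime hmem).2 (dim_ge F σ π), unit_chf F σ π, surj F σ π, ?_,
    ph_che F σ π, ?_⟩
  · rw [ph_tws, us0]
  · intro c
    refine ⟨((Zu F σ : (Au F σ)ˣ) : Au F σ) * ((∏ j, Uu F σ j ^ nu σ j c : (Au F σ)ˣ) : Au F σ),
      (Units.isUnit _).mul (Units.isUnit _), ?_⟩
    rw [ph_tws]
    unfold us
    ring

end Pool.Agent.XB
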