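import Pool.Agent.XB.StmtsB

/-!
# VGT: the degree of `X` is larger than the degree of `G`
-/

set_option autoImplicit false

noncomputable section

namespace Pool.Agent.XB

open scoped Classical
open MvPolynomial Pool.Agent.FRM Pool.Agent.XV Pool.Agent.GML

namespace VGT_

/-- The weight of `u`. -/
def wt : Vr → ℕ := fun v => if v = Vr.u then 1 else 0

theorem br2_ne (F : Type) [Field F] (i j : Fin 5) (h : i ≠ j) : br2 F i j ≠ 0 := by
  intro h0
  have h1 := congrArg (aeval (R := F) (S₁ := F) fun v => match v with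
    | .a l => if l = i then (1 : F) else 0
    | .b l => if l = j then (1 : F) else 0
    | .u => 0
    | .T => 0) h0
  simp [br2, h, h.symm] at h1

theorem cm_ne (F : Type) [Field F] (c : Pt) : cm F c ≠ 0 := by
  unfold cm mon
  refine mul_ne_zero (mul_ne_zero (pow_ne_zero _ (X_ne_zero _)) (pow_ne_zero _ (X_ne_zero _)))
    (Finset.prod_ne_zero_iff.2 fun k _ => pow_ne_zero _ (br2_ne F _ _ ?_))
  revert k
  decide

theorem wh_br (F : Type) [Field F] (k : Fin 10) : IsWeightedHomogeneous wt (br F k) 0 := by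
  unfold br br2
  have h : ∀ i j : Fin 5, IsWeightedHomogeneous wt (X (Vr.a i) * X (Vr.b j) : Cox F) 0 := by
    intro i j
    have h1 := isWeightedHomogeneous_X F wt (Vr.a i)
    have h2 := isWeightedHomogeneous_X F wt (Vr.b j)
    have e1 : wt (Vr.a i) = 0 := by simp [wt]
    have e2 : wt (Vr.b j) = 0 := by simp [wt]
    rw [e1] at h1
    rw [e2] at h2
    exact h1.mul h2
  exact (h _ _).sub (h _ _)

theorem wh_cm (F : Type) [Field F] (c : Pt) : IsWeightedHomogeneous wt (cm F c) c.w := by
  unfold cm mon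
  have h1 := (isWeightedHomogeneous_X F wt Vr.T).pow 1
  have h2 := (isWeightedHomogeneous_X F wt Vr.u).pow c.w
  have e1 : wt Vr.T = 0 := by simp [wt]
  have e2 : wt Vr.u = 1 := by simp [wt]
  rw [e1] at h1
  rw [e2] at h2
  have h3 : IsWeightedHomogeneous wt (∏ k, br F k ^ c.e k) (∑ k : Fin 10, 0) := by
    refine IsWeightedHomogeneous.prod _ _ _ fun k _ => ?_
    have := (wh_br F k).pow (c.e k)
    rwa [smul_zero] at this
  have h4 := (h1.mul h2).mul h3
  have e3 : 1 • 0 + c.w • 1 + ∑ k : Fin 10, 0 = c.w := by simp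
  rwa [e3] at h4

/-- Setting the coordinates with positive exponent of `u` equal to zero. -/
def rho (F : Type) [Field F] : MvPolynomial (Fin (N + 1)) F →ₐ[F] MvPolynomial (Fin (N + 1)) F :=
  aeval fun i => if (pt i).w = 0 then X i else 0

theorem wh_rho (F : Type) [Field F] (G : MvPolynomial (Fin (N + 1)) F) :
    IsWeightedHomogeneous wt (cx F (rho F G)) 0 := by
  induction G using MvPolynomial.induction_on with
  | C a =>
    rw [show rho F (C a) = C a from (rho F).commutes a, show cx F (C a) = C a from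
      (cx F).commutes a]
    exact isWeightedHomogeneous_C wt a
  | add p q hp hq =>
    rw [map_add, map_add]
    exact hp.add hq
  | mul_X p i hp =>
    rw [map_mul, map_mul]
    have h : IsWeightedHomogeneous wt (cx F (rho F (X i))) 0 := by
      unfold rho
      rw [aeval_X]
      split_ifs with h0
      · unfold cx
        rw [aeval_X]
        have := wh_cm F (pt i)
        rwa [h0] at this
      · rw [map_zero]
        exact isWeightedHomogeneous_zero F wt 0
    exact hp.mul h

theorem rho_hom (F : Type) [Field F] (G : MvPolynomial (Fin (N + 1)) F) (k : ℕ)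
    (hG : G.IsHomogeneous k) : (rho F G).IsHomogeneous k := by
  unfold rho
  have := hG.aeval (fun i => if (pt i).w = 0 then (X i : MvPolynomial (Fin (N + 1)) F) else 0)
    (n := 1) (fun i => by
      split_ifs
      · exact isHomogeneous_X F i
      · exact isHomogeneous_zero _ _ _)
  rwa [one_mul] at this

theorem rho_sub (F : Type) [Field F] (G : MvPolynomial (Fin (N + 1)) F) :
    G - rho F G ∈ Jg F none := by
  have h : (Ideal.Quotient.mkₐ F (Jg F none)).comp (rho F) = Ideal.Quotient.mkₐ F (Jg F none) := by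
    refine MvPolynomial.algHom_ext fun i => ?_
    rw [AlgHom.comp_apply]
    unfold rho
    rw [aeval_X]
    split_ifs with h0
    · rfl
    · rw [map_zero]
      symm
      change Ideal.Quotient.mk (Jg F none) (X i) = 0
      rw [Ideal.Quotient.eq_zero_iff_mem]
      apply Ideal.subset_span
      refine ⟨pt i, Nat.pos_of_ne_zero h0, ?_⟩
      unfold xc
      rw [Equiv.symm_apply_apply]
  have h1 := DFunLike.congr_fun h G
  change Ideal.Quotient.mk (Jg F none) (rho F G) = Ideal.Quotient.mk (Jg F none) G at h1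
  exact (Ideal.Quotient.eq.1 h1.symm)

/-- The image of the forms of degree `k` in the coordinates with exponent `0` of `u`. -/
def D (F : Type) [Field F] (k : ℕ) : Submodule F (Cox F) :=
  (homogeneousSubmodule (Fin (N + 1)) F k).map ((cx F).comp (rho F)).toLinearMap

/-- The image of the forms of degree `k`. -/
def T (F : Type) [Field F] (k : ℕ) : Submodule F (Cox F) :=
  (homogeneousSubmodule (Fin (N + 1)) F k).map (cx F).toLinearMap

theorem finite_hom (F : Type) [Field F] (k : ℕ) :
    Module.Finite F (homogeneousSubmodule (Fin (N + 1)) F k) :=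
  Module.Finite.iff_fg.2 (homogeneousSubmodule_fg (Fin (N + 1)) F k)

/-- Comparison of images by kernels. -/
theorem finrank_map_le {F A B C : Type} [Field F] [AddCommGroup A] [AddCommGroup B]
    [AddCommGroup C] [Module F A] [Module F B] [Module F C] (H : Submodule F A)
    [Module.Finite F H] (f : A →ₗ[F] B) (g : A →ₗ[F] C) (h : ∀ x ∈ H, g x = 0 → f x = 0) :
    Module.finrank F (H.map f) ≤ Module.finrank F (H.map g) := by
  have e1 : H.map f = LinearMap.range (f.domRestrict H) := by
    rw [LinearMap.range_domRestrict]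
  have e2 : H.map g = LinearMap.range (g.domRestrict H) := by
    rw [LinearMap.range_domRestrict]
  rw [e1, e2]
  have h1 := LinearMap.finrank_range_add_finrank_ker (f.domRestrict H)
  have h2 := LinearMap.finrank_range_add_finrank_ker (g.domRestrict H)
  have h3 : Module.finrank F (LinearMap.ker (g.domRestrict H)) ≤
      Module.finrank F (LinearMap.ker (f.domRestrict H)) := by
    apply Submodule.finrank_mono
    intro x hx
    exact h x.1 x.2 hx
  omega

theorem qgr_le (F : Type) [Field F] (k : ℕ) :
    Module.finrank F (qgr (JI F none) k) ≤ Module.finrank F (D F k) := by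
  have := finite_hom F k
  apply finrank_map_le
  intro G _ h0
  change Ideal.Quotient.mk (JI F none) G = 0
  rw [Ideal.Quotient.eq_zero_iff_mem]
  have h1 : rho F G ∈ I F := h0
  have h2 : G = (G - rho F G) + rho F G := by ring
  rw [h2]
  exact Ideal.add_mem _ (Ideal.mem_sup_left (rho_sub F G)) (Ideal.mem_sup_right h1)

theorem T_le (F : Type) [Field F] (k : ℕ) :
    Module.finrank F (T F k) ≤ Module.finrank F (qgr (I F) k) := by
  have := finite_hom F k
  apply finrank_map_le
  intro G _ h0
  have h1 : G ∈ I F := Ideal.Quotient.eq_zero_iff_mem.1 h0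
  exact h1

/-- The multiplier. -/
def E (F : Type) [Field F] (m : ℕ) (q : Fin (m + 1) × Fin 12) : MvPolynomial (Fin (N + 1)) F :=
  xc F (tp 5 0) ^ (m - q.1.1) * xc F (tp 0 3) ^ q.2.1 * xc F cO ^ (11 - q.2.1)

theorem E_hom (F : Type) [Field F] (m : ℕ) (q : Fin (m + 1) × Fin 12) :
    (E F m q).IsHomogeneous (m - q.1.1 + 11) := by
  unfold E
  have h1 := (isHomogeneous_X F (pt.symm (tp 5 0))).pow (m - q.1.1)
  have h2 := (isHomogeneous_X F (pt.symm (tp 0 3))).pow q.2.1
  have h3 := (isHomogeneous_X F (pt.symm cO)).pow (11 - q.2.1)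
  have h4 := (h1.mul h2).mul h3
  have e : 1 * (m - q.1.1) + 1 * q.2.1 + 1 * (11 - q.2.1) = m - q.1.1 + 11 := by
    have := q.2.2
    omega
  rw [e] at h4
  exact h4

theorem E_wh (F : Type) [Field F] (m : ℕ) (q : Fin (m + 1) × Fin 12) :
    IsWeightedHomogeneous wt (cx F (E F m q)) (12 * (m - q.1.1) + q.2.1) := by
  unfold E
  rw [map_mul, map_mul, map_pow, map_pow, map_pow, cx_xc, cx_xc, cx_xc]
  have h1 := (wh_cm F (tp 5 0)).pow (m - q.1.1)
  have h2 := (wh_cm F (tp 0 3)).pow q.2.1
  have h3 := (wh_cm F cO).pow (11 - q.2.1)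
  have h4 := (h1.mul h2).mul h3
  have e1 : (tp 5 0).w = 12 := rfl
  have e2 : (tp 0 3).w = 1 := rfl
  have e3 : cO.w = 0 := rfl
  rw [e1, e2, e3] at h4
  have e : (m - q.1.1) • 12 + q.2.1 • 1 + (11 - q.2.1) • 0 = 12 * (m - q.1.1) + q.2.1 := by
    simp [mul_comm]
  rw [e] at h4
  exact h4

theorem E_ne (F : Type) [Field F] (m : ℕ) (q : Fin (m + 1) × Fin 12) : cx F (E F m q) ≠ 0 := by
  unfold E
  rw [map_mul, map_mul, map_pow, map_pow, map_pow, cx_xc, cx_xc, cx_xc]
  exact mul_ne_zero (mul_ne_zero (pow_ne_zero _ (cm_ne F _)) (pow_ne_zero _ (cm_ne F _)))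
    (pow_ne_zero _ (cm_ne F _))

/-- The map from the sum of the spaces `D`. -/
def Phi (F : Type) [Field F] (m : ℕ) :
    (∀ q : Fin (m + 1) × Fin 12, D F q.1.1) →ₗ[F] Cox F :=
  ∑ q, (LinearMap.mulLeft F (cx F (E F m q))) ∘ₗ (D F q.1.1).subtype ∘ₗ LinearMap.proj q

theorem Phi_apply (F : Type) [Field F] (m : ℕ) (r : ∀ q : Fin (m + 1) × Fin 12, D F q.1.1) :
    Phi F m r = ∑ q, cx F (E F m q) * (r q : Cox F) := by
  simp [Phi]

theorem D_wh (F : Type) [Field F] (k : ℕ) (r : D F k) :
    IsWeightedHomogeneous wt (r : Cox F) 0 := by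
  obtain ⟨G, -, hG⟩ := r.2
  rw [← hG]
  exact wh_rho F G

theorem Phi_inj (F : Type) [Field F] (m : ℕ) : Function.Injective (Phi F m) := by
  rw [injective_iff_map_eq_zero]
  intro r hr
  rw [Phi_apply] at hr
  funext q
  apply Subtype.ext
  have h1 : ∀ q' : Fin (m + 1) × Fin 12,
      weightedHomogeneousComponent wt (12 * (m - q.1.1) + q.2.1)
        (cx F (E F m q') * (r q' : Cox F)) =
      if q' = q then cx F (E F m q') * (r q' : Cox F) else 0 := by
    intro q'
    have h2 := (E_wh F m q').mul (D_wh F _ (r q'))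
    rw [add_zero] at h2
    rw [weightedHomogeneousComponent_of_mem h2]
    by_cases hq : q' = q
    · rw [if_pos hq, hq, if_pos rfl]
    · rw [if_neg hq, if_neg]
      intro h3
      apply hq
      have a1 := q.1.2
      have a2 := q'.1.2
      have a3 := q.2.2
      have a4 := q'.2.2
      refine Prod.ext (Fin.ext ?_) (Fin.ext ?_) <;> omega
  have h2 := congrArg (weightedHomogeneousComponent wt (12 * (m - q.1.1) + q.2.1)) hr
  rw [map_sum, map_zero, Finset.sum_congr rfl fun q' _ => h1 q', Finset.sum_ite_eq' ,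
    if_pos (Finset.mem_univ q)] at h2
  exact (mul_eq_zero.1 h2).resolve_left (E_ne F m q)

theorem Phi_mem (F : Type) [Field F] (m : ℕ) (r : ∀ q : Fin (m + 1) × Fin 12, D F q.1.1) :
    Phi F m r ∈ T F (m + 11) := by
  rw [Phi_apply]
  refine Submodule.sum_mem _ fun q _ => ?_
  obtain ⟨G, hG, hG'⟩ := (r q).2
  rw [← hG']
  refine ⟨E F m q * rho F G, ?_, ?_⟩
  · have h1 := (E_hom F m q).mul (rho_hom F G q.1.1 hG)
    have e : m - q.1.1 + 11 + q.1.1 = m + 11 := by
      have := q.1.2
      omega
    rw [e] at h1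
    exact h1
  · exact map_mul (cx F) _ _

end VGT_

open VGT_

theorem VGT_proof (_hHOM : XV.Stmt_Hom) (_hPRI : XV.Stmt_Pri) : Stmt_Vgt := by
  intro F _ m
  have hfT : Module.Finite F (T F (m + 11)) := by
    have := finite_hom F (m + 11)
    unfold T
    infer_instance
  have hfD : ∀ k, Module.Finite F (D F k) := by
    intro k
    have := finite_hom F k
    unfold D
    infer_instance
  have h1 : Module.finrank F (∀ q : Fin (m + 1) × Fin 12, D F q.1.1) ≤
      Module.finrank F (T F (m + 11)) :=
    LinearMap.finrank_le_finrank_of_injective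
      (f := (Phi F m).codRestrict (T F (m + 11)) (Phi_mem F m)) (by
        intro a b hab
        exact Phi_inj F m (congrArg Subtype.val hab))
  rw [Module.finrank_pi_fintype, Fintype.sum_prod_type] at h1
  have h2 : ∀ k : Fin (m + 1), ∑ _i : Fin 12, Module.finrank F (D F k.1) =
      12 * Module.finrank F (D F k.1) := by
    intro k
    rw [Finset.sum_const, Finset.card_univ, Fintype.card_fin, smul_eq_mul]
  have h3 := Finset.sum_congr (rfl : (Finset.univ : Finset (Fin (m + 1))) = Finset.univ)
    fun k _ => h2 k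
  have h1 := h3.symm.le.trans h1
  rw [← Finset.mul_sum] at h1
  refine le_trans ?_ (h1.trans (T_le F (m + 11)))
  apply Nat.mul_le_mul_left
  rw [Finset.sum_range]
  exact Finset.sum_le_sum fun k _ => qgr_le F k.1

end Pool.Agent.XB
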