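import Pool.Agent.XV.All
import Pool.Agent.FRM.All
import Pool.Agent.GML.All
import Pool.Agent.XB.BSX
import Pool.Agent.XB.CVG
import Pool.Agent.XB.DMG
import Pool.Agent.XB.FID
import Pool.Agent.XB.FNH
import Pool.Agent.XB.GLU
import Pool.Agent.XB.GRV
import Pool.Agent.XB.GSS
import Pool.Agent.XB.HIB
import Pool.Agent.XB.HIX
import Pool.Agent.XB.HMB
import Pool.Agent.XB.INX
import Pool.Agent.XB.KRF
import Pool.Agent.XB.LCG
import Pool.Agent.XB.LFK
import Pool.Agent.XB.LNF
import Pool.Agent.XB.NZD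
import Pool.Agent.XB.QGR
import Pool.Agent.XB.RAY
import Pool.Agent.XB.SUK
import Pool.Agent.XB.SUX
import Pool.Agent.XB.UCH
import Pool.Agent.XB.VGT

/-!
# The bridge: all statements are proved
-/

set_option autoImplicit false

namespace Pool.Agent.XB

theorem lza : FRM.Stmt_Lza := FRM.lza_proof

theorem lze : FRM.Stmt_Lze := FRM.lze_proof

theorem ray : Stmt_Ray := RAY_proof

theorem uch : Stmt_Uch := UCH_proof XV.sym XV.hom XV.chv XV.chr XV.uni XV.spx

theorem krf : Stmt_Krf := KRF_proof uch XV.chv XV.chr XV.sym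

theorem cvg : Stmt_Cvg := CVG_proof XV.cov XV.hom ray

theorem lcg : Stmt_Lcg := LCG_proof uch ray

theorem glu : Stmt_Glu := GLU_proof cvg lcg XV.pri

theorem lnf : Stmt_Lnf := LNF_proof XV.dim XV.pri lza lze

theorem fnh : Stmt_Fnh := FNH_proof

theorem dmg : Stmt_Dmg := DMG_proof uch fnh ray XV.pri

theorem qgr' : Stmt_Qgr := QGR_proof

theorem sux : Stmt_Sux := SUX_proof

theorem suk : Stmt_Suk := SUK_proof FRM.fina

theorem grv : Stmt_Grv := GRV_proof

theorem hmb : Stmt_Hmb := HMB_proof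

theorem gss : Stmt_Gss := GSS_proof

theorem fid : Stmt_Fid := FID_proof FRM.fina

theorem nzd : Stmt_Nzd := NZD_proof gss fid FRM.hla XV.spx

theorem lfk : Stmt_Lfk := LFK_proof krf nzd gss FRM.hla

theorem inx : Stmt_Inx := INX_proof nzd lfk fid hmb fnh

theorem bsx : Stmt_Bsx := BSX_proof fid nzd lfk gss

theorem hib : Stmt_Hib := HIB_proof fid nzd lfk gss FRM.homa GML.a_gro hmb XV.pri

theorem hix : Stmt_Hix := HIX_proof XV.dim XV.pri fnh qgr' lza lze GML.a_gro

theorem vgt : Stmt_Vgt := VGT_proof XV.hom XV.pri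

end Pool.Agent.XB
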