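import Pool.Agent.XB.Stmts
import Pool.Agent.DIL.Dil

/-!
# The bridge from close models of `X` to the counting of functionals: the integral model

`B` is a graded domain which contains the homogeneous coordinate ring `K[x] / P` of the close model
and is integral over it (for example `K[x] / P` itself or its normalisation). The recipes are in
`/team-store/MP_db3ab1_XB.md`.
-/

set_option autoImplicit false

noncomputable section

namespace Pool.Agent.XB

open scoped Classical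
open MvPolynomial Pool.Agent.FRM Pool.Agent.XV Pool.Agent.GML

section defs

variable {K : Type} [Field K] (V : ValuationSubring K) {B : Type} [CommRing B] [Algebra K B]
  (φ : MvPolynomial (Fin (N + 1)) K →ₐ[K] B)

/-- The homomorphism `V[x] → B`. -/
def vB : MvPolynomial (Fin (N + 1)) V →+* B :=
  (φ : MvPolynomial (Fin (N + 1)) K →+* B).comp (MvPolynomial.map V.subtype)

/-- The integral model: the elements of `B` which are integral over `V[x]`. -/
def Sb : Subalgebra V B where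
  carrier := {b | (vB V φ).IsIntegralElem b}
  mul_mem' h1 h2 := RingHom.IsIntegralElem.mul _ h1 h2
  add_mem' h1 h2 := RingHom.IsIntegralElem.add _ h1 h2
  algebraMap_mem' v := by
    have h : algebraMap V B v = vB V φ (C v) := by
      have h2 : φ (C (v : K)) = algebraMap K B v := φ.commutes _
      simp only [vB, RingHom.comp_apply, map_C]
      exact h2.symm
    show (vB V φ).IsIntegralElem (algebraMap V B v)
    rw [h]
    exact RingHom.isIntegralElem_map _

/-- Multiples of `ϖ` in the integral model. -/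
def Dvb (ϖ : V) (b : B) : Prop := ∃ b' ∈ Sb V φ, b = algebraMap V B ϖ * b'

/-- The polynomials with coefficients in the coefficient field, in `B`. -/
def lfb {F : Type} [Field F] (c : F →+* V) : MvPolynomial (Fin (N + 1)) F →+* B :=
  (vB V φ).comp (MvPolynomial.map c)

/-- The ideal of the tube around the surface `g`: it is generated by `ϖ` and the coordinates of
positive order. -/
def Igb (ϖ : V) (g : Option (Fin 10)) : Ideal (Sb V φ) :=
  Ideal.span {s | s = algebraMap V (Sb V φ) ϖ ∨ ∃ c, 0 < ordG g c ∧ (s : B) = φ (xc K c)}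

end defs

/-- The data of the bridge, with the graded domain `B`. -/
structure SuB {p : ℕ} {J : Type} (E : Eqs p N J) {K : Type} [Field K] (V : ValuationSubring K)
    {F : Type} [Field F] (c : F →+* V) (σ : V →+* F) (t ϖ : V)
    (P : Ideal (MvPolynomial (Fin (N + 1)) K)) (z : Fin 4 → MvPolynomial (Fin (N + 1)) V)
    {B : Type} [CommRing B] [Algebra K B] (φ : MvPolynomial (Fin (N + 1)) K →ₐ[K] B)
    (ℬ : ℕ → Submodule K B) : Prop where
  base : Su E V c σ t ϖ P z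
  dom : IsDomain B
  ker : RingHom.ker φ = P
  deg : ∀ i, φ (X i) ∈ ℬ 1
  intB : ∀ b, (φ : MvPolynomial (Fin (N + 1)) K →+* B).IsIntegralElem b
  finS : ∃ (m : ℕ) (b : Fin m → B), (∀ i, b i ∈ Sb V φ) ∧
    ∀ y ∈ Sb V φ, ∃ q : Fin m → MvPolynomial (Fin 4) V,
      y = ∑ i, vB V φ (aeval z (q i)) * b i

section

variable {K : Type} [Field K] (V : ValuationSubring K) {F : Type} [Field F] (c : F →+* V) (ϖ : V)
  {B : Type} [CommRing B] [Algebra K B] (φ : MvPolynomial (Fin (N + 1)) K →ₐ[K] B)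

/-- A basis of the integral model modulo `ϖ` over the coordinate ring of `X`, up to the
denominator `r`. -/
structure IsBas (n : ℕ) (b : Fin n → B) (r : MvPolynomial (Fin (N + 1)) F) : Prop where
  mem : ∀ i, b i ∈ Sb V φ
  r_nz : r ∉ I F
  ind : ∀ q : Fin n → MvPolynomial (Fin (N + 1)) F, Dvb V φ ϖ (∑ i, lfb V φ c (q i) * b i) →
    ∀ i, q i ∈ I F
  gen : ∀ y ∈ Sb V φ, ∃ q : Fin n → MvPolynomial (Fin (N + 1)) F,
    Dvb V φ ϖ (lfb V φ c r * y - ∑ i, lfb V φ c (q i) * b i)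

end

/-- SUK: the coordinate ring of the close model itself (uses FINA of FRM). -/
def Stmt_Suk : Prop :=
  ∀ (p : ℕ) (J : Type) (E : Eqs p N J) (K : Type) [Field K] (V : ValuationSubring K)
    (F : Type) [Field F] (c : F →+* V) (σ : V →+* F) (t ϖ : V)
    (P : Ideal (MvPolynomial (Fin (N + 1)) K)) (z : Fin 4 → MvPolynomial (Fin (N + 1)) V),
    Su E V c σ t ϖ P z → Nonempty (GradedAlgebra (Bgr P)) ∧
      SuB E V c σ t ϖ P z (Ideal.Quotient.mkₐ K P) (Bgr P)

/-- GRV: the grading over `V`. -/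
def Stmt_Grv : Prop :=
  ∀ (K : Type) [Field K] (V : ValuationSubring K) (B : Type) [CommRing B] [Algebra K B]
    (ℬ : ℕ → Submodule K B) [GradedAlgebra ℬ],
    Nonempty (GradedAlgebra fun n => (ℬ n).restrictScalars V)

/-- HMB: the integral model is homogeneous (compare HOMA of FRM). -/
def Stmt_Hmb : Prop :=
  ∀ (K : Type) [Field K] (V : ValuationSubring K) (B : Type) [CommRing B] [IsDomain B]
    [Algebra K B] (φ : MvPolynomial (Fin (N + 1)) K →ₐ[K] B) (ℬ : ℕ → Submodule K B)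
    [GradedAlgebra ℬ], (∀ i, φ (X i) ∈ ℬ 1) → ∀ b ∈ Sb V φ, ∀ n,
      GradedAlgebra.proj ℬ n b ∈ Sb V φ

/-- GSS: the Gauss lemma in the integral model. -/
def Stmt_Gss : Prop :=
  ∀ (K : Type) [Field K] (V : ValuationSubring K) (ϖ : V), Irreducible ϖ →
    IsDiscreteValuationRing V → ∀ P : Ideal (MvPolynomial (Fin (N + 1)) K),
    ringKrullDim (MvPolynomial (Fin (N + 1)) K ⧸ P) = 4 →
    ∀ z : Fin 4 → MvPolynomial (Fin (N + 1)) V,
    (∀ i, (zmap V P z).IsIntegralElem (Ideal.Quotient.mk P (X i))) →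
    ∀ (B : Type) [CommRing B] [IsDomain B] [Algebra K B]
      (φ : MvPolynomial (Fin (N + 1)) K →ₐ[K] B), RingHom.ker φ = P →
    (∀ b, (φ : MvPolynomial (Fin (N + 1)) K →+* B).IsIntegralElem b) →
    (∀ r : MvPolynomial (Fin 4) V, vB V φ (aeval z r) = 0 → r = 0) ∧ ¬Dvb V φ ϖ 1 ∧
    ∀ (r : MvPolynomial (Fin 4) V) (b : B), r ∉ Ideal.span {C ϖ} → b ∈ Sb V φ →
      Dvb V φ ϖ (vB V φ (aeval z r) * b) → Dvb V φ ϖ b

/-- FID: finiteness of the integral model modulo `ϖ`. -/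
def Stmt_Fid : Prop :=
  ∀ (p : ℕ) (J : Type) (E : Eqs p N J) (K : Type) [Field K] (V : ValuationSubring K)
    (F : Type) [Field F] (c : F →+* V) (σ : V →+* F) (t ϖ : V)
    (P : Ideal (MvPolynomial (Fin (N + 1)) K)) (z : Fin 4 → MvPolynomial (Fin (N + 1)) V)
    (B : Type) [CommRing B] [Algebra K B] (φ : MvPolynomial (Fin (N + 1)) K →ₐ[K] B)
    (ℬ : ℕ → Submodule K B) [GradedAlgebra ℬ], SuB E V c σ t ϖ P z φ ℬ →
    (∀ q : MvPolynomial (Fin 4) V, Dvb V φ ϖ (vB V φ (aeval z q) -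
      lfb V φ c (aeval (fun j => MvPolynomial.map σ (z j)) (MvPolynomial.map σ q)))) ∧
    (∃ (m : ℕ) (b : Fin m → B), (∀ i, b i ∈ Sb V φ) ∧
      ∀ y ∈ Sb V φ, ∃ q : Fin m → MvPolynomial (Fin 4) F,
        Dvb V φ ϖ (y - ∑ i,
          lfb V φ c (aeval (fun j => MvPolynomial.map σ (z j)) (q i)) * b i)) ∧
    IsNoetherianRing (Sb V φ)

/-- NZD: polynomials which do not vanish on `X` are nonzerodivisors modulo `ϖ` (uses GSS, FID,
HLA of FRM, SPX of XV). -/
def Stmt_Nzd : Prop :=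
  ∀ (p : ℕ) (J : Type) (E : Eqs p N J) (K : Type) [Field K] (V : ValuationSubring K)
    (F : Type) [Field F] (c : F →+* V) (σ : V →+* F) (t ϖ : V)
    (P : Ideal (MvPolynomial (Fin (N + 1)) K)) (z : Fin 4 → MvPolynomial (Fin (N + 1)) V)
    (B : Type) [CommRing B] [Algebra K B] (φ : MvPolynomial (Fin (N + 1)) K →ₐ[K] B)
    (ℬ : ℕ → Submodule K B) [GradedAlgebra ℬ], SuB E V c σ t ϖ P z φ ℬ →
    ∀ G : MvPolynomial (Fin (N + 1)) F, G ∉ I F → ∀ b ∈ Sb V φ,
      Dvb V φ ϖ (lfb V φ c G * b) → Dvb V φ ϖ b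

/-- LFK: the special fibre of the integral model is over `X` (uses KRF, UCH, NZD, GSS, HLA of
FRM). -/
def Stmt_Lfk : Prop :=
  ∀ (p : ℕ) (J : Type) (E : Eqs p N J) (K : Type) [Field K] (V : ValuationSubring K)
    (F : Type) [Field F] (c : F →+* V) (σ : V →+* F) (t ϖ : V)
    (P : Ideal (MvPolynomial (Fin (N + 1)) K)) (z : Fin 4 → MvPolynomial (Fin (N + 1)) V)
    (B : Type) [CommRing B] [Algebra K B] (φ : MvPolynomial (Fin (N + 1)) K →ₐ[K] B)
    (ℬ : ℕ → Submodule K B) [GradedAlgebra ℬ], SuB E V c σ t ϖ P z φ ℬ →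
    ∀ G : MvPolynomial (Fin (N + 1)) F, Dvb V φ ϖ (lfb V φ c G) ↔ G ∈ I F

/-- INX: **the input of the dilatation** (uses NZD, LFK, FID, HMB, FNH, and `DIL`). -/
def Stmt_Inx : Prop :=
  ∀ (p : ℕ) (J : Type) (E : Eqs p N J) (K : Type) [Field K] (V : ValuationSubring K)
    (F : Type) [Field F] (c : F →+* V) (σ : V →+* F) (t ϖ : V)
    (P : Ideal (MvPolynomial (Fin (N + 1)) K)) (z : Fin 4 → MvPolynomial (Fin (N + 1)) V)
    (B : Type) [CommRing B] [Algebra K B] (φ : MvPolynomial (Fin (N + 1)) K →ₐ[K] B)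
    (ℬ : ℕ → Submodule K B) [GradedAlgebra ℬ], SuB E V c σ t ϖ P z φ ℬ →
    ∀ (hr : DIL.Res σ ϖ) (_ : GradedAlgebra fun n => (ℬ n).restrictScalars V)
      (g : Option (Fin 10)) (h : Fin 3 → MvPolynomial (Fin (N + 1)) F) (M : ℕ)
      (G : Fin 3 → MvPolynomial (Fin (N + 1)) F)
      (S : Finset (MvPolynomial (Fin (N + 1)) F × MvPolynomial (Fin (N + 1)) F)),
    ChD F g h M G S → (∀ i, (h i).IsHomogeneous 1) →
    (∀ j, ∃ n : ℕ, (X j : MvPolynomial (Fin (N + 1)) F) ^ n ∈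
      Ideal.span (Set.range h) ⊔ JI F g) →
    ∀ h' : Fin 3 → Sb V φ, (∀ i, (h' i : B) = lfb V φ c (h i)) →
    ∃ (cc : ℕ) (γ : Fin 3 → Sb V φ) (x f : S → Sb V φ),
      (∀ s : S, ((x s : B) = lfb V φ c s.1.1 ∧ (f s : B) = lfb V φ c s.1.2)) ∧
      DIL.In hr (fun n => (ℬ n).restrictScalars V) (Sb V φ) (Igb V φ ϖ g) h' (aG g) 1 cc γ x f

/-- BSX: existence of the basis (uses FID, NZD, LFK, GSS). -/
def Stmt_Bsx : Prop :=
  ∀ (p : ℕ) (J : Type) (E : Eqs p N J) (K : Type) [Field K] (V : ValuationSubring K)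
    (F : Type) [Field F] (c : F →+* V) (σ : V →+* F) (t ϖ : V)
    (P : Ideal (MvPolynomial (Fin (N + 1)) K)) (z : Fin 4 → MvPolynomial (Fin (N + 1)) V)
    (B : Type) [CommRing B] [Algebra K B] (φ : MvPolynomial (Fin (N + 1)) K →ₐ[K] B)
    (ℬ : ℕ → Submodule K B) [GradedAlgebra ℬ], SuB E V c σ t ϖ P z φ ℬ →
    ∃ n b r, 0 < n ∧ IsBas V c ϖ φ n b r

/-- HIB: the Hilbert function of `B` (uses FID, NZD, LFK, GSS, HMB, PRI of XV, GRO of GML). -/
def Stmt_Hib : Prop :=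
  ∀ (p : ℕ) (J : Type) (E : Eqs p N J) (K : Type) [Field K] (V : ValuationSubring K)
    (F : Type) [Field F] (c : F →+* V) (σ : V →+* F) (t ϖ : V)
    (P : Ideal (MvPolynomial (Fin (N + 1)) K)) (z : Fin 4 → MvPolynomial (Fin (N + 1)) V)
    (B : Type) [CommRing B] [Algebra K B] (φ : MvPolynomial (Fin (N + 1)) K →ₐ[K] B)
    (ℬ : ℕ → Submodule K B) [GradedAlgebra ℬ], SuB E V c σ t ϖ P z φ ℬ →
    ∀ n b r, IsBas V c ϖ φ n b r → (∀ m, Module.Finite K (ℬ m)) ∧ ∃ C : ℕ, ∀ m : ℕ,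
      |(Module.finrank K (ℬ m) : ℤ) - n * Module.finrank F (qgr (I F) m)| ≤
        C * ((m : ℤ) + 1) ^ 2

/-- HIX: the Hilbert function of `X` (uses PRI, DIM of XV, FNH, QGR, LZA, LZE of FRM, GRO of
GML). -/
def Stmt_Hix : Prop :=
  ∀ (F : Type) [Field F] [IsAlgClosed F], ∃ v C : ℕ, ∀ m : ℕ,
    |6 * (Module.finrank F (qgr (I F) m) : ℤ) - v * (m : ℤ) ^ 3| ≤ C * ((m : ℤ) + 1) ^ 2

/-- VGT: the degree of `X` is larger than the degree of `G` (uses HOM, PRI of XV). -/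
def Stmt_Vgt : Prop :=
  ∀ (F : Type) [Field F] (m : ℕ),
    12 * ∑ k ∈ Finset.range (m + 1), Module.finrank F (qgr (JI F none) k) ≤
      Module.finrank F (qgr (I F) (m + 11))

end Pool.Agent.XB
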