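import Pool.Agent.XV.Stmts
import Pool.Agent.GML.Stmts
import Pool.Agent.FRM.StmtsB

/-!
# The bridge from close models of `X` to the counting of functionals: definitions

`g : Option (Fin 10)` is one of the eleven negative surfaces: `none` is the section `G`, `some k`
is the surface `P_k` over the line `D_k`.
-/

set_option autoImplicit false

noncomputable section

namespace Pool.Agent.XB

open scoped Classical
open MvPolynomial Pool.Agent.FRM Pool.Agent.XV Pool.Agent.GML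

/-! ## The surfaces in `X` -/

/-- The order of a coordinate along one of the eleven surfaces. -/
def ordG : Option (Fin 10) → Pt → ℕ
  | none, c => c.w
  | some k, c => c.e k

/-- The number `a` with `O(1) = a` times the conormal bundle. -/
def aG : Option (Fin 10) → ℕ
  | none => 1
  | some _ => 2

/-- The ideal generated by the coordinates of positive order. -/
def Jg (F : Type) [CommRing F] (g : Option (Fin 10)) : Ideal (MvPolynomial (Fin (N + 1)) F) :=
  Ideal.span {r | ∃ c, 0 < ordG g c ∧ r = xc F c}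

/-- The ideal of the surface `g`. -/
def JI (F : Type) [CommRing F] (g : Option (Fin 10)) : Ideal (MvPolynomial (Fin (N + 1)) F) :=
  Jg F g ⊔ I F

/-- The denominator of the chart `(π, σ)`. -/
def chf (F : Type) [CommRing F] (π : Equiv.Perm (Fin 5)) (σ : Fin 6) :
    MvPolynomial (Fin (N + 1)) F :=
  tws π (xc F) (tp σ 0) * tws π (xc F) (tp σ 7) * tws π (xc F) (tp σ 8) * tws π (xc F) (tp σ 9)

/-- The equation of the `l`-th divisor in the chart `(π, σ)`. -/
def che (F : Type) [CommRing F] (π : Equiv.Perm (Fin 5)) (σ : Fin 6) (l : Fin 3) :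
    MvPolynomial (Fin (N + 1)) F :=
  tws π (xc F) (tp σ (tX l))

/-- The surface `g` is the `l`-th divisor of the chart `(π, σ)`. -/
def RayOf (g : Option (Fin 10)) (π : Equiv.Perm (Fin 5)) (σ : Fin 6) (l : Fin 3) : Prop :=
  (g = none ∧ σ = 0 ∧ l = 2) ∨ ∃ k, g = some k ∧
    ((l = 0 ∧ (σ = 0 ∨ σ = 1 ∨ σ = 2) ∧ pe π 0 = k) ∨ (l = 1 ∧ (σ = 0 ∨ σ = 1) ∧ pe π 7 = k))

/-- The point with all multiplicities equal to `1`. -/
def cO : Pt := ⟨0, fun _ => 1, by decide +kernel⟩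

/-- The exponents of the numerator of `1 / y`. -/
def cGe (k l : Fin 10) : ℕ := if l = k then 4 else if Disj k l then 2 else 0

theorem adm_cGe : ∀ k, Adm 1 0 (cGe k) := by decide +kernel

/-- The numerator of `1 / y`: the denominator is the square of the coordinate `cO`. -/
def cG : Option (Fin 10) → Pt
  | none => ⟨1, fun _ => 2, by decide +kernel⟩
  | some k => ⟨0, cGe k, adm_cGe k⟩

/-- The denominator of the universal chart, the variables are `Z, X₁, X₂, X₃`. -/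
def gA (F : Type) [CommRing F] (σ : Fin 6) : MvPolynomial (Fin 4) F :=
  X 0 * (1 + hx σ fun l => X l.succ) * (1 + hy σ fun l => X l.succ) *
    (1 - (hx σ fun l => X l.succ) * hy σ fun l => X l.succ)

/-- The ring of the universal chart. -/
abbrev Au (F : Type) [CommRing F] (σ : Fin 6) : Type := Localization.Away (gA F σ)

/-- The coordinate `Z`. -/
def Za (F : Type) [CommRing F] (σ : Fin 6) : Au F σ :=
  algebraMap (MvPolynomial (Fin 4) F) (Au F σ) (X 0)

/-- The coordinates `X₁, X₂, X₃`. -/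
def Xa (F : Type) [CommRing F] (σ : Fin 6) (l : Fin 3) : Au F σ :=
  algebraMap (MvPolynomial (Fin 4) F) (Au F σ) (X l.succ)

/-- Local description of the surface `g` and of the sections `G` of the `a`-th power of its ideal,
over the coefficient field. -/
structure ChD (F : Type) [Field F] (g : Option (Fin 10))
    (h : Fin 3 → MvPolynomial (Fin (N + 1)) F) (M : ℕ)
    (G : Fin 3 → MvPolynomial (Fin (N + 1)) F)
    (S : Finset (MvPolynomial (Fin (N + 1)) F × MvPolynomial (Fin (N + 1)) F)) : Prop where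
  ne : S.Nonempty
  M_pos : 0 < M
  f_hom : ∀ s ∈ S, ∃ m, s.1.IsHomogeneous m
  e_mem : ∀ s ∈ S, s.2 ∈ Jg F g
  e_hom : ∀ s ∈ S, s.2.IsHomogeneous 1
  loc : ∀ s ∈ S, ∀ c, 0 < ordG g c → ∃ (n : ℕ) (b : MvPolynomial (Fin (N + 1)) F),
    s.1 ^ n * xc F c - b * s.2 ∈ I F
  G_mem : ∀ i, G i ∈ Jg F g ^ aG g
  G_hom : ∀ i, (G i).IsHomogeneous (M - 1)
  G_loc : ∀ s ∈ S, ∃ (u v : MvPolynomial (Fin (N + 1)) F) (n : ℕ), u * v - s.1 ^ n ∈ I F ∧
    ∀ i, ∃ b, s.1 ^ n * G i - u * h i ^ M * s.2 ^ aG g - b * s.2 ^ (aG g + 1) ∈ I F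
  cov : ∀ i, ∃ (n : ℕ) (β : MvPolynomial (Fin (N + 1)) F × MvPolynomial (Fin (N + 1)) F →
    MvPolynomial (Fin (N + 1)) F), h i ^ n - ∑ s ∈ S, β s * s.1 ∈ JI F g
  prime : ∀ s ∈ S, ∀ r r' : MvPolynomial (Fin (N + 1)) F, r * r' ∈ Ideal.span {s.2} ⊔ I F →
    (∃ n : ℕ, s.1 ^ n * r ∈ Ideal.span {s.2} ⊔ I F) ∨
      ∃ n : ℕ, s.1 ^ n * r' ∈ Ideal.span {s.2} ⊔ I F
  conn : ∀ s ∈ S, ∀ s' ∈ S, ∀ n m : ℕ, s.1 ^ n * s'.1 ^ m ∉ Ideal.span {s.2} ⊔ I F

/-! ## The close model -/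

section model

variable {K : Type} [Field K] (V : ValuationSubring K)
  (P : Ideal (MvPolynomial (Fin (N + 1)) K))

/-- The homogeneous coordinate ring of the close model. -/
abbrev Bq : Type := MvPolynomial (Fin (N + 1)) K ⧸ P

/-- The coordinates. -/
def xq (c : Pt) : Bq P := Ideal.Quotient.mk P (xc K c)

/-- The homogeneous elements. -/
def Bgr (m : ℕ) : Submodule K (Bq P) :=
  (homogeneousSubmodule (Fin (N + 1)) K m).map (Ideal.Quotient.mkₐ K P).toLinearMap

/-- The integral model: the elements integral over `V[x]`. -/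
def Ab : Subalgebra V (Bq P) where
  carrier := {b | (vmap V P).IsIntegralElem b}
  mul_mem' h1 h2 := RingHom.IsIntegralElem.mul _ h1 h2
  add_mem' h1 h2 := RingHom.IsIntegralElem.add _ h1 h2
  algebraMap_mem' v := by
    have h : algebraMap V (Bq P) v = vmap V P (C v) := by
      simp only [vmap, RingHom.comp_apply, map_C]
      rfl
    simp only [Set.mem_setOf_eq]
    rw [h]
    exact RingHom.isIntegralElem_map _

/-- Multiples of `ϖ` in the integral model. -/
def Dv (ϖ : V) (b : Bq P) : Prop := ∃ b' ∈ Ab V P, b = algebraMap V (Bq P) ϖ * b'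

/-- The ring of the dilated tube around the surface `g`. -/
def Dd (ϖ : V) (g : Option (Fin 10)) : Subalgebra V (Bq P) :=
  Algebra.adjoin V ((Ab V P : Set (Bq P)) ∪
    {b | ∃ c, 0 < ordG g c ∧ b = algebraMap K (Bq P) ((ϖ : K)⁻¹) * xq P c})

/-- The homogeneous elements of the ring of the tube. -/
def Ddgr (ϖ : V) (g : Option (Fin 10)) (m : ℕ) : Submodule V (Dd V P ϖ g) :=
  ((Bgr P m).restrictScalars V).comap (Dd V P ϖ g).val.toLinearMap

/-- The polynomials with coefficients in the coefficient field, in the close model. -/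
def lf {F : Type} [Field F] (c : F →+* V) : MvPolynomial (Fin (N + 1)) F →+* Bq P :=
  (vmap V P).comp (MvPolynomial.map c)

end model

/-! ## Dilatations: local description -/

section dil

variable {Q : Type} [CommRing Q] (A : Subring Q) (ϖ ϖ' : Q) {ι : Type} (x : ι → Q)

/-- The ring `A[x / ϖ]`. -/
def Dr : Subring Q := Subring.closure ((A : Set Q) ∪ {b | ∃ i, b = ϖ' * x i})

/-- The elements `∑ a ϖ^(-k) x ⋯ x` with at most `m` factors `x`. -/
def Fi (m : ℕ) : AddSubgroup Q :=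
  AddSubgroup.closure {b | ∃ a ∈ A, ∃ k ≤ m, ∃ γ : Fin k → ι, b = a * ϖ' ^ k * ∏ j, x (γ j)}

/-- The `k`-th power of the ideal generated by the `x i`. -/
def Ip (k : ℕ) : AddSubgroup Q :=
  AddSubgroup.closure {b | ∃ a ∈ A, ∃ γ : Fin k → ι, b = a * ∏ j, x (γ j)}

/-- The filtration of `A[x / ϖ]` modulo `ϖ`, shifted by one. -/
def FF (m : ℕ) : AddSubgroup Q where
  carrier := {d | ∃ f ∈ (if m = 0 then (⊥ : AddSubgroup Q) else Fi A ϖ' x (m - 1)),
    ∃ d' ∈ Dr A ϖ' x, d = f + ϖ * d'}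
  zero_mem' := ⟨0, AddSubgroup.zero_mem _, 0, Subring.zero_mem _, by simp⟩
  add_mem' := by
    rintro _ _ ⟨f, hf, d, hd, rfl⟩ ⟨f', hf', d', hd', rfl⟩
    exact ⟨f + f', AddSubgroup.add_mem _ hf hf', d + d', Subring.add_mem _ hd hd', by ring⟩
  neg_mem' := by
    rintro _ ⟨f, hf, d, hd, rfl⟩
    exact ⟨-f, AddSubgroup.neg_mem _ hf, -d, Subring.neg_mem _ hd, by ring⟩

/-- The local description of the ideal `(x)` and of the sections `G` of its `a`-th power: on the
open set `f ≠ 0` (`(f, e) ∈ S`) the ideal `(x, ϖ)` is generated by `e` and `ϖ`, and `G i` is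
`h i ^ M` times a generator of `(x) ^ a`. -/
structure LocD (a M : ℕ) (h G : Fin 3 → Q) (S : Finset (Q × Q)) : Prop where
  inv : ϖ * ϖ' = 1
  pi_mem : ϖ ∈ A
  x_mem : ∀ i, x i ∈ A
  h_mem : ∀ i, h i ∈ A
  f_mem : ∀ s ∈ S, s.1 ∈ A
  e_mem : ∀ s ∈ S, s.2 ∈ Ip A x 1
  loc : ∀ s ∈ S, ∀ i, ∃ n : ℕ, ∃ b ∈ A, ∃ b' ∈ A, s.1 ^ n * x i = b * s.2 + ϖ * b'
  nzf : ∀ s ∈ S, ∀ b ∈ A, (∃ b' ∈ A, s.1 * b = ϖ * b') → ∃ b' ∈ A, b = ϖ * b'
  nze : ∀ s ∈ S, ∀ b ∈ A, (∃ b' ∈ A, s.2 * b = ϖ * b') → ∃ b' ∈ A, b = ϖ * b'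
  G_mem : ∀ i, G i ∈ Ip A x a
  G_loc : ∀ s ∈ S, ∃ u ∈ A, ∃ v ∈ A, ∃ n : ℕ,
    (∃ b ∈ A, ∃ b' ∈ A, u * v - s.1 ^ n = b * s.2 + ϖ * b') ∧
    ∀ i, ∃ b ∈ A, ∃ b' ∈ A, s.1 ^ n * G i = u * h i ^ M * s.2 ^ a + b * s.2 ^ (a + 1) + ϖ * b'
  cov : ∀ i, ∃ n : ℕ, ∃ β : Q × Q → Q, (∀ s ∈ S, β s ∈ A) ∧ ∃ b ∈ Ip A x 1, ∃ b' ∈ A,
    h i ^ n = ∑ s ∈ S, β s * s.1 + b + ϖ * b'

end dil

/-! ## Graded rings as graded modules -/

/-- `M` is the ring `S` with the grading `gr`, as a graded module over `k[X]` by means of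
`X i ↦ h i`. -/
structure IsRM {k : Type} [CommRing k] {S : Type} [CommRing S] [Algebra k S] {r : ℕ}
    (M : GMod k r) (gr : ℕ → Submodule k S) (h : Fin r → S) (e : M.M ≃ₗ[k] S) : Prop where
  smul : ∀ i x, e ((X i : MvPolynomial (Fin r) k) • x) = h i * e x
  gr : ∀ (n : ℕ) x, x ∈ M.gr n ↔ e x ∈ gr n
  neg : ∀ n : ℤ, n < 0 → M.gr n = ⊥

/-- The homogeneous elements of a quotient of the polynomial ring. -/
def qgr {F : Type} [Field F] (J : Ideal (MvPolynomial (Fin (N + 1)) F)) (m : ℕ) :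
    Submodule F (MvPolynomial (Fin (N + 1)) F ⧸ J) :=
  (homogeneousSubmodule (Fin (N + 1)) F m).map (Ideal.Quotient.mkₐ F J).toLinearMap

/-- The data of the bridge: a close model over a discrete valuation ring with coefficient field
`F`. -/
structure Su {p : ℕ} {J : Type} (E : Eqs p N J) {K : Type} [Field K] (V : ValuationSubring K)
    {F : Type} [Field F] (c : F →+* V) (σ : V →+* F) (t ϖ : V)
    (P : Ideal (MvPolynomial (Fin (N + 1)) K)) (z : Fin 4 → MvPolynomial (Fin (N + 1)) V) :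
    Prop where
  closed : IsAlgClosed F
  charp : CharP K p
  pr : p.Prime
  good : GoodEqs E
  dvr : IsDiscreteValuationRing V
  close : IsClose E 3 V t P z
  irr : Irreducible ϖ
  sec : ∀ x, σ (c x) = x
  ker : RingHom.ker σ = Ideal.span {ϖ}

end Pool.Agent.XB
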