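import Pool.Agent.XB.StmtsB

/-!
# NZD: polynomials which do not vanish on `X` are nonzerodivisors modulo `ϖ`
-/

set_option autoImplicit false

noncomputable section

namespace Pool.Agent.XB

open scoped Classical
open MvPolynomial Pool.Agent.FRM Pool.Agent.XV Pool.Agent.GML

namespace NZD_

/-- lower bound for the dimension of a finitely generated domain -/
lemma dim_ge (k A : Type) [Field k] [CommRing A] [IsDomain A] [Algebra k A]
    [Algebra.FiniteType k A] {r : ℕ} (y : Fin r → A) (hy : AlgebraicIndependent k y) :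
    (r : WithBot ℕ∞) ≤ ringKrullDim A := by
  obtain ⟨t, g, hg, hint⟩ := exists_integral_inj_algHom_of_fg k A
  letI : Algebra (MvPolynomial (Fin t) k) A := g.toRingHom.toAlgebra
  haveI : Algebra.IsIntegral (MvPolynomial (Fin t) k) A := ⟨hint⟩
  haveI : IsScalarTower k (MvPolynomial (Fin t) k) A := IsScalarTower.of_algebraMap_eq
    (fun x => (g.commutes x).symm)
  haveI : FaithfulSMul (MvPolynomial (Fin t) k) A :=
    (faithfulSMul_iff_algebraMap_injective _ _).mpr hg
  have h2 := lift_trdeg_add_eq k (MvPolynomial (Fin t) k) A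
  have h3 : Algebra.trdeg (MvPolynomial (Fin t) k) A = 0 := by
    rw [trdeg_eq_zero_iff]
    infer_instance
  rw [h3, MvPolynomial.trdeg_of_isDomain] at h2
  simp at h2
  rw [LibDb3ab1.ringKrullDim_eq_trdeg k A h2.symm]
  have h4 := hy.cardinalMk_le_trdeg
  rw [← h2] at h4
  simp only [Cardinal.mk_fin, Nat.cast_le] at h4
  exact_mod_cast h4

lemma lfb_mem {K : Type} [Field K] (V : ValuationSubring K) {F : Type} [Field F] (c : F →+* V)
    {B : Type} [CommRing B] [Algebra K B] (φ : MvPolynomial (Fin (N + 1)) K →ₐ[K] B)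
    (r : MvPolynomial (Fin (N + 1)) F) : lfb V φ c r ∈ Sb V φ :=
  RingHom.isIntegralElem_map _

lemma vB_mem {K : Type} [Field K] (V : ValuationSubring K)
    {B : Type} [CommRing B] [Algebra K B] (φ : MvPolynomial (Fin (N + 1)) K →ₐ[K] B)
    (r : MvPolynomial (Fin (N + 1)) V) : vB V φ r ∈ Sb V φ :=
  RingHom.isIntegralElem_map _

/-- the integral equations vanish modulo `ϖ` -/
lemma eqn {p : ℕ} {J : Type} (E : Eqs p N J) {K : Type} [Field K] (V : ValuationSubring K)
    {F : Type} [Field F] (c : F →+* V) (σ : V →+* F) (t ϖ : V)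
    (P : Ideal (MvPolynomial (Fin (N + 1)) K)) (z : Fin 4 → MvPolynomial (Fin (N + 1)) V)
    {B : Type} [CommRing B] [Algebra K B] (φ : MvPolynomial (Fin (N + 1)) K →ₐ[K] B)
    (hHLA : FRM.Stmt_Hla) (hS : Su E V c σ t ϖ P z) (hker : RingHom.ker φ = P) (j : J) :
    Dvb V φ ϖ (lfb V φ c (MvPolynomial.map (Int.castRingHom F) (E.g j))) := by
  haveI := Fact.mk hS.pr
  haveI := hS.charp
  haveI := hS.dvr
  have h1 := hHLA p N 3 J E K V t P z hS.close j
  have h2 : (Ideal.Quotient.lift P (φ : MvPolynomial (Fin (N + 1)) K →+* B) (fun a ha => by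
      rw [← hker] at ha; exact ha)).comp (vmap V P) = vB V φ := by
    rw [vmap, ← RingHom.comp_assoc]
    rfl
  set ψ : MvPolynomial (Fin (N + 1)) K ⧸ P →+* B :=
    Ideal.Quotient.lift P (φ : MvPolynomial (Fin (N + 1)) K →+* B) (fun a ha => by
      rw [← hker] at ha; exact ha) with hψ
  have h3 : φ (C ((t : K)⁻¹) * red K (E.g j)) ∈ Sb V φ := by
    obtain ⟨f, hf, hf0⟩ := h1
    refine ⟨f, hf, ?_⟩
    have h4 := congrArg ψ hf0
    rw [Polynomial.hom_eval₂, map_zero, h2] at h4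
    exact h4
  have ht0 : (t : K) ≠ 0 := fun h => hS.close.t_ne (Subtype.ext h)
  obtain ⟨u, hu⟩ : ϖ ∣ t := by
    rw [← Ideal.mem_span_singleton, ← hS.irr.maximalIdeal_eq, IsLocalRing.mem_maximalIdeal]
    exact hS.close.t_nonunit
  refine ⟨algebraMap V B u * φ (C ((t : K)⁻¹) * red K (E.g j)),
    mul_mem (Subalgebra.algebraMap_mem _ u) h3, ?_⟩
  rw [← mul_assoc, ← map_mul, ← hu, map_mul]
  have h5 : φ (C ((t : K)⁻¹)) = algebraMap K B ((t : K)⁻¹) := φ.commutes _
  have h6 : algebraMap V B t = algebraMap K B (t : K) := rfl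
  rw [h5, h6, ← mul_assoc, ← map_mul, mul_inv_cancel₀ ht0, map_one, one_mul]
  rw [lfb, vB, RingHom.comp_apply, RingHom.comp_apply, MvPolynomial.map_map,
    MvPolynomial.map_map, red]
  have h7 : (V.subtype.comp c).comp (Int.castRingHom F) = Int.castRingHom K :=
    RingHom.ext_int _ _
  rw [h7]
  rfl

end NZD_

open NZD_ in
theorem NZD_proof (hGSS : Stmt_Gss) (hFID : Stmt_Fid) (hHLA : FRM.Stmt_Hla)
    (hSPX : XV.Stmt_Spx) : Stmt_Nzd := by
  intro p J E K _ V F _ c σ t ϖ P z B _ _ φ ℬ _ hS G hG b hb hdv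
  haveI : IsDomain B := hS.dom
  by_contra hnb
  obtain ⟨hF1, -, hNoeth⟩ := hFID p J E K V F c σ t ϖ P z B φ ℬ hS
  have hdim : ringKrullDim (MvPolynomial (Fin (N + 1)) K ⧸ P) = 4 := by
    rw [hS.base.close.dim]
    norm_num
  obtain ⟨-, -, hG3⟩ := hGSS K V ϖ hS.base.irr hS.base.dvr P hdim z hS.base.close.z_int B φ
    hS.ker hS.intB
  set I0 : Ideal (Sb V φ) := Ideal.span {algebraMap V (Sb V φ) ϖ} with hI0
  have memJ : ∀ s : Sb V φ, s ∈ I0 ↔ Dvb V φ ϖ (s : B) := by
    intro s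
    rw [hI0, Ideal.mem_span_singleton']
    constructor
    · rintro ⟨a, rfl⟩
      refine ⟨a, a.2, ?_⟩
      rw [mul_comm]
      rfl
    · rintro ⟨b', hb', h⟩
      refine ⟨⟨b', hb'⟩, Subtype.ext ?_⟩
      rw [h, mul_comm]
      rfl
  set lf' : MvPolynomial (Fin (N + 1)) F →+* Sb V φ :=
    (lfb V φ c).codRestrict (Sb V φ) (lfb_mem V c φ) with hlf'
  set x : Sb V φ ⧸ I0 := Ideal.Quotient.mk I0 ⟨b, hb⟩ with hx
  have hx0 : x ≠ 0 := by
    rw [hx, Ne, Ideal.Quotient.eq_zero_iff_mem, memJ]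
    exact hnb
  obtain ⟨q, hq, hqx⟩ := exists_le_isAssociatedPrime_of_isNoetherianRing (Sb V φ) x hx0
  rw [isAssociatedPrime_iff] at hq
  obtain ⟨hqp, y, hqy⟩ := hq
  obtain ⟨y', rfl⟩ := Ideal.Quotient.mk_surjective y
  have hsm : ∀ s s' : Sb V φ, s • (Ideal.Quotient.mk I0 s') = 0 ↔ s * s' ∈ I0 := by
    intro s s'
    rw [← Ideal.Quotient.eq_zero_iff_mem]
    rfl
  have memq : ∀ s : Sb V φ, s ∈ q ↔ s * y' ∈ I0 := by
    intro s
    rw [hqy, Submodule.mem_colon_singleton, Submodule.mem_bot, hsm]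
  have hy' : y' ∉ I0 := by
    intro h
    apply hqp.ne_top
    rw [Ideal.eq_top_iff_one, memq, one_mul]
    exact h
  have hIq : I0 ≤ q := by
    intro s hs
    rw [memq]
    exact Ideal.mul_mem_right _ _ hs
  have hGq : lf' G ∈ q := by
    apply hqx
    rw [Submodule.mem_colon_singleton, Submodule.mem_bot, hsm, memJ]
    exact hdv
  have hcongr : ∀ r : MvPolynomial (Fin 4) F, r ≠ 0 →
      lf' (aeval (fun j => MvPolynomial.map σ (z j)) r) ∉ q := by
    intro r hr hrq
    have hr1 : MvPolynomial.map σ (MvPolynomial.map c r) = r := by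
      rw [MvPolynomial.map_map]
      have : σ.comp c = RingHom.id F := RingHom.ext hS.base.sec
      rw [this, MvPolynomial.map_id]
    have hr2 : MvPolynomial.map c r ∉ Ideal.span {C ϖ} := by
      rw [Ideal.mem_span_singleton']
      rintro ⟨a, ha⟩
      apply hr
      rw [← hr1, ← ha, map_mul, MvPolynomial.map_C]
      have : σ ϖ = 0 := by
        rw [← RingHom.mem_ker, hS.base.ker]
        exact Ideal.mem_span_singleton_self _
      rw [this, C_0, mul_zero]
    have h1 := hF1 (MvPolynomial.map c r)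
    rw [hr1] at h1
    set v' : Sb V φ := ⟨vB V φ (aeval z (MvPolynomial.map c r)), vB_mem V φ _⟩ with hv'
    have h2 : v' - lf' (aeval (fun j => MvPolynomial.map σ (z j)) r) ∈ I0 := by
      rw [memJ]
      exact h1
    have h3 : v' ∈ q := by
      have := add_mem (hIq h2) hrq
      rwa [sub_add_cancel] at this
    rw [memq, memJ] at h3
    apply hy'
    rw [memJ]
    exact hG3 (MvPolynomial.map c r) y' hr2 y'.2 h3
  set Q : Ideal (MvPolynomial (Fin (N + 1)) F) := q.comap lf' with hQ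
  haveI hQp : Q.IsPrime := Ideal.IsPrime.comap lf'
  have hQint : ∀ g ∈ I ℤ, MvPolynomial.map (Int.castRingHom F) g ∈ Q := by
    have h1 : I ℤ ≤ Ideal.comap (MvPolynomial.map (Int.castRingHom F)) Q := by
      rw [← hS.base.good.span, Ideal.span_le]
      rintro _ ⟨j, rfl⟩
      change lf' (MvPolynomial.map (Int.castRingHom F) (E.g j)) ∈ q
      apply hIq
      rw [memJ]
      exact eqn E V c σ t ϖ P z φ hHLA hS.base hS.ker j
    exact fun g hg => h1 hg
  have hdimQ : 4 ≤ ringKrullDim (MvPolynomial (Fin (N + 1)) F ⧸ Q) := by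
    refine dim_ge F (MvPolynomial (Fin (N + 1)) F ⧸ Q)
      (fun j : Fin 4 => Ideal.Quotient.mk Q (MvPolynomial.map σ (z j))) ?_
    rw [algebraicIndependent_iff]
    intro r hr
    by_contra hr0
    apply hcongr r hr0
    have h1 : aeval (fun j : Fin 4 => Ideal.Quotient.mk Q (MvPolynomial.map σ (z j))) r =
        Ideal.Quotient.mkₐ F Q (aeval (fun j => MvPolynomial.map σ (z j)) r) := by
      exact (MvPolynomial.comp_aeval_apply (fun j : Fin 4 => MvPolynomial.map σ (z j))
        (Ideal.Quotient.mkₐ F Q) r).symm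
    rw [h1] at hr
    have h2 : aeval (fun j => MvPolynomial.map σ (z j)) r ∈ Q :=
      (Ideal.Quotient.eq_zero_iff_mem (I := Q)).1 hr
    exact h2
  have hQI := (hSPX F Q hQp hQint).2 hdimQ
  apply hG
  rw [← hQI]
  exact hGq

end Pool.Agent.XB
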