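import Pool.Agent.XB.Defs

/-!
# The bridge from close models of `X` to the counting of functionals: statements over the
coefficient field

The recipes are in `/team-store/MP_db3ab1_XB.md`.
-/

set_option autoImplicit false

noncomputable section

namespace Pool.Agent.XB

open scoped Classical
open MvPolynomial Pool.Agent.FRM Pool.Agent.XV Pool.Agent.GML

/-! ## The surfaces over the coefficient field -/

/-- RAY: orders along the surfaces in the charts. -/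
def Stmt_Ray : Prop :=
  (∀ g π σ l, RayOf g π σ l → (∀ c : Pt, elc σ l (act π⁻¹ c) = ordG g c) ∧
    ∀ l', elc σ l' (act π⁻¹ (cG g)) =
      2 * elc σ l' (act π⁻¹ cO) + if l' = l then aG g else 0) ∧
  ∀ g π σ, (∃ l, RayOf g π σ l) ∨
    ∃ n : Fin 10, (n = 0 ∨ n = 7 ∨ n = 8 ∨ n = 9) ∧ 0 < ordG g (act π (tp σ n))

/-- UCH: the coordinate rings of the charts (uses CHV, CHR, UNI, SYM, SPX of XV). -/
def Stmt_Uch : Prop :=
  ∀ (F : Type) [Field F] (π : Equiv.Perm (Fin 5)) (σ : Fin 6),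
    ∃ φ : MvPolynomial (Fin (N + 1)) F →ₐ[F] Au F σ, RingHom.ker φ = I F ∧
      IsUnit (φ (chf F π σ)) ∧
      (∀ y, ∃ (n : ℕ) (r : MvPolynomial (Fin (N + 1)) F), φ (chf F π σ) ^ n * y = φ r) ∧
      φ (tws π (xc F) (tp σ 0)) = Za F σ ∧
      (∀ l, φ (che F π σ l) = Za F σ * Xa F σ l) ∧
      ∀ c, ∃ w, IsUnit w ∧ φ (tws π (xc F) c) = w * ∏ l, Xa F σ l ^ elc σ l c

/-- KRF: solutions of the integral equations in a chart satisfy all equations (uses CHV, CHR, SYM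
of XV, and UCH). -/
def Stmt_Krf : Prop :=
  ∀ (F B : Type) [Field F] [CommRing B] [Algebra F B] (s : Pt → B), IsSol s →
    ∀ (π : Equiv.Perm (Fin 5)) (σ : Fin 6),
      IsUnit (aeval (R := F) (fun i => s (pt i)) (chf F π σ)) →
    ∀ G ∈ I F, aeval (R := F) (fun i => s (pt i)) G = 0

/-- CVG: the charts of the surface `g` cover it (uses COV, HOM of XV, and RAY). -/
def Stmt_Cvg : Prop :=
  ∀ (F : Type) [Field F] [IsAlgClosed F] (g : Option (Fin 10)) (i : Fin (N + 1)), ∃ n : ℕ,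
    (X i : MvPolynomial (Fin (N + 1)) F) ^ n ∈
      Ideal.span {f | ∃ π σ l, RayOf g π σ l ∧ f = chf F π σ} ⊔ JI F g

/-- LCG: the surface `g` in its charts (uses UCH, RAY). -/
def Stmt_Lcg : Prop :=
  ∀ (F : Type) [Field F] (g : Option (Fin 10)) (π : Equiv.Perm (Fin 5)) (σ : Fin 6) (l : Fin 3),
    RayOf g π σ l →
    che F π σ l ∈ Jg F g ∧ che F π σ l ∉ I F ∧
    (∀ c, 0 < ordG g c → ∃ (n : ℕ) (b : MvPolynomial (Fin (N + 1)) F),
      chf F π σ ^ n * xc F c - b * che F π σ l ∈ I F) ∧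
    (∃ (n : ℕ) (u v : MvPolynomial (Fin (N + 1)) F), u * v - chf F π σ ^ n ∈ I F ∧
      chf F π σ ^ n * xc F (cG g) - u * che F π σ l ^ aG g * xc F cO ^ 2 ∈ I F) ∧
    (∀ r r' : MvPolynomial (Fin (N + 1)) F, r * r' ∈ Ideal.span {che F π σ l} ⊔ I F →
      (∃ n : ℕ, chf F π σ ^ n * r ∈ Ideal.span {che F π σ l} ⊔ I F) ∨
        ∃ n : ℕ, chf F π σ ^ n * r' ∈ Ideal.span {che F π σ l} ⊔ I F) ∧
    ∀ π' σ' l', RayOf g π' σ' l' → ∀ n m : ℕ,
      chf F π σ ^ n * chf F π' σ' ^ m ∉ Ideal.span {che F π σ l} ⊔ I F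

/-- GLU: the sections `G` (uses CVG, LCG, and PRI of XV). -/
def Stmt_Glu : Prop :=
  ∀ (F : Type) [Field F] [IsAlgClosed F] (g : Option (Fin 10))
    (h : Fin 3 → MvPolynomial (Fin (N + 1)) F), (∀ i, (h i).IsHomogeneous 1) →
    ∃ M G S, ChD F g h M G S ∧ ∀ s ∈ S, ∃ π σ l, RayOf g π σ l ∧ s = (chf F π σ, che F π σ l)

/-- LNF: linear forms without common zero on the surface (uses DIM, PRI of XV). -/
def Stmt_Lnf : Prop :=
  ∀ (F : Type) [Field F] [IsAlgClosed F] (g : Option (Fin 10)),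
    ∃ h : Fin 3 → MvPolynomial (Fin (N + 1)) F, (∀ i, (h i).IsHomogeneous 1) ∧
      ∀ j, ∃ n : ℕ, (X j : MvPolynomial (Fin (N + 1)) F) ^ n ∈
        Ideal.span (Set.range h) ⊔ JI F g

/-- FNH: quotients by homogeneous ideals which are finite over polynomial rings. -/
def Stmt_Fnh : Prop :=
  ∀ (F : Type) [Field F] (n r : ℕ) (J : Ideal (MvPolynomial (Fin n) F)),
    (∀ G ∈ J, ∀ m, homogeneousComponent m G ∈ J) →
    ∀ h : Fin r → MvPolynomial (Fin n) F, (∀ i, (h i).IsHomogeneous 1) →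
    (∀ j, ∃ m : ℕ, (X j : MvPolynomial (Fin n) F) ^ m ∈ Ideal.span (Set.range h) ⊔ J) →
    ∃ T : Finset (MvPolynomial (Fin n) F), ∀ G, ∃ q : MvPolynomial (Fin n) F →
      MvPolynomial (Fin r) F, G - ∑ m ∈ T, aeval h (q m) * m ∈ J

/-- DMG: the polynomials in the linear forms are nonzero on the surface (uses UCH, FNH, RAY). -/
def Stmt_Dmg : Prop :=
  ∀ (F : Type) [Field F] (g : Option (Fin 10)) (π : Equiv.Perm (Fin 5)) (σ : Fin 6) (l : Fin 3),
    RayOf g π σ l → ∀ h : Fin 3 → MvPolynomial (Fin (N + 1)) F, (∀ i, (h i).IsHomogeneous 1) →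
    (∀ j, ∃ n : ℕ, (X j : MvPolynomial (Fin (N + 1)) F) ^ n ∈
      Ideal.span (Set.range h) ⊔ JI F g) →
    ∀ q : MvPolynomial (Fin 3) F, q ≠ 0 → ∀ n : ℕ,
      chf F π σ ^ n * aeval h q ∉ Ideal.span {che F π σ l} ⊔ I F

/-- QGR: quotients by homogeneous ideals are graded. -/
def Stmt_Qgr : Prop :=
  ∀ (F : Type) [Field F] (J : Ideal (MvPolynomial (Fin (N + 1)) F)),
    (∀ G ∈ J, ∀ m, homogeneousComponent m G ∈ J) → Nonempty (GradedAlgebra (qgr J))

/-! ## The integral model -/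

/-- SUX: the data of the bridge from a complete model. -/
def Stmt_Sux : Prop :=
  ∀ (p : ℕ) [Fact p.Prime] (J : Type) (E : Eqs p N J), GoodEqs E → ∀ Y : CompleteModel E 3,
    letI := Y.field
    letI := Y.fieldF
    ∃ (σ : Y.V →+* Y.F) (ϖ : Y.V), Su E Y.V Y.c σ Y.t ϖ Y.P Y.z

end Pool.Agent.XB
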